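import Pool.Agent.Work.MP_4035b7_pr.Defs

/-!
A chain of particles visits lattice cells; erasing loops gives an injective sequence of occupied
cells which is not more expensive.
-/

set_option autoImplicit false

open MeasureTheory ProbabilityTheory Filter
open scoped ENNReal NNReal Topology

namespace Pool.Agent.Work.MP_4035b7_pr

/-- Loop erasure. -/
theorem loop_erase {X : Type*} (w : X → X → ℝ) (hw : ∀ a b, 0 ≤ w a b) (occ : X → Prop) (a b : X)
    (C : ℝ) (k : ℕ) (z : ℕ → X) (h0 : z 0 = a) (hk : z k = b) (hocc : ∀ i ≤ k, occ (z i))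
    (hC : ∑ i ∈ Finset.range k, w (z i) (z (i + 1)) ≤ C) :
    ∃ (m : ℕ) (z : ℕ → X), z 0 = a ∧ z m = b ∧ (∀ i ≤ m, occ (z i)) ∧
      ∑ i ∈ Finset.range m, w (z i) (z (i + 1)) ≤ C ∧
      ∀ i j, i < j → j ≤ m → z i ≠ z j := by
  classical
  have hex : ∃ m : ℕ, ∃ z : ℕ → X, z 0 = a ∧ z m = b ∧ (∀ i ≤ m, occ (z i)) ∧
      ∑ i ∈ Finset.range m, w (z i) (z (i + 1)) ≤ C := ⟨k, z, h0, hk, hocc, hC⟩
  obtain ⟨z, h0, hk, hocc, hC⟩ := Nat.find_spec hex
  have hmin := fun m (hm : m < Nat.find hex) => Nat.find_min hex hm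
  set m := Nat.find hex with hm
  refine ⟨m, z, h0, hk, hocc, hC, ?_⟩
  intro i j hij hjm hz
  obtain ⟨r, hr⟩ : ∃ r, m = j + r := ⟨m - j, by omega⟩
  obtain ⟨s, hs⟩ : ∃ s, j = i + s := ⟨j - i, by omega⟩
  apply hmin (i + r) (by omega)
  refine ⟨fun l => if l < i then z l else z (l + s), ?_, ?_, ?_, ?_⟩
  · by_cases hi : 0 < i
    · simp only [if_pos hi]
      exact h0
    · simp only [if_neg hi]
      have hi0 : i = 0 := by omega
      rw [← h0]
      rw [hi0] at hz hs
      rw [hz, hs]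
  · have h1 : ¬ (i + r < i) := by omega
    simp only [if_neg h1]
    rw [← hk]
    congr 1
    omega
  · intro l hl
    simp only
    split_ifs with h1
    · exact hocc l (by omega)
    · exact hocc (l + s) (by omega)
  · rw [Finset.sum_range_add]
    have e1 : ∑ x ∈ Finset.range i, w (if x < i then z x else z (x + s))
        (if x + 1 < i then z (x + 1) else z (x + 1 + s)) =
        ∑ x ∈ Finset.range i, w (z x) (z (x + 1)) := by
      apply Finset.sum_congr rfl
      intro x hx
      rw [Finset.mem_range] at hx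
      rw [if_pos hx]
      by_cases h1 : x + 1 < i
      · rw [if_pos h1]
      · rw [if_neg h1]
        have h2 : x + 1 = i := by omega
        rw [h2, ← hs, hz]
    have e2 : ∑ x ∈ Finset.range r, w (if i + x < i then z (i + x) else z (i + x + s))
        (if i + x + 1 < i then z (i + x + 1) else z (i + x + 1 + s)) =
        ∑ x ∈ Finset.range r, w (z (j + x)) (z (j + x + 1)) := by
      apply Finset.sum_congr rfl
      intro x _
      rw [if_neg (by omega), if_neg (by omega)]
      congr 2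
      · omega
      · omega
    rw [e1, e2]
    have e3 : ∑ x ∈ Finset.range i, w (z x) (z (x + 1)) ≤
        ∑ x ∈ Finset.range j, w (z x) (z (x + 1)) := by
      apply Finset.sum_le_sum_of_subset_of_nonneg
      · intro x hx
        rw [Finset.mem_range] at hx ⊢
        omega
      · intro x _ _
        exact hw _ _
    have e4 : ∑ i ∈ Finset.range m, w (z i) (z (i + 1)) =
        ∑ x ∈ Finset.range j, w (z x) (z (x + 1)) +
          ∑ x ∈ Finset.range r, w (z (j + x)) (z (j + x + 1)) := by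
      rw [hr, Finset.sum_range_add]
    rw [e4] at hC
    linarith

theorem cell_step {d : ℕ} {α ε : ℝ} (hα : 1 ≤ α) (hε : 0 < ε) (u v : E d) :
    ε ^ α * max (‖cell ε v - cell ε u‖ - 1) 0 ≤ ‖u - v‖ ^ α := by
  have hα0 : 0 < α := by linarith
  have hb : ‖cell ε v - cell ε u‖ ≤ ‖u - v‖ / ε + 1 := by
    rw [pi_norm_le_iff_of_nonneg (by positivity)]
    intro i
    rw [Pi.sub_apply]
    have h1 : |u i - v i| ≤ ‖u - v‖ := by
      have := EuclideanSpace.norm_eq (u - v)
      have h2 := PiLp.norm_apply_le (u - v) i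
      rwa [PiLp.sub_apply, Real.norm_eq_abs] at h2
    have h3 : ‖cell ε v i - cell ε u i‖ = |((⌊v i / ε⌋ : ℤ) : ℝ) - (⌊u i / ε⌋ : ℤ)| := by
      rw [Int.norm_eq_abs]
      push_cast
      rfl
    rw [h3]
    have h4 := Int.floor_le (v i / ε)
    have h5 := Int.lt_floor_add_one (v i / ε)
    have h6 := Int.floor_le (u i / ε)
    have h7 := Int.lt_floor_add_one (u i / ε)
    have h8 : |u i - v i| / ε ≤ ‖u - v‖ / ε := div_le_div_of_nonneg_right h1 hε.le
    have h9 : |u i / ε - v i / ε| = |u i - v i| / ε := by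
      rw [← sub_div, abs_div, abs_of_pos hε]
    have h10 := abs_le.1 (le_of_eq h9)
    rw [abs_le]
    constructor
    · linarith [h10.1, h10.2]
    · linarith [h10.1, h10.2]
  by_cases hw : ‖cell ε v - cell ε u‖ ≤ 1
  · rw [max_eq_right (by linarith), mul_zero]
    positivity
  · push Not at hw
    have h2 : 2 ≤ ‖cell ε v - cell ε u‖ := by
      have h3 : ¬ ∀ i, ‖(cell ε v - cell ε u) i‖ ≤ 1 := by
        intro h
        rw [← pi_norm_le_iff_of_nonneg zero_le_one] at h
        linarith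
      push Not at h3
      obtain ⟨i, hi⟩ := h3
      refine le_trans ?_ (norm_le_pi_norm (cell ε v - cell ε u) i)
      rw [Int.norm_eq_abs] at hi ⊢
      have h4 : (1 : ℤ) < |(cell ε v - cell ε u) i| := by
        exact_mod_cast hi
      have h5 : (2 : ℤ) ≤ |(cell ε v - cell ε u) i| := by omega
      exact_mod_cast h5
    set n := ‖cell ε v - cell ε u‖ with hn
    rw [max_eq_left (by linarith)]
    have h3 : n - 1 ≤ (n - 1) ^ α := by
      have := Real.rpow_le_rpow_of_exponent_le (show 1 ≤ n - 1 by linarith) hα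
      rwa [Real.rpow_one] at this
    have h4 : (n - 1) ^ α ≤ (‖u - v‖ / ε) ^ α :=
      Real.rpow_le_rpow (by linarith) (by linarith) hα0.le
    have h5 : ε ^ α * (‖u - v‖ / ε) ^ α = ‖u - v‖ ^ α := by
      rw [← Real.mul_rpow hε.le (by positivity), mul_div_cancel₀ _ hε.ne']
    calc ε ^ α * (n - 1) ≤ ε ^ α * (‖u - v‖ / ε) ^ α := by
          apply mul_le_mul_of_nonneg_left (h3.trans h4) (by positivity)
      _ = _ := h5

theorem cell_chain {d : ℕ} {α ε : ℝ} (hα : 1 ≤ α) (hε : 0 < ε) (Q : Set (E d)) (k : ℕ)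
    (u : ℕ → E d) (hu : ∀ i ≤ k, u i ∈ Q) :
    ∃ (m : ℕ) (z : Fin (m + 1) → Z d), Function.Injective z ∧ z 0 = cell ε (u 0) ∧
      z (Fin.last m) = cell ε (u k) ∧ (∀ i, (Q ∩ cube ε (z i)).Nonempty) ∧
      ε ^ α * ∑ i : Fin m, max (‖z i.succ - z i.castSucc‖ - 1) 0 ≤
        ∑ i ∈ Finset.range k, ‖u i - u (i + 1)‖ ^ α := by
  obtain ⟨m, z, h1, h2, h3, h4, h5⟩ := loop_erase
    (fun a b : Z d => ε ^ α * max (‖b - a‖ - 1) 0)
    (fun a b => mul_nonneg (by positivity) (le_max_right _ _))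
    (fun z => (Q ∩ cube ε z).Nonempty) (cell ε (u 0)) (cell ε (u k))
    (∑ i ∈ Finset.range k, ‖u i - u (i + 1)‖ ^ α) k (fun i => cell ε (u i)) rfl rfl
    (fun i hi => ⟨u i, hu i hi, rfl⟩)
    (Finset.sum_le_sum fun i _ => cell_step hα hε (u i) (u (i + 1)))
  refine ⟨m, fun i => z i, ?_, h1, h2, fun i => h3 i (by omega), ?_⟩
  · intro i j hij
    by_contra hne
    rcases lt_or_gt_of_ne hne with h | h
    · exact h5 i j h (by omega) hij
    · exact h5 j i h (by omega) hij.symm
  · rw [Finset.mul_sum]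
    rw [← Fin.sum_univ_eq_sum_range
      (fun i => ε ^ α * max (‖z (i + 1) - z i‖ - 1) 0) m] at h4
    exact h4

end Pool.Agent.Work.MP_4035b7_pr
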