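import Pool.Agent.Work.MP_4035b7_pr.Defs

open MeasureTheory ProbabilityTheory Filter
open scoped ENNReal NNReal Topology

namespace Pool.Agent.Work.MP_4035b7_pr

theorem concaveOn_cost_aux {p X Y : ℝ} (hp : 1 < p) (hX : 0 ≤ X) (hY : 0 ≤ Y) :
    ConcaveOn ℝ (Set.Ioi (0 : ℝ)) (fun θ : ℝ => (θ ^ (1 / p) * X + Y) ^ p) := by
  have hp0 : 0 < p := by linarith
  have hder : ∀ θ : ℝ, 0 < θ → HasDerivAt (fun θ : ℝ => (θ ^ (1 / p) * X + Y) ^ p)
      (X * (X + Y * θ ^ (-(1 / p))) ^ (p - 1)) θ := by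
    intro θ hθ
    have h1 : HasDerivAt (fun θ : ℝ => θ ^ (1 / p) * X + Y) ((1 / p) * θ ^ (1 / p - 1) * X) θ :=
      ((Real.hasDerivAt_rpow_const (Or.inl hθ.ne')).mul_const X).add_const Y
    have h2 := h1.rpow_const (p := p) (Or.inr hp.le)
    convert h2 using 1
    have e1 : X + Y * θ ^ (-(1 / p)) = (θ ^ (1 / p) * X + Y) * θ ^ (-(1 / p)) := by
      have : θ ^ (1 / p) * θ ^ (-(1 / p)) = 1 := by
        rw [← Real.rpow_add hθ]; simp
      calc X + Y * θ ^ (-(1 / p)) = X * 1 + Y * θ ^ (-(1 / p)) := by ring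
        _ = X * (θ ^ (1 / p) * θ ^ (-(1 / p))) + Y * θ ^ (-(1 / p)) := by rw [this]
        _ = _ := by ring
    have e2 : (θ ^ (-(1 / p))) ^ (p - 1) = θ ^ (1 / p - 1) := by
      rw [← Real.rpow_mul hθ.le]
      congr 1
      field_simp
      ring
    rw [e1, Real.mul_rpow (by positivity) (by positivity), e2]
    field_simp
  refine AntitoneOn.concaveOn_of_deriv (convex_Ioi 0) ?_ ?_ ?_
  · intro θ hθ
    exact (hder θ hθ).continuousAt.continuousWithinAt
  · rw [interior_Ioi]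
    intro θ hθ
    exact (hder θ hθ).differentiableAt.differentiableWithinAt
  · rw [interior_Ioi]
    intro θ1 h1 θ2 h2 h12
    rw [(hder θ1 h1).deriv, (hder θ2 h2).deriv]
    have h1' : (0 : ℝ) < θ1 := h1
    have h2' : (0 : ℝ) < θ2 := h2
    refine mul_le_mul_of_nonneg_left ?_ hX
    refine Real.rpow_le_rpow (by positivity) ?_ (by linarith)
    have : θ2 ^ (-(1 / p)) ≤ θ1 ^ (-(1 / p)) :=
      Real.rpow_le_rpow_of_nonpos h1' h12 (by simp [hp0.le])
    nlinarith

theorem concaveOn_cost {α X Y : ℝ} (hα : 0 < α) (hX : 0 ≤ X) (hY : 0 ≤ Y) :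
    ConcaveOn ℝ (Set.Ioi (0 : ℝ)) (fun θ : ℝ => (θ ^ (rho α) * X + Y) ^ (α / 2)) := by
  rcases le_or_gt α 2 with h | h
  · have hρ : rho α = 1 := by
      unfold rho
      rw [min_eq_left]
      rw [le_div_iff₀ hα]
      linarith
    rw [hρ]
    have hc := Real.concaveOn_rpow (p := α / 2) (by positivity) (by linarith)
    refine ⟨convex_Ioi 0, ?_⟩
    intro a ha b hb s t hs ht hst
    have ha' : (0 : ℝ) < a := ha
    have hb' : (0 : ℝ) < b := hb
    have := hc.2 (show a * X + Y ∈ Set.Ici (0 : ℝ) by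
      simp only [Set.mem_Ici]; positivity) (show b * X + Y ∈ Set.Ici (0 : ℝ) by
      simp only [Set.mem_Ici]; positivity) hs ht hst
    simp only [Real.rpow_one, smul_eq_mul] at this ⊢
    refine this.trans (le_of_eq ?_)
    congr 1
    have : s * Y + t * Y = Y := by rw [← add_mul, hst, one_mul]
    linear_combination this
  · have hρ : rho α = 1 / (α / 2) := by
      unfold rho
      rw [min_eq_right]
      · field_simp
      · rw [div_le_one hα]
        linarith
    rw [hρ]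
    exact concaveOn_cost_aux (by linarith) hX hY

end Pool.Agent.Work.MP_4035b7_pr
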