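import Mathlib

/-!
# Euclidean first passage percolation: definitions

`E d` is the Euclidean space of dimension `d + 1`.
-/

open MeasureTheory ProbabilityTheory
open scoped ENNReal NNReal Topology

namespace Pool.Agent.Work.MP_4035b7_pr

/-- Euclidean space of dimension `d + 1`. -/
abbrev E (d : ℕ) := EuclideanSpace ℝ (Fin (d + 1))

/-- The first coordinate unit vector. -/
noncomputable def e1 (d : ℕ) : E d := EuclideanSpace.single 0 1

/-- `Q` is a homogeneous Poisson point process of intensity one: the numbers of points in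
pairwise disjoint Borel sets of finite volume are independent Poisson random variables with
means the volumes of the sets. -/
structure IsPoisson {d : ℕ} {Ω : Type*} [MeasurableSpace Ω] (P : Measure Ω)
    (Q : Ω → Set (E d)) : Prop where
  meas : ∀ B : Set (E d), MeasurableSet B → ∀ k : ℕ,
    MeasurableSet {ω | (Q ω ∩ B).encard = (k : ℕ∞)}
  law : ∀ (m : ℕ) (B : Fin m → Set (E d)) (k : Fin m → ℕ),
    (∀ i, MeasurableSet (B i)) → (∀ i, volume (B i) < ∞) →
    Pairwise (fun i j => Disjoint (B i) (B j)) →
    P {ω | ∀ i, (Q ω ∩ B i).encard = (k i : ℕ∞)} =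
      ∏ i, ENNReal.ofReal (Real.exp (-(volume (B i)).toReal) *
        (volume (B i)).toReal ^ (k i) / (k i).factorial)

/-- The particles of `Q` closest to `x`. -/
def near {d : ℕ} (Q : Set (E d)) (x : E d) : Set (E d) :=
  {q | q ∈ Q ∧ ∀ q' ∈ Q, ‖q - x‖ ≤ ‖q' - x‖}

open Classical in
/-- The particle `q(x)` of `Q` closest to `x` (a choice of one if there are several, and `0` if
there is none). -/
noncomputable def nr {d : ℕ} (Q : Set (E d)) (x : E d) : E d :=
  if h : (near Q x).Nonempty then h.some else 0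

/-- The passage time between two particles. -/
noncomputable def PT {d : ℕ} (α : ℝ) (Q : Set (E d)) (q q' : E d) : ℝ :=
  sInf {s : ℝ | ∃ (k : ℕ) (u : ℕ → E d), 1 ≤ k ∧ u 0 = q ∧ u k = q' ∧ (∀ i ≤ k, u i ∈ Q) ∧
    s = ∑ i ∈ Finset.range k, ‖u i - u (i + 1)‖ ^ α}

/-- The passage time `T(x, y) = T(q(x), q(y))`. -/
noncomputable def T {d : ℕ} (α : ℝ) (Q : Set (E d)) (x y : E d) : ℝ :=
  PT α Q (nr Q x) (nr Q y)

/-- `Q` is locally finite and has exactly one particle closest to `x`. -/
def Good {d : ℕ} (Q : Set (E d)) (x : E d) : Prop :=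
  (∀ R : ℝ, (Q ∩ Metric.closedBall 0 R).Finite) ∧ ∃ p, near Q x = {p}

/-- The linear map multiplying the first coordinate by `a` and all other coordinates by `b`. -/
noncomputable def stretch {d : ℕ} (a b : ℝ) (v : E d) : E d :=
  WithLp.toLp 2 (fun i => if i = 0 then a * v i else b * v i)

/-- The exponent `min 1 (2 / α)`. -/
noncomputable def rho (α : ℝ) : ℝ := min 1 (2 / α)

/-- Stretching factor of the first coordinate. -/
noncomputable def fa (d : ℕ) (α θ : ℝ) : ℝ := θ ^ (rho α * d / (2 * (d + 1)))

/-- Stretching factor of the other coordinates. -/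
noncomputable def fb (d : ℕ) (α θ : ℝ) : ℝ := θ ^ (-(rho α / (2 * (d + 1))))

/-- The volume preserving linear map `diag(a, b, ..., b)`. -/
noncomputable def A {d : ℕ} (α θ : ℝ) : E d → E d := stretch (fa d α θ) (fb d α θ)

/-- Index set of the lattice cells. -/
abbrev Z (d : ℕ) := Fin (d + 1) → ℤ

/-- The cell containing `u`. -/
noncomputable def cell {d : ℕ} (ε : ℝ) (u : E d) : Z d := fun i => ⌊u i / ε⌋

/-- The half open cube with side `ε` and index `z`. -/
def cube {d : ℕ} (ε : ℝ) (z : Z d) : Set (E d) := {u | cell ε u = z}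

end Pool.Agent.Work.MP_4035b7_pr
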