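import Pool.Agent.Work.MP_4035b7_pr.Defs

open MeasureTheory ProbabilityTheory Filter
open scoped ENNReal NNReal Topology

namespace Pool.Agent.Work.MP_4035b7_pr

section Geo
variable {d : ℕ} {α : ℝ} {Q : Set (E d)}

theorem near_nr {x : E d} (h : Good Q x) : nr Q x ∈ near Q x := by
  obtain ⟨-, p, hp⟩ := h
  have hne : (near Q x).Nonempty := by rw [hp]; exact ⟨p, rfl⟩
  unfold nr
  rw [dif_pos hne]
  exact hne.some_mem

theorem eq_nr {x p : E d} (h : Good Q x) (hp : p ∈ near Q x) : p = nr Q x := by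
  have h1 := near_nr h
  obtain ⟨-, p', hp'⟩ := h
  rw [hp'] at h1 hp
  exact hp.trans h1.symm

/-- The set of costs of chains. -/
def costs (α : ℝ) (Q : Set (E d)) (q q' : E d) : Set ℝ :=
  {s : ℝ | ∃ (k : ℕ) (u : ℕ → E d), 1 ≤ k ∧ u 0 = q ∧ u k = q' ∧ (∀ i ≤ k, u i ∈ Q) ∧
    s = ∑ i ∈ Finset.range k, ‖u i - u (i + 1)‖ ^ α}

theorem PT_def (q q' : E d) : PT α Q q q' = sInf (costs α Q q q') := rfl

theorem costs_nonneg {q q' : E d} {s : ℝ} (hs : s ∈ costs α Q q q') : 0 ≤ s := by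
  obtain ⟨k, u, -, -, -, -, rfl⟩ := hs
  exact Finset.sum_nonneg fun i _ => Real.rpow_nonneg (norm_nonneg _) _

theorem costs_bddBelow (q q' : E d) : BddBelow (costs α Q q q') :=
  ⟨0, fun _ hs => costs_nonneg hs⟩

theorem PT_nonneg (q q' : E d) : 0 ≤ PT α Q q q' :=
  Real.sInf_nonneg fun _ hs => costs_nonneg hs

theorem T_nonneg (x y : E d) : 0 ≤ T α Q x y := PT_nonneg _ _

theorem PT_le_sum {k : ℕ} (hk : 1 ≤ k) (u : ℕ → E d) (hu : ∀ i ≤ k, u i ∈ Q) :
    PT α Q (u 0) (u k) ≤ ∑ i ∈ Finset.range k, ‖u i - u (i + 1)‖ ^ α :=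
  csInf_le (costs_bddBelow _ _) ⟨k, u, hk, rfl, rfl, hu, rfl⟩

theorem mem_costs_one {p q : E d} (hp : p ∈ Q) (hq : q ∈ Q) : ‖p - q‖ ^ α ∈ costs α Q p q := by
  refine ⟨1, fun i => if i = 0 then p else q, le_refl _, by simp, by simp, ?_, by simp⟩
  intro i _
  by_cases h : i = 0
  · simp [h, hp]
  · simp [h, hq]

theorem PT_le_rpow {p q : E d} (hp : p ∈ Q) (hq : q ∈ Q) : PT α Q p q ≤ ‖p - q‖ ^ α :=
  csInf_le (costs_bddBelow _ _) (mem_costs_one hp hq)

/-- Concatenation of chains. -/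
theorem costs_add {p q r : E d} {s t : ℝ} (hs : s ∈ costs α Q p q) (ht : t ∈ costs α Q q r) :
    s + t ∈ costs α Q p r := by
  obtain ⟨k, u, hk, hu0, huk, huQ, rfl⟩ := hs
  obtain ⟨l, v, hl, hv0, hvl, hvQ, rfl⟩ := ht
  refine ⟨k + l, fun i => if i ≤ k then u i else v (i - k), by omega, by simp [hu0], ?_, ?_, ?_⟩
  · have : ¬ (k + l ≤ k) := by omega
    simp only [this, if_false]
    rw [show k + l - k = l by omega, hvl]
  · intro i hi
    by_cases h : i ≤ k
    · simp only [h, if_true]; exact huQ i h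
    · simp only [h, if_false]; exact hvQ _ (by omega)
  · rw [Finset.sum_range_add]
    congr 1
    · refine Finset.sum_congr rfl fun i hi => ?_
      rw [Finset.mem_range] at hi
      have h1 : i ≤ k := by omega
      have h2 : i + 1 ≤ k := by omega
      simp only [h1, h2, if_true]
    · refine Finset.sum_congr rfl fun i hi => ?_
      rw [Finset.mem_range] at hi
      have h2 : ¬ (k + i + 1 ≤ k) := by omega
      simp only [h2, if_false]
      by_cases h1 : i = 0
      · subst h1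
        simp only [add_zero, le_refl, if_true]
        rw [huk, ← hv0, show k + 1 - k = 0 + 1 by omega]
      · have h3 : ¬ (k + i ≤ k) := by omega
        simp only [h3, if_false]
        rw [show k + i - k = i by omega, show k + i + 1 - k = i + 1 by omega]

theorem PT_triangle {p q r : E d} (hp : p ∈ Q) (hq : q ∈ Q) (hr : r ∈ Q) :
    PT α Q p r ≤ PT α Q p q + PT α Q q r := by
  have h1 : (costs α Q p q).Nonempty := ⟨_, mem_costs_one hp hq⟩
  have h2 : (costs α Q q r).Nonempty := ⟨_, mem_costs_one hq hr⟩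
  refine le_of_forall_pos_le_add fun ε hε => ?_
  obtain ⟨s, hs, hs'⟩ := exists_lt_of_csInf_lt h1
    (show sInf (costs α Q p q) < PT α Q p q + ε / 2 by rw [← PT_def]; linarith)
  obtain ⟨t, ht, ht'⟩ := exists_lt_of_csInf_lt h2
    (show sInf (costs α Q q r) < PT α Q q r + ε / 2 by rw [← PT_def]; linarith)
  have h3 : PT α Q p r ≤ s + t := csInf_le (costs_bddBelow _ _) (costs_add hs ht)
  linarith

/-- A lower bound for all chains is a lower bound for the passage time. -/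
theorem le_PT {p q : E d} (hp : p ∈ Q) (hq : q ∈ Q) {c : ℝ}
    (h : ∀ (k : ℕ) (u : ℕ → E d), 1 ≤ k → u 0 = p → u k = q → (∀ i ≤ k, u i ∈ Q) →
      c ≤ ∑ i ∈ Finset.range k, ‖u i - u (i + 1)‖ ^ α) : c ≤ PT α Q p q := by
  refine le_csInf (s := costs α Q p q) ⟨_, mem_costs_one hp hq⟩ ?_
  rintro s ⟨k, u, hk, hu0, huk, huQ, rfl⟩
  exact h k u hk hu0 huk huQ

theorem near_translate (Q : Set (E d)) (x a : E d) :
    near ((fun v => v + a) '' Q) (x + a) = (fun v => v + a) '' near Q x := by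
  ext q
  constructor
  · rintro ⟨⟨p, hp, rfl⟩, h⟩
    refine ⟨p, ⟨hp, fun q' hq' => ?_⟩, rfl⟩
    have := h (q' + a) ⟨q', hq', rfl⟩
    simpa using this
  · rintro ⟨p, ⟨hp, h⟩, rfl⟩
    refine ⟨⟨p, hp, rfl⟩, ?_⟩
    rintro _ ⟨q', hq', rfl⟩
    have := h q' hq'
    simpa using this

theorem good_translate {x : E d} (h : Good Q x) (a : E d) :
    Good ((fun v => v + a) '' Q) (x + a) := by
  obtain ⟨hf, p, hp⟩ := h
  refine ⟨fun R => ?_, p + a, ?_⟩
  · refine ((hf (R + ‖a‖)).image (fun v => v + a)).subset ?_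
    rintro _ ⟨⟨v, hv, rfl⟩, hR⟩
    refine ⟨v, ⟨hv, ?_⟩, rfl⟩
    rw [mem_closedBall_zero_iff] at hR ⊢
    have : ‖v‖ ≤ ‖v + a‖ + ‖a‖ := by
      calc ‖v‖ = ‖(v + a) - a‖ := by rw [add_sub_cancel_right]
        _ ≤ _ := norm_sub_le _ _
    linarith
  · rw [near_translate, hp, Set.image_singleton]

theorem PT_translate (p q a : E d) :
    PT α ((fun v => v + a) '' Q) (p + a) (q + a) = PT α Q p q := by
  rw [PT_def, PT_def]
  congr 1
  ext s
  constructor
  · rintro ⟨k, u, hk, hu0, huk, huQ, rfl⟩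
    refine ⟨k, fun i => u i - a, hk, by simp [hu0], by simp [huk], fun i hi => ?_, ?_⟩
    · obtain ⟨v, hv, hv'⟩ := huQ i hi
      have : u i - a = v := by rw [← hv']; simp
      show u i - a ∈ Q
      rw [this]; exact hv
    · exact Finset.sum_congr rfl fun i _ => by simp
  · rintro ⟨k, u, hk, hu0, huk, huQ, rfl⟩
    refine ⟨k, fun i => u i + a, hk, by simp [hu0], by simp [huk], fun i hi => ⟨_, huQ i hi, rfl⟩, ?_⟩
    exact Finset.sum_congr rfl fun i _ => by simp

theorem T_translate {x y : E d} (hx : Good Q x) (hy : Good Q y) (a : E d) :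
    T α ((fun v => v + a) '' Q) (x + a) (y + a) = T α Q x y := by
  have h1 : nr ((fun v => v + a) '' Q) (x + a) = nr Q x + a := by
    symm
    apply eq_nr (good_translate hx a)
    rw [near_translate]
    exact ⟨_, near_nr hx, rfl⟩
  have h2 : nr ((fun v => v + a) '' Q) (y + a) = nr Q y + a := by
    symm
    apply eq_nr (good_translate hy a)
    rw [near_translate]
    exact ⟨_, near_nr hy, rfl⟩
  unfold T
  rw [h1, h2, PT_translate]

end Geo

end Pool.Agent.Work.MP_4035b7_pr
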