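import Pool.Agent.Work.MP_4035b7_pr.Defs
import Pool.Agent.Work.MP_4035b7_pr.Geo

open MeasureTheory ProbabilityTheory Filter
open scoped ENNReal NNReal Topology

namespace Pool.Agent.Work.MP_4035b7_pr

namespace Desc

variable {d : ℕ}

/-- Countable family of balls. -/
noncomputable def U (j : ℕ × ℕ) : Set (E d) :=
  Metric.ball (TopologicalSpace.denseSeq (E d) j.1) (1 / ((j.2 : ℝ) + 1))

/-- The part of a closed ball around `x` outside of the ball `U j`. -/
noncomputable def V (x : E d) (j : ℕ × ℕ) : Set (E d) :=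
  Metric.closedBall x (dist (TopologicalSpace.denseSeq (E d) j.1) x + 1 / ((j.2 : ℝ) + 1)) \ U j

/-- The family of all sets used. -/
noncomputable def C (x y : E d) (n : ℕ) : Set (E d) :=
  if n.unpair.1 = 0 then U n.unpair.2.unpair
  else if n.unpair.1 = 1 then V x n.unpair.2.unpair else V y n.unpair.2.unpair

/-- code of an index -/
def code (i : ℕ) (j : ℕ × ℕ) : ℕ := Nat.pair i (Nat.pair j.1 j.2)

theorem C_code0 (x y : E d) (j : ℕ × ℕ) : C x y (code 0 j) = U j := by
  simp [C, code]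

theorem C_code1 (x y : E d) (j : ℕ × ℕ) : C x y (code 1 j) = V x j := by
  simp [C, code]

theorem C_code2 (x y : E d) (j : ℕ × ℕ) : C x y (code 2 j) = V y j := by
  simp [C, code]

theorem measurableSet_U (j : ℕ × ℕ) : MeasurableSet (U (d := d) j) := Metric.isOpen_ball.measurableSet

theorem measurableSet_V (x : E d) (j : ℕ × ℕ) : MeasurableSet (V x j) :=
  Metric.isClosed_closedBall.measurableSet.diff (measurableSet_U j)

theorem measurableSet_C (x y : E d) (n : ℕ) : MeasurableSet (C x y n) := by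
  unfold C
  split_ifs
  · exact measurableSet_U _
  · exact measurableSet_V _ _
  · exact measurableSet_V _ _

theorem volume_U (j : ℕ × ℕ) : volume (U (d := d) j) < ∞ := measure_ball_lt_top

theorem volume_V (x : E d) (j : ℕ × ℕ) : volume (V x j) < ∞ :=
  lt_of_le_of_lt (measure_mono Set.sdiff_subset) measure_closedBall_lt_top

theorem volume_C (x y : E d) (n : ℕ) : volume (C x y n) < ∞ := by
  unfold C
  split_ifs
  · exact volume_U _
  · exact volume_V _ _
  · exact volume_V _ _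

/-- Finite data: a number `k` of steps minus one, and the indices of the balls. -/
abbrev Data := Σ k : ℕ, (Fin (k + 2) → ℕ × ℕ)

instance : Countable Data := inferInstance

/-- The event belonging to the data. -/
def Ev (D : Data) : Set (ℕ → ℕ) :=
  {n | (∀ i, n (code 0 (D.2 i)) ≠ 0) ∧ n (code 0 (D.2 0)) = 1 ∧ n (code 1 (D.2 0)) = 0 ∧
    n (code 0 (D.2 (Fin.last _))) = 1 ∧ n (code 2 (D.2 (Fin.last _))) = 0}

theorem measurableSet_coord (i : ℕ) (S : Set ℕ) : MeasurableSet {n : ℕ → ℕ | n i ∈ S} :=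
  measurable_pi_apply i (MeasurableSet.of_discrete)

theorem measurableSet_Ev (D : Data) : MeasurableSet (Ev D) := by
  have h : Ev D = (⋂ i, {n : ℕ → ℕ | n (code 0 (D.2 i)) ∈ ({0}ᶜ : Set ℕ)}) ∩
      ({n : ℕ → ℕ | n (code 0 (D.2 0)) ∈ ({1} : Set ℕ)} ∩
      ({n : ℕ → ℕ | n (code 1 (D.2 0)) ∈ ({0} : Set ℕ)} ∩
      ({n : ℕ → ℕ | n (code 0 (D.2 (Fin.last _))) ∈ ({1} : Set ℕ)} ∩
      {n : ℕ → ℕ | n (code 2 (D.2 (Fin.last _))) ∈ ({0} : Set ℕ)}))) := by
    ext n
    simp [Ev]
  rw [h]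
  exact (MeasurableSet.iInter fun _ => measurableSet_coord _ _).inter
    ((measurableSet_coord _ _).inter ((measurableSet_coord _ _).inter
    ((measurableSet_coord _ _).inter (measurableSet_coord _ _))))

/-- The cost of a chain. -/
noncomputable def cost (α : ℝ) (k : ℕ) (v : Fin (k + 2) → E d) : ℝ :=
  ∑ i : Fin (k + 1), ‖v i.castSucc - v i.succ‖ ^ α

theorem continuous_cost {α : ℝ} (hα : 0 < α) (k : ℕ) :
    Continuous (cost (d := d) α k) := by
  unfold cost
  refine continuous_finsetSum _ fun i _ => ?_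
  refine Continuous.rpow_const ?_ (fun v => Or.inr hα.le)
  fun_prop

theorem cost_nonneg (α : ℝ) (k : ℕ) (v : Fin (k + 2) → E d) : 0 ≤ cost α k v :=
  Finset.sum_nonneg fun i _ => Real.rpow_nonneg (norm_nonneg _) _

/-- Supremum of the costs of all chains through the balls. -/
noncomputable def supCost (d : ℕ) (α : ℝ) (D : Data) : ℝ≥0∞ :=
  ⨆ (v : Fin (D.1 + 2) → E d) (_ : ∀ i, v i ∈ U (D.2 i)), ENNReal.ofReal (cost α D.1 v)

open Classical in
/-- The functional. -/
noncomputable def Fe (d : ℕ) (α : ℝ) (n : ℕ → ℕ) : ℝ≥0∞ :=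
  ⨅ D : Data, if n ∈ Ev D then supCost d α D else ∞

theorem measurable_Fe (d : ℕ) (α : ℝ) : Measurable (Fe d α) := by
  unfold Fe
  refine Measurable.iInf fun D => ?_
  exact Measurable.ite (measurableSet_Ev D) measurable_const measurable_const

/-- finiteness of the intersection with bounded sets -/
theorem finite_inter {Q : Set (E d)} (hQ : ∀ R : ℝ, (Q ∩ Metric.closedBall 0 R).Finite)
    (x : E d) (R : ℝ) {S : Set (E d)} (hS : S ⊆ Metric.closedBall x R) : (Q ∩ S).Finite := by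
  refine (hQ (R + ‖x‖)).subset ?_
  rintro q ⟨hq, hqS⟩
  refine ⟨hq, ?_⟩
  have := hS hqS
  rw [Metric.mem_closedBall, dist_eq_norm] at this
  rw [mem_closedBall_zero_iff]
  have h2 : ‖q‖ ≤ ‖q - x‖ + ‖x‖ := by
    calc ‖q‖ = ‖(q - x) + x‖ := by rw [sub_add_cancel]
      _ ≤ _ := norm_add_le _ _
  linarith

/-- If `Q` has exactly one particle in `U j` and none in `V x j` then this particle is the nearest
to `x`. -/
theorem nr_eq {Q : Set (E d)} {x : E d} (hg : Good Q x) {j : ℕ × ℕ}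
    (h1 : (Q ∩ U j).ncard = 1) (h0 : (Q ∩ V x j).ncard = 0) {q : E d} (hq : q ∈ Q ∩ U j) :
    nr Q x = q := by
  obtain ⟨a, ha⟩ := Set.ncard_eq_one.mp h1
  have hfin : (Q ∩ V x j).Finite := finite_inter hg.1 x _ Set.sdiff_subset
  rw [Set.ncard_eq_zero hfin] at h0
  have hn := near_nr hg
  have hqx := hn.2 q hq.1
  have hqa : q = a := by
    have := hq
    rw [ha] at this
    exact this
  have hmem : nr Q x ∈ Q ∩ U j := by
    refine ⟨hn.1, ?_⟩
    by_contra hcon
    have : nr Q x ∈ Q ∩ V x j := by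
      refine ⟨hn.1, ?_, hcon⟩
      rw [Metric.mem_closedBall, dist_eq_norm]
      refine hqx.trans ?_
      have h2 : dist q (TopologicalSpace.denseSeq (E d) j.1) < 1 / ((j.2 : ℝ) + 1) := hq.2
      rw [← dist_eq_norm]
      have h3 := dist_triangle q (TopologicalSpace.denseSeq (E d) j.1) x
      linarith
    rw [h0] at this
    exact this
  rw [ha] at hmem
  rw [hqa]
  exact hmem

/-- Isolation of the nearest particle. -/
theorem exists_isolation {Q : Set (E d)} {x p : E d} (hg : Good Q x) (hp : p ∈ near Q x) :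
    ∃ ε : ℝ, 0 < ε ∧ ∀ q ∈ Q, ‖q - x‖ ≤ ‖p - x‖ + ε → q = p := by
  have hfin : (Q ∩ Metric.closedBall x (‖p - x‖ + 1)).Finite :=
    finite_inter hg.1 x _ subset_rfl
  have hev : ∀ᶠ ε : ℝ in 𝓝[>] 0, ∀ q ∈ Q ∩ Metric.closedBall x (‖p - x‖ + 1), q ≠ p →
      ‖p - x‖ + ε < ‖q - x‖ := by
    rw [Filter.eventually_all_finite hfin]
    intro q hq
    by_cases hqp : q = p
    · simp [hqp]
    · have hlt : ‖p - x‖ < ‖q - x‖ := by
        by_contra hcon
        push Not at hcon
        apply hqp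
        have hqn : q ∈ near Q x := ⟨hq.1, fun q' hq' => hcon.trans (hp.2 q' hq')⟩
        rw [eq_nr hg hqn, eq_nr hg hp]
      have : ∀ᶠ ε : ℝ in 𝓝[>] 0, ε < ‖q - x‖ - ‖p - x‖ := by
        apply mem_nhdsWithin_of_mem_nhds
        exact Iio_mem_nhds (by linarith)
      filter_upwards [this] with ε hε _
      linarith
  have hev2 : ∀ᶠ ε : ℝ in 𝓝[>] 0, ε < 1 := mem_nhdsWithin_of_mem_nhds (Iio_mem_nhds one_pos)
  obtain ⟨ε, ⟨h1, h2⟩, h3⟩ := ((hev.and hev2).and self_mem_nhdsWithin).exists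
  refine ⟨ε, h3, fun q hq hle => ?_⟩
  by_contra hqp
  have := h1 q ⟨hq, by rw [Metric.mem_closedBall, dist_eq_norm]; linarith⟩ hqp
  linarith

/-- Existence of small balls of the family around a point. -/
theorem exists_U {ε : ℝ} (hε : 0 < ε) (p : E d) :
    ∃ j : ℕ × ℕ, p ∈ U j ∧ 2 * (1 / ((j.2 : ℝ) + 1)) < ε := by
  obtain ⟨k, hk⟩ := exists_nat_one_div_lt (half_pos hε)
  obtain ⟨i, hi⟩ := (TopologicalSpace.denseRange_denseSeq (E d)).exists_dist_lt p
    (show 0 < 1 / ((k : ℝ) + 1) by positivity)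
  exact ⟨(i, k), hi, by linarith⟩

theorem U_subset {ε : ℝ} {j : ℕ × ℕ} {p : E d} (hp : p ∈ U j)
    (hj : 2 * (1 / ((j.2 : ℝ) + 1)) < ε) {v : E d} (hv : v ∈ U j) : dist v p < ε := by
  have h1 : dist p (TopologicalSpace.denseSeq (E d) j.1) < 1 / ((j.2 : ℝ) + 1) := hp
  have h2 : dist v (TopologicalSpace.denseSeq (E d) j.1) < 1 / ((j.2 : ℝ) + 1) := hv
  have h3 := dist_triangle_right v p (TopologicalSpace.denseSeq (E d) j.1)
  linarith

/-- Counting conditions at the nearest particle. -/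
theorem counts_of_isolation {Q : Set (E d)} {x p : E d} (hp : p ∈ near Q x) {ε : ℝ}
    (hε : ∀ q ∈ Q, ‖q - x‖ ≤ ‖p - x‖ + ε → q = p) {j : ℕ × ℕ} (hpj : p ∈ U j)
    (hj : 2 * (1 / ((j.2 : ℝ) + 1)) < ε) :
    (Q ∩ U j).ncard = 1 ∧ (Q ∩ V x j).ncard = 0 := by
  have h1 : dist p (TopologicalSpace.denseSeq (E d) j.1) < 1 / ((j.2 : ℝ) + 1) := hpj
  have hcl : ∀ q ∈ Q, dist q x ≤ dist (TopologicalSpace.denseSeq (E d) j.1) x +
      1 / ((j.2 : ℝ) + 1) → q = p := by
    intro q hq hle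
    apply hε q hq
    rw [← dist_eq_norm, ← dist_eq_norm]
    have h3 := dist_triangle_left (TopologicalSpace.denseSeq (E d) j.1) x p
    linarith
  constructor
  · rw [Set.ncard_eq_one]
    refine ⟨p, ?_⟩
    ext q
    constructor
    · rintro ⟨hq, hqU⟩
      apply hcl q hq
      have h2 : dist q (TopologicalSpace.denseSeq (E d) j.1) < 1 / ((j.2 : ℝ) + 1) := hqU
      have h3 := dist_triangle q (TopologicalSpace.denseSeq (E d) j.1) x
      linarith
    · rintro rfl
      exact ⟨hp.1, hpj⟩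
  · have : Q ∩ V x j = ∅ := by
      ext q
      simp only [Set.mem_empty_iff_false, iff_false]
      rintro ⟨hq, hqV, hqU⟩
      have := hcl q hq hqV
      rw [this] at hqU
      exact hqU hpj
    rw [this]
    simp

theorem T_le_of_Ev {α : ℝ} {x y : E d} {Q : Set (E d)} (hx : Good Q x) (hy : Good Q y)
    {D : Data} (hD : (fun i => (Q ∩ C x y i).ncard) ∈ Ev D) :
    ENNReal.ofReal (T α Q x y) ≤ supCost d α D := by
  obtain ⟨h1, h2, h3, h4, h5⟩ := hD
  simp only [C_code0, C_code1, C_code2] at h1 h2 h3 h4 h5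
  have hne : ∀ i, (Q ∩ U (D.2 i)).Nonempty := fun i => Set.nonempty_of_ncard_ne_zero (h1 i)
  choose v hv using hne
  have hx' := nr_eq hx h2 h3 (hv 0)
  have hy' := nr_eq hy h4 h5 (hv (Fin.last _))
  have hle : T α Q x y ≤ cost α D.1 v := by
    unfold T
    rw [hx', hy']
    refine csInf_le (costs_bddBelow _ _) ?_
    refine ⟨D.1 + 1, fun i => if h : i < D.1 + 2 then v ⟨i, h⟩ else 0, by omega, ?_, ?_, ?_, ?_⟩
    · simp
    · have : D.1 + 1 < D.1 + 2 := by omega
      simp only [this, dif_pos]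
      rfl
    · intro i hi
      have : i < D.1 + 2 := by omega
      simp only [this, dif_pos]
      exact (hv _).1
    · unfold cost
      rw [Finset.sum_range]
      refine Finset.sum_congr rfl fun i _ => ?_
      have h1 : (i : ℕ) < D.1 + 2 := by omega
      have h2 : (i : ℕ) + 1 < D.1 + 2 := by omega
      simp only [h1, h2, dif_pos]
      rfl
  refine (ENNReal.ofReal_le_ofReal hle).trans ?_
  exact le_iSup₂_of_le v (fun i => (hv i).2) le_rfl

theorem exists_data {α : ℝ} (hα : 0 < α) {x y : E d} {Q : Set (E d)} (hx : Good Q x)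
    (hy : Good Q y) {t : ℝ} (ht : T α Q x y < t) :
    ∃ D : Data, (fun i => (Q ∩ C x y i).ncard) ∈ Ev D ∧ supCost d α D ≤ ENNReal.ofReal t := by
  have hxn := near_nr hx
  have hyn := near_nr hy
  obtain ⟨s, ⟨k, u, hk, hu0, huk, huQ, rfl⟩, hst⟩ := exists_lt_of_csInf_lt
    (⟨_, mem_costs_one hxn.1 hyn.1⟩ : (costs α Q (nr Q x) (nr Q y)).Nonempty) ht
  obtain ⟨k, rfl⟩ : ∃ k', k = k' + 1 := ⟨k - 1, by omega⟩
  set v : Fin (k + 2) → E d := fun i => u i with hv
  have hcost : cost α k v < t := by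
    unfold cost
    rw [Finset.sum_range] at hst
    simpa [hv] using hst
  have hopen : IsOpen {w : Fin (k + 2) → E d | cost α k w < t} :=
    isOpen_lt (continuous_cost hα k) continuous_const
  obtain ⟨δ, hδ, hδ'⟩ := Metric.isOpen_iff.mp hopen v hcost
  obtain ⟨ε1, hε1, hε1'⟩ := exists_isolation hx hxn
  obtain ⟨ε2, hε2, hε2'⟩ := exists_isolation hy hyn
  have hε : 0 < min δ (min ε1 ε2) := lt_min hδ (lt_min hε1 hε2)
  have hex : ∀ i : Fin (k + 2), ∃ j : ℕ × ℕ, v i ∈ U j ∧
      2 * (1 / ((j.2 : ℝ) + 1)) < min δ (min ε1 ε2) := fun i => exists_U hε (v i)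
  choose J hJ1 hJ2 using hex
  have hv0 : v 0 = nr Q x := by simp [hv, hu0]
  have hvl : v (Fin.last _) = nr Q y := by simp [hv, huk]
  refine ⟨⟨k, J⟩, ?_, ?_⟩
  · have hc0 := counts_of_isolation (j := J 0) hxn hε1' (by rw [← hv0]; exact hJ1 0)
      (lt_of_lt_of_le (hJ2 0) ((min_le_right _ _).trans (min_le_left _ _)))
    have hc1 := counts_of_isolation (j := J (Fin.last _)) hyn hε2'
      (by rw [← hvl]; exact hJ1 _)
      (lt_of_lt_of_le (hJ2 _) ((min_le_right _ _).trans (min_le_right _ _)))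
    refine ⟨fun i => ?_, ?_, ?_, ?_, ?_⟩
    · simp only [C_code0]
      have hfin : (Q ∩ U (J i)).Finite := finite_inter hx.1 _ _ Metric.ball_subset_closedBall
      have hne : (Q ∩ U (J i)).Nonempty := ⟨v i, huQ i (Nat.le_of_lt_succ i.isLt), hJ1 i⟩
      exact (Set.ncard_pos hfin).mpr hne |>.ne'
    · simp only [C_code0]
      exact hc0.1
    · simp only [C_code1]
      exact hc0.2
    · simp only [C_code0]
      exact hc1.1
    · simp only [C_code2]
      exact hc1.2
  · unfold supCost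
    refine iSup₂_le fun w hw => ?_
    apply ENNReal.ofReal_le_ofReal
    have : w ∈ Metric.ball v δ := by
      rw [Metric.mem_ball, dist_pi_lt_iff hδ]
      intro i
      exact U_subset (hJ1 i) (lt_of_lt_of_le (hJ2 i) (min_le_left _ _)) (hw i)
    exact le_of_lt (hδ' this)

end Desc

theorem exists_description {d : ℕ} {α : ℝ} (hα : 0 < α) (x y : E d) :
    ∃ (C : ℕ → Set (E d)) (F : (ℕ → ℕ) → ℝ), (∀ i, MeasurableSet (C i)) ∧
      (∀ i, volume (C i) < ∞) ∧ Measurable F ∧
      ∀ Q : Set (E d), Good Q x → Good Q y → T α Q x y = F (fun i => (Q ∩ C i).ncard) := by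
  refine ⟨Desc.C x y, fun n => (Desc.Fe d α n).toReal, Desc.measurableSet_C x y,
    Desc.volume_C x y, (Desc.measurable_Fe d α).ennreal_toReal, ?_⟩
  intro Q hx hy
  have hT : 0 ≤ T α Q x y := T_nonneg x y
  have h : Desc.Fe d α (fun i => (Q ∩ Desc.C x y i).ncard) = ENNReal.ofReal (T α Q x y) := by
    apply le_antisymm
    · refine ENNReal.le_of_forall_pos_le_add fun ε hε _ => ?_
      obtain ⟨D, hD1, hD2⟩ := Desc.exists_data hα hx hy
        (show T α Q x y < T α Q x y + ε by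
          have : (0 : ℝ) < ε := hε
          linarith)
      calc Desc.Fe d α (fun i => (Q ∩ Desc.C x y i).ncard) ≤ Desc.supCost d α D := by
            unfold Desc.Fe
            refine (iInf_le _ D).trans ?_
            rw [if_pos hD1]
        _ ≤ ENNReal.ofReal (T α Q x y + ε) := hD2
        _ = ENNReal.ofReal (T α Q x y) + ε := by
            rw [ENNReal.ofReal_add hT (NNReal.coe_nonneg ε), ENNReal.ofReal_coe_nnreal]
    · unfold Desc.Fe
      refine le_iInf fun D => ?_
      split_ifs with hD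
      · exact Desc.T_le_of_Ev hx hy hD
      · exact le_top
  show T α Q x y = (Desc.Fe d α (fun i => (Q ∩ Desc.C x y i).ncard)).toReal
  rw [h, ENNReal.toReal_ofReal hT]

end Pool.Agent.Work.MP_4035b7_pr
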