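import Pool.Agent.Work.MP_4035b7_pr.Defs
import Pool.Agent.Work.MP_4035b7_pr.Geo

open MeasureTheory ProbabilityTheory Filter
open scoped ENNReal NNReal Topology

namespace Pool.Agent.Work.MP_4035b7_pr

theorem norm_E0 (v : E 0) : ‖v‖ = |v 0| := by
  rw [EuclideanSpace.norm_eq]
  simp [Real.sqrt_sq_eq_abs]

theorem ext_E0 {v w : E 0} (h : v 0 = w 0) : v = w := by
  ext i
  have : i = 0 := by
    ext
    have := i.isLt
    simp only [Fin.val_zero]
    omega
  subst this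
  exact h

theorem near_E0_iff {Q : Set (E 0)} {x : ℝ} {p : E 0} :
    p ∈ near Q (x • e1 0) ↔ p ∈ Q ∧ ∀ q ∈ Q, |p 0 - x| ≤ |q 0 - x| := by
  have key : ∀ q : E 0, ‖q - x • e1 0‖ = |q 0 - x| := by
    intro q
    rw [norm_E0]
    simp [e1]
  show (p ∈ Q ∧ ∀ q' ∈ Q, ‖p - x • e1 0‖ ≤ ‖q' - x • e1 0‖) ↔ _
  simp only [key]

theorem nr_mono {Q : Set (E 0)} {x y : ℝ} (hxy : x ≤ y) (gx : Good Q (x • e1 0))
    (gy : Good Q (y • e1 0)) : (nr Q (x • e1 0)) 0 ≤ (nr Q (y • e1 0)) 0 := by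
  by_contra hlt
  push Not at hlt
  have hp := near_nr gx
  have hq := near_nr gy
  set p := nr Q (x • e1 0) with hpdef
  set q := nr Q (y • e1 0) with hqdef
  rw [near_E0_iff] at hp hq
  have h1 := hp.2 q hq.1
  have h2 := hq.2 p hp.1
  -- x ≥ midpoint, y ≤ midpoint
  have h3 : p 0 + q 0 ≤ 2 * x := by
    have h := sq_le_sq' (by linarith [abs_nonneg (p 0 - x), abs_nonneg (q 0 - x)]) h1
    rw [sq_abs, sq_abs] at h
    nlinarith
  have h4 : 2 * y ≤ p 0 + q 0 := by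
    have h := sq_le_sq' (by linarith [abs_nonneg (p 0 - y), abs_nonneg (q 0 - y)]) h2
    rw [sq_abs, sq_abs] at h
    nlinarith
  have hx : x = y := by linarith
  have hq' : q ∈ near Q (x • e1 0) := by
    rw [near_E0_iff, hx]
    exact hq
  have := eq_nr gx hq'
  rw [← hpdef] at this
  rw [this] at hlt
  exact lt_irrefl _ hlt

theorem PT_le_sum' {d : ℕ} {α : ℝ} (hα : α ≠ 0) {Q : Set (E d)} (k : ℕ) (u : ℕ → E d)
    (hu : ∀ i ≤ k, u i ∈ Q) :
    PT α Q (u 0) (u k) ≤ ∑ i ∈ Finset.range k, ‖u i - u (i + 1)‖ ^ α := by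
  rcases Nat.eq_zero_or_pos k with h | h
  · subst h
    have := PT_le_rpow (α := α) (hu 0 le_rfl) (hu 0 le_rfl)
    simpa [Real.zero_rpow hα] using this
  · exact PT_le_sum h u hu

theorem split_chain {α : ℝ} (hα : 1 ≤ α) {Q : Set (E 0)} {q : E 0} (hq : q ∈ Q) (k : ℕ) :
    ∀ u : ℕ → E 0, (∀ i ≤ k, u i ∈ Q) → (u 0) 0 ≤ q 0 → q 0 ≤ (u k) 0 →
      PT α Q (u 0) q + PT α Q q (u k) ≤ ∑ i ∈ Finset.range k, ‖u i - u (i + 1)‖ ^ α := by
  have hα0 : α ≠ 0 := by linarith
  induction k with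
  | zero =>
    intro u hu h0 h1
    have he : u 0 = q := ext_E0 (le_antisymm h0 h1)
    have := PT_le_rpow (α := α) hq hq
    rw [sub_self, norm_zero, Real.zero_rpow hα0] at this
    simp only [he, Finset.range_zero, Finset.sum_empty]
    linarith
  | succ k ih =>
    intro u hu h0 h1
    have hu0 : u 0 ∈ Q := hu 0 (by omega)
    have hu1 : u 1 ∈ Q := hu 1 (by omega)
    have huk : u (k + 1) ∈ Q := hu _ le_rfl
    rw [Finset.sum_range_succ']
    simp only [zero_add]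
    by_cases hc : (u 1) 0 ≤ q 0
    · have hI := ih (fun i => u (i + 1)) (fun i hi => hu (i + 1) (by omega)) hc h1
      simp only [zero_add] at hI
      have h2 := PT_triangle (α := α) hu0 hu1 hq
      have h3 := PT_le_rpow (α := α) hu0 hu1
      linarith
    · push Not at hc
      have h2 : PT α Q (u 0) q ≤ ‖u 0 - q‖ ^ α := PT_le_rpow hu0 hq
      have h3 := PT_triangle (α := α) hq hu1 huk
      have h4 : PT α Q q (u 1) ≤ ‖q - u 1‖ ^ α := PT_le_rpow hq hu1
      have h5 := PT_le_sum' (α := α) hα0 k (fun i => u (i + 1)) (fun i hi => hu (i + 1) (by omega))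
      simp only [zero_add] at h5
      have h6 : ‖u 0 - q‖ ^ α + ‖q - u 1‖ ^ α ≤ ‖u 0 - u 1‖ ^ α := by
        have e1 : ‖u 0 - q‖ = q 0 - (u 0) 0 := by
          rw [norm_E0, PiLp.sub_apply, abs_sub_comm, abs_of_nonneg (by linarith)]
        have e2 : ‖q - u 1‖ = (u 1) 0 - q 0 := by
          rw [norm_E0, PiLp.sub_apply, abs_sub_comm, abs_of_nonneg (by linarith)]
        have e3 : ‖u 0 - u 1‖ = (q 0 - (u 0) 0) + ((u 1) 0 - q 0) := by
          rw [norm_E0, PiLp.sub_apply, abs_sub_comm, abs_of_nonneg (by linarith)]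
          ring
        rw [e1, e2, e3]
        exact Real.add_rpow_le_rpow_add (by linarith) (by linarith) hα
      linarith

theorem dim1_superadd {α : ℝ} (hα : 1 ≤ α) {Q : Set (E 0)} {x y z : ℝ} (hxy : x ≤ y)
    (hyz : y ≤ z) (gx : Good Q (x • e1 0)) (gy : Good Q (y • e1 0)) (gz : Good Q (z • e1 0)) :
    T α Q (x • e1 0) (y • e1 0) + T α Q (y • e1 0) (z • e1 0) ≤
      T α Q (x • e1 0) (z • e1 0) := by
  have hx := (near_nr gx).1
  have hy := (near_nr gy).1
  have hz := (near_nr gz).1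
  have h1 := nr_mono hxy gx gy
  have h2 := nr_mono hyz gy gz
  unfold T
  refine le_PT hx hz ?_
  intro k u hk hu0 huk huQ
  have := split_chain hα hy k u huQ (by rw [hu0]; exact h1) (by rw [huk]; exact h2)
  rw [hu0, huk] at this
  exact this

end Pool.Agent.Work.MP_4035b7_pr
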