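import Pool.Agent.Work.MP_4035b7_pr.Pois

/-!
The volume preserving linear map `diag(a, b, ..., b)`.
-/

set_option autoImplicit false

open MeasureTheory ProbabilityTheory Filter
open scoped ENNReal NNReal Topology

namespace Pool.Agent.Work.MP_4035b7_pr

section Stretch
variable {d : ℕ}

theorem stretch_apply (a b : ℝ) (v : E d) (i : Fin (d + 1)) :
    stretch a b v i = if i = 0 then a * v i else b * v i := rfl

theorem stretch_sub (a b : ℝ) (u v : E d) : stretch a b (u - v) = stretch a b u - stretch a b v := by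
  ext i
  rw [PiLp.sub_apply, stretch_apply, stretch_apply, stretch_apply, PiLp.sub_apply]
  split_ifs <;> ring

theorem stretch_add (a b : ℝ) (u v : E d) : stretch a b (u + v) = stretch a b u + stretch a b v := by
  ext i
  rw [PiLp.add_apply, stretch_apply, stretch_apply, stretch_apply, PiLp.add_apply]
  split_ifs <;> ring

theorem stretch_e1 (a b n : ℝ) : stretch a b (n • e1 d) = (a * n) • e1 d := by
  ext i
  rw [stretch_apply, PiLp.smul_apply, PiLp.smul_apply, e1]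
  by_cases h : i = 0
  · subst h
    simp
  · simp [h]

theorem norm_sq_split (v : E d) : ‖v‖ ^ 2 = (v 0) ^ 2 + ∑ i : Fin d, (v i.succ) ^ 2 := by
  rw [EuclideanSpace.norm_sq_eq, Fin.sum_univ_succ]
  simp only [Real.norm_eq_abs, sq_abs]

theorem norm_stretch_sq (a b : ℝ) (v : E d) :
    ‖stretch a b v‖ ^ 2 = a ^ 2 * (v 0) ^ 2 + b ^ 2 * (‖v‖ ^ 2 - (v 0) ^ 2) := by
  rw [norm_sq_split, norm_sq_split v, stretch_apply, if_pos rfl]
  have h : ∀ i : Fin d, (stretch a b v i.succ) ^ 2 = b ^ 2 * (v i.succ) ^ 2 := by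
    intro i
    rw [stretch_apply, if_neg (Fin.succ_ne_zero i)]
    ring
  rw [Finset.sum_congr rfl (fun i _ => h i), ← Finset.mul_sum]
  ring

theorem sq_le_norm_sq (v : E d) : (v 0) ^ 2 ≤ ‖v‖ ^ 2 := by
  rw [norm_sq_split]
  have : 0 ≤ ∑ i : Fin d, (v i.succ) ^ 2 := Finset.sum_nonneg fun i _ => sq_nonneg _
  linarith

theorem exists_stretch_equiv (a b : ℝ) (ha : 0 < a) (hb : 0 < b) (hab : a * b ^ d = 1) :
    ∃ φ : E d ≃ᵐ E d, (∀ v, φ v = stretch a b v) ∧ MeasurePreserving φ volume volume := by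
  classical
  let c : Fin (d + 1) → ℝ := fun i => if i = 0 then a else b
  let M : Matrix (Fin (d + 1)) (Fin (d + 1)) ℝ := Matrix.diagonal c
  let f : E d →ₗ[ℝ] E d := Matrix.toEuclideanLin M
  have hf : ∀ v, f v = stretch a b v := by
    intro v
    ext i
    rw [stretch_apply]
    simp only [f, M, Matrix.toLpLin_apply, Matrix.mulVec_diagonal, c]
    split_ifs <;> rfl
  have hdet : LinearMap.det f = 1 := by
    have h1 : f = Matrix.toLin (EuclideanSpace.basisFun (Fin (d + 1)) ℝ).toBasis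
        (EuclideanSpace.basisFun (Fin (d + 1)) ℝ).toBasis M := by
      simp only [f]
      rw [Matrix.toEuclideanLin_eq_toLin_orthonormal]
    rw [h1, LinearMap.det_toLin]
    simp only [M, Matrix.det_diagonal, c]
    rw [Fin.prod_univ_succ, if_pos rfl]
    have h2 : ∏ i : Fin d, (if i.succ = 0 then a else b) = b ^ d := by
      rw [Finset.prod_congr rfl (fun i _ => if_neg (Fin.succ_ne_zero i)), Finset.prod_const,
        Finset.card_univ, Fintype.card_fin]
    rw [h2]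
    exact hab
  have hmap : Measure.map f (volume : Measure (E d)) = volume := by
    rw [MeasureTheory.Measure.map_linearMap_addHaar_eq_smul_addHaar volume
      (by rw [hdet]; exact one_ne_zero)]
    rw [hdet]
    simp
  have hinv : ∀ v : E d, stretch a⁻¹ b⁻¹ (stretch a b v) = v := by
    intro v
    ext i
    rw [stretch_apply, stretch_apply]
    split_ifs
    · field_simp
    · field_simp
  have hinv' : ∀ v : E d, stretch a b (stretch a⁻¹ b⁻¹ v) = v := by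
    intro v
    ext i
    rw [stretch_apply, stretch_apply]
    split_ifs
    · field_simp
    · field_simp
  let e : E d ≃ E d :=
    { toFun := stretch a b
      invFun := stretch a⁻¹ b⁻¹
      left_inv := hinv
      right_inv := hinv' }
  have hmeas : ∀ a b : ℝ, Measurable (stretch a b : E d → E d) := by
    intro a b
    let M' : Matrix (Fin (d + 1)) (Fin (d + 1)) ℝ := Matrix.diagonal fun i => if i = 0 then a else b
    have h : (stretch a b : E d → E d) = fun v => Matrix.toEuclideanLin M' v := by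
      funext v
      ext i
      rw [stretch_apply]
      simp only [M', Matrix.toLpLin_apply, Matrix.mulVec_diagonal]
      split_ifs <;> rfl
    rw [h]
    exact (LinearMap.continuous_of_finiteDimensional _).measurable
  let φ : E d ≃ᵐ E d :=
    { toEquiv := e
      measurable_toFun := hmeas a b
      measurable_invFun := hmeas a⁻¹ b⁻¹ }
  refine ⟨φ, fun v => rfl, φ.measurable, ?_⟩
  have h : (φ : E d → E d) = f := by
    funext v
    exact (hf v).symm
  rw [h]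
  exact hmap

theorem fa_mul_fb (α : ℝ) {θ : ℝ} (hθ : 0 < θ) : fa d α θ * (fb d α θ) ^ d = 1 := by
  rw [fa, fb, ← Real.rpow_natCast, ← Real.rpow_mul hθ.le, ← Real.rpow_add hθ]
  have h : rho α * d / (2 * (d + 1)) + -(rho α / (2 * (d + 1))) * d = 0 := by
    field_simp
    ring
  rw [h, Real.rpow_zero]

theorem fa_pos (α : ℝ) {θ : ℝ} (hθ : 0 < θ) : 0 < fa d α θ := Real.rpow_pos_of_pos hθ _

theorem fb_pos (α : ℝ) {θ : ℝ} (hθ : 0 < θ) : 0 < fb d α θ := Real.rpow_pos_of_pos hθ _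

/-- The stretched process is Poisson. -/
theorem IsPoisson.stretchA {Ω : Type*} [MeasurableSpace Ω] {P : Measure Ω}
    [IsProbabilityMeasure P] {Q : Ω → Set (E d)} (hQ : IsPoisson P Q) (α : ℝ) {θ : ℝ}
    (hθ : 0 < θ) : IsPoisson P (fun ω => A α θ '' Q ω) := by
  obtain ⟨φ, h1, h2⟩ := exists_stretch_equiv (d := d) (fa d α θ) (fb d α θ) (fa_pos α hθ)
    (fb_pos α hθ) (fa_mul_fb α hθ)
  have h3 := hQ.image φ h2
  have h4 : (φ : E d → E d) = A α θ := funext h1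
  rw [h4] at h3
  exact h3

theorem A_injective (α : ℝ) {θ : ℝ} (hθ : 0 < θ) : Function.Injective (A (d := d) α θ) := by
  obtain ⟨φ, h1, _⟩ := exists_stretch_equiv (d := d) (fa d α θ) (fb d α θ) (fa_pos α hθ)
    (fb_pos α hθ) (fa_mul_fb α hθ)
  have h4 : (φ : E d → E d) = A α θ := funext h1
  rw [← h4]
  exact φ.injective

theorem fa_eq (α : ℝ) {θ : ℝ} (hθ : 0 < θ) : (fa d α θ) ^ 2 = θ ^ (rho α) * (fb d α θ) ^ 2 := by
  rw [fa, fb, ← Real.rpow_natCast, ← Real.rpow_mul hθ.le, ← Real.rpow_natCast,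
    ← Real.rpow_mul hθ.le, ← Real.rpow_add hθ]
  congr 1
  push_cast
  field_simp
  ring

theorem norm_A_sq (α : ℝ) {θ : ℝ} (hθ : 0 < θ) (v : E d) :
    ‖A α θ v‖ ^ 2 = (fb d α θ) ^ 2 * (θ ^ (rho α) * (v 0) ^ 2 + (‖v‖ ^ 2 - (v 0) ^ 2)) := by
  rw [A, norm_stretch_sq, fa_eq α hθ]
  ring

/-- The cost of a vector after stretching. -/
theorem cost_A {α θ : ℝ} (hα : 0 < α) (hθ : 0 < θ) (v : E d) :
    (fb d α θ) ^ (-α) * ‖A α θ v‖ ^ α =
      (θ ^ (rho α) * (v 0) ^ 2 + (‖v‖ ^ 2 - (v 0) ^ 2)) ^ (α / 2) := by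
  have hb := fb_pos (d := d) α hθ
  have _ := hα
  have h0 : 0 ≤ θ ^ (rho α) * (v 0) ^ 2 + (‖v‖ ^ 2 - (v 0) ^ 2) := by
    have := sq_le_norm_sq v
    have h2 : 0 ≤ θ ^ (rho α) * (v 0) ^ 2 := by positivity
    linarith
  have h1 : ‖A α θ v‖ ^ α = (‖A α θ v‖ ^ 2) ^ (α / 2) := by
    rw [← Real.rpow_natCast, ← Real.rpow_mul (norm_nonneg _)]
    congr 1
    push_cast
    ring
  have h2 : ((fb d α θ) ^ 2) ^ (α / 2) = (fb d α θ) ^ α := by
    rw [← Real.rpow_natCast, ← Real.rpow_mul hb.le]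
    congr 1
    push_cast
    ring
  rw [h1, norm_A_sq α hθ, Real.mul_rpow (by positivity) h0, h2, ← mul_assoc,
    ← Real.rpow_add hb, neg_add_cancel, Real.rpow_zero, one_mul]

theorem rho_pos {α : ℝ} (hα : 0 < α) : 0 < rho α := by
  rw [rho]
  exact lt_min one_pos (by positivity)

theorem rho_le_one (α : ℝ) : rho α ≤ 1 := min_le_left _ _

theorem rho_mul_le {α : ℝ} (hα : 0 < α) : rho α * (α / 2) ≤ 1 := by
  have h : rho α ≤ 2 / α := min_le_right _ _
  calc rho α * (α / 2) ≤ 2 / α * (α / 2) := mul_le_mul_of_nonneg_right h (by positivity)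
    _ = 1 := by field_simp

theorem cost_A_le {α θ : ℝ} (hα : 0 < α) (h1 : 1 ≤ θ) (h2 : θ ≤ 2) (v : E d) :
    (fb d α θ) ^ (-α) * ‖A α θ v‖ ^ α ≤ 2 * ‖v‖ ^ α := by
  have hθ : 0 < θ := by linarith
  rw [cost_A hα hθ]
  have hr : 1 ≤ θ ^ (rho α) := Real.one_le_rpow h1 (rho_pos hα).le
  have h3 := sq_le_norm_sq v
  have h4 : θ ^ (rho α) * (v 0) ^ 2 + (‖v‖ ^ 2 - (v 0) ^ 2) ≤ θ ^ (rho α) * ‖v‖ ^ 2 := by
    nlinarith
  have h0 : 0 ≤ θ ^ (rho α) * (v 0) ^ 2 + (‖v‖ ^ 2 - (v 0) ^ 2) := by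
    have h2 : 0 ≤ θ ^ (rho α) * (v 0) ^ 2 := by positivity
    linarith
  calc (θ ^ (rho α) * (v 0) ^ 2 + (‖v‖ ^ 2 - (v 0) ^ 2)) ^ (α / 2)
      ≤ (θ ^ (rho α) * ‖v‖ ^ 2) ^ (α / 2) := Real.rpow_le_rpow h0 h4 (by positivity)
    _ = θ ^ (rho α * (α / 2)) * ‖v‖ ^ α := by
        rw [Real.mul_rpow (by positivity) (by positivity), ← Real.rpow_mul hθ.le,
          ← Real.rpow_natCast, ← Real.rpow_mul (norm_nonneg _)]
        congr 2
        push_cast
        ring
    _ ≤ θ ^ (1 : ℝ) * ‖v‖ ^ α := by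
        apply mul_le_mul_of_nonneg_right _ (by positivity)
        exact Real.rpow_le_rpow_of_exponent_le h1 (rho_mul_le hα)
    _ ≤ 2 * ‖v‖ ^ α := by
        rw [Real.rpow_one]
        exact mul_le_mul_of_nonneg_right h2 (by positivity)

/-- Nearest particle after stretching versus nearest particle: comparison of norms. -/
theorem norm_le_of_near_A {α θ : ℝ} (hα : 0 < α) (h1 : 1 ≤ θ) {p q : E d}
    (h : ‖A α θ q‖ ≤ ‖A α θ p‖) : ‖q‖ ≤ θ * ‖p‖ := by
  have hθ : 0 < θ := by linarith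
  have hr : 1 ≤ θ ^ (rho α) := Real.one_le_rpow h1 (rho_pos hα).le
  have hr2 : θ ^ (rho α) ≤ θ ^ 2 := by
    calc θ ^ (rho α) ≤ θ ^ (1 : ℝ) := Real.rpow_le_rpow_of_exponent_le h1 (rho_le_one α)
      _ = θ := Real.rpow_one θ
      _ ≤ θ ^ 2 := by nlinarith
  have hsq : ‖A α θ q‖ ^ 2 ≤ ‖A α θ p‖ ^ 2 := pow_le_pow_left₀ (norm_nonneg _) h 2
  rw [norm_A_sq α hθ, norm_A_sq α hθ] at hsq
  have hb : 0 < (fb d α θ) ^ 2 := by
    have := fb_pos (d := d) α hθ
    positivity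
  have h5 := le_of_mul_le_mul_left hsq hb
  have hq := sq_le_norm_sq q
  have hp := sq_le_norm_sq p
  have h6 : ‖q‖ ^ 2 ≤ (θ * ‖p‖) ^ 2 := by
    have e1 : ‖q‖ ^ 2 ≤ θ ^ (rho α) * (q 0) ^ 2 + (‖q‖ ^ 2 - (q 0) ^ 2) := by
      nlinarith [sq_nonneg (q 0)]
    have e2 : θ ^ (rho α) * (p 0) ^ 2 + (‖p‖ ^ 2 - (p 0) ^ 2) ≤ θ ^ (rho α) * ‖p‖ ^ 2 := by
      nlinarith
    have e3 : θ ^ (rho α) * ‖p‖ ^ 2 ≤ θ ^ 2 * ‖p‖ ^ 2 :=
      mul_le_mul_of_nonneg_right hr2 (by positivity)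
    calc ‖q‖ ^ 2 ≤ θ ^ 2 * ‖p‖ ^ 2 := by linarith
      _ = _ := by ring
  exact (pow_le_pow_iff_left₀ (norm_nonneg _) (by positivity) two_ne_zero).1 h6

end Stretch

end Pool.Agent.Work.MP_4035b7_pr
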