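import Pool.Agent.Work.MP_4035b7_pr.Pois

/-!
# The second nearest particle: geometric shells
-/

open MeasureTheory ProbabilityTheory Filter
open scoped ENNReal NNReal Topology

namespace Pool.Agent.Work.MP_4035b7_pr

namespace Tie

/-- The half open shell `a ≤ |u| < b`. -/
def shell (d : ℕ) (a b : ℝ) : Set (E d) := Metric.ball 0 b \ Metric.ball 0 a

/-- Volume of the unit ball. -/
noncomputable def om (d : ℕ) : ℝ := (volume (Metric.ball (0 : E d) 1)).toReal

lemma om_pos (d : ℕ) : 0 < om d :=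
  ENNReal.toReal_pos (Metric.measure_ball_pos volume _ one_pos).ne' measure_ball_lt_top.ne

lemma mem_shell {d : ℕ} {a b : ℝ} {u : E d} : u ∈ shell d a b ↔ a ≤ ‖u‖ ∧ ‖u‖ < b := by
  unfold shell
  rw [Set.mem_sdiff, Metric.mem_ball, Metric.mem_ball, dist_zero_right, not_lt]
  tauto

lemma measurableSet_shell (d : ℕ) (a b : ℝ) : MeasurableSet (shell d a b) :=
  measurableSet_ball.diff measurableSet_ball

lemma volume_ball (d : ℕ) {a : ℝ} (ha : 0 ≤ a) :
    volume (Metric.ball (0 : E d) a) = ENNReal.ofReal (om d * a ^ (d + 1)) := by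
  have h := Measure.addHaar_ball (volume : Measure (E d)) 0 ha
  rw [h]
  have hf : Module.finrank ℝ (E d) = d + 1 := by
    simp
  rw [hf, mul_comm (om d), ENNReal.ofReal_mul (by positivity)]
  congr 1
  unfold om
  rw [ENNReal.ofReal_toReal measure_ball_lt_top.ne]

lemma volume_shell_lt_top (d : ℕ) (a b : ℝ) : volume (shell d a b) < ∞ :=
  lt_of_le_of_lt (measure_mono Set.sdiff_subset) measure_ball_lt_top

lemma volume_shell (d : ℕ) {a b : ℝ} (ha : 0 ≤ a) (hab : a ≤ b) :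
    volume (shell d a b) = ENNReal.ofReal (om d * (b ^ (d + 1) - a ^ (d + 1))) := by
  unfold shell
  rw [measure_sdiff (Metric.ball_subset_ball hab) measurableSet_ball.nullMeasurableSet
    measure_ball_lt_top.ne, volume_ball d ha, volume_ball d (ha.trans hab),
    ← ENNReal.ofReal_sub _ (mul_nonneg (om_pos d).le (by positivity))]
  congr 1
  ring

lemma one_add_pow_le {δ : ℝ} (h0 : 0 ≤ δ) (h1 : δ ≤ 1) (n : ℕ) :
    (1 + δ) ^ n ≤ 1 + (2 ^ n - 1) * δ := by
  induction n with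
  | zero => simp
  | succ n ih =>
    have h2 : (1 : ℝ) ≤ 2 ^ n := one_le_pow₀ (by norm_num)
    have h3 : δ * δ ≤ δ := by nlinarith
    calc (1 + δ) ^ (n + 1) = (1 + δ) ^ n * (1 + δ) := pow_succ _ _
      _ ≤ (1 + (2 ^ n - 1) * δ) * (1 + δ) := mul_le_mul_of_nonneg_right ih (by linarith)
      _ = 1 + 2 ^ n * δ + (2 ^ n - 1) * (δ * δ) := by ring
      _ ≤ 1 + 2 ^ n * δ + (2 ^ n - 1) * δ := by
          have := mul_le_mul_of_nonneg_left h3 (by linarith : (0 : ℝ) ≤ 2 ^ n - 1)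
          linarith
      _ = 1 + (2 ^ (n + 1) - 1) * δ := by ring

/-- The polynomial times the Gaussian type factor. -/
lemma decay (d : ℕ) (s : ℝ) (hs : 0 ≤ s) :
    ∃ C : ℝ, 0 ≤ C ∧ ∀ x : ℝ, 0 < x →
      x ^ s * (x ^ (d + 1)) ^ 2 * Real.exp (-(om d * x ^ (d + 1))) ≤ C * x ∧
      x ^ s * (x ^ (d + 1)) ^ 2 * Real.exp (-(om d * x ^ (d + 1))) ≤ C * x⁻¹ := by
  set w := om d with hw
  have hw0 : 0 < w := om_pos d
  set N : ℕ := ⌈s⌉₊ + 2 * (d + 1) + 1 with hN
  refine ⟨1 + N.factorial / w ^ N, by positivity, fun x hx => ?_⟩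
  have hC1 : (1 : ℝ) ≤ 1 + N.factorial / w ^ N := by
    have : (0 : ℝ) ≤ N.factorial / w ^ N := by positivity
    linarith
  rcases le_total x 1 with h1 | h1
  · -- small x
    have e1 : Real.exp (-(w * x ^ (d + 1))) ≤ 1 := by
      apply Real.exp_le_one_iff.mpr
      have : 0 ≤ w * x ^ (d + 1) := by positivity
      linarith
    have e2 : x ^ s ≤ 1 := Real.rpow_le_one hx.le h1 hs
    have e3 : (x ^ (d + 1)) ^ 2 ≤ x := by
      rw [← pow_mul]
      calc x ^ ((d + 1) * 2) ≤ x ^ 1 := pow_le_pow_of_le_one hx.le h1 (by omega)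
        _ = x := pow_one x
    have e4 : x ^ s * (x ^ (d + 1)) ^ 2 * Real.exp (-(w * x ^ (d + 1))) ≤ x := by
      calc x ^ s * (x ^ (d + 1)) ^ 2 * Real.exp (-(w * x ^ (d + 1)))
          ≤ 1 * x * 1 := by
            apply mul_le_mul _ e1 (Real.exp_pos _).le (by linarith)
            exact mul_le_mul e2 e3 (by positivity) zero_le_one
        _ = x := by ring
    have e5 : x ≤ x⁻¹ := h1.trans ((one_le_inv₀ hx).mpr h1)
    refine ⟨e4.trans ?_, (e4.trans e5).trans ?_⟩
    · nlinarith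
    · have : 0 ≤ x⁻¹ := by positivity
      nlinarith
  · -- large x
    have k1 : x ^ s ≤ x ^ ⌈s⌉₊ := by
      rw [← Real.rpow_natCast]
      exact Real.rpow_le_rpow_of_exponent_le h1 (Nat.le_ceil s)
    have k2 : Real.exp (-(w * x ^ (d + 1))) ≤ Real.exp (-(w * x)) := by
      apply Real.exp_le_exp.mpr
      have : x ≤ x ^ (d + 1) := le_self_pow₀ h1 (by omega)
      have := mul_le_mul_of_nonneg_left this hw0.le
      linarith
    have k3 : x ^ N * Real.exp (-(w * x)) ≤ N.factorial / w ^ N := by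
      have h := Real.pow_div_factorial_le_exp (w * x) (by positivity) N
      rw [Real.exp_neg, ← div_eq_mul_inv, div_le_div_iff₀ (Real.exp_pos _) (by positivity)]
      rw [div_le_iff₀ (by positivity)] at h
      calc x ^ N * w ^ N = (w * x) ^ N := by ring
        _ ≤ Real.exp (w * x) * N.factorial := h
        _ = N.factorial * Real.exp (w * x) := by ring
    have k4 : x ^ s * (x ^ (d + 1)) ^ 2 * Real.exp (-(w * x ^ (d + 1))) * x ≤
        N.factorial / w ^ N := by
      calc x ^ s * (x ^ (d + 1)) ^ 2 * Real.exp (-(w * x ^ (d + 1))) * x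
          ≤ x ^ ⌈s⌉₊ * (x ^ (d + 1)) ^ 2 * Real.exp (-(w * x)) * x := by
            gcongr
        _ = x ^ N * Real.exp (-(w * x)) := by
            rw [hN]; ring
        _ ≤ _ := k3
    have k5 : x ^ s * (x ^ (d + 1)) ^ 2 * Real.exp (-(w * x ^ (d + 1))) ≤
        (1 + N.factorial / w ^ N) * x⁻¹ := by
      rw [← div_eq_mul_inv, le_div_iff₀ hx]
      linarith
    refine ⟨k5.trans ?_, k5⟩
    have : x⁻¹ ≤ x := (inv_le_one_of_one_le₀ h1).trans h1
    exact mul_le_mul_of_nonneg_left this (by positivity)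

/-- The bad event at scale `a`: no particle closer than `a`, and at least two particles in the
two next shells. -/
def ev {d : ℕ} {Ω : Type*} (Q : Ω → Set (E d)) (a r : ℝ) : Set Ω :=
  {ω | Q ω ∩ Metric.ball 0 a = ∅ ∧ 2 ≤ (Q ω ∩ shell d a (a * r)).encard} ∪
  {ω | Q ω ∩ Metric.ball 0 a = ∅ ∧ (Q ω ∩ shell d a (a * r)).Nonempty ∧
    (Q ω ∩ shell d (a * r) (a * r * r)).Nonempty}

section
variable {d : ℕ} {Ω : Type*} [MeasurableSpace Ω] {P : Measure Ω} [IsProbabilityMeasure P]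
  {Q : Ω → Set (E d)}

lemma measurableSet_ev (hQ : IsPoisson P Q) (a r : ℝ) : MeasurableSet (ev Q a r) := by
  apply MeasurableSet.union
  · exact (hQ.measurableSet_void measurableSet_ball).inter
      (hQ.measurableSet_two (measurableSet_shell _ _ _))
  · exact (hQ.measurableSet_void measurableSet_ball).inter
      ((hQ.measurableSet_nonempty (measurableSet_shell _ _ _)).inter
      (hQ.measurableSet_nonempty (measurableSet_shell _ _ _)))

lemma prob_ev (hQ : IsPoisson P Q) {a δ : ℝ} (ha : 0 < a) (h0 : 0 < δ) (h1 : δ ≤ 1) :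
    P (ev Q a (1 + δ)) ≤ ENNReal.ofReal (Real.exp (-(om d * a ^ (d + 1))) *
      ((1 + 2 ^ (d + 1)) * (om d * a ^ (d + 1) * 2 ^ (d + 1) * δ) ^ 2)) := by
  have hr : (1 : ℝ) ≤ 1 + δ := by linarith
  have har : a ≤ a * (1 + δ) := by nlinarith
  have harr : a * (1 + δ) ≤ a * (1 + δ) * (1 + δ) := by
    have : 0 < a * (1 + δ) := by positivity
    nlinarith
  have hw := om_pos d
  have hp := one_add_pow_le h0.le h1 (d + 1)
  have hp2 : (1 + δ) ^ (d + 1) ≤ 2 ^ (d + 1) := by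
    gcongr; linarith
  have hp1 : 1 ≤ (1 + δ) ^ (d + 1) := one_le_pow₀ hr
  set v : ℝ := om d * a ^ (d + 1) * 2 ^ (d + 1) * δ with hv
  have hv0 : 0 ≤ v := by positivity
  have v1 : volume (shell d a (a * (1 + δ))) ≤ ENNReal.ofReal v := by
    rw [volume_shell d ha.le har]
    apply ENNReal.ofReal_le_ofReal
    have : om d * ((a * (1 + δ)) ^ (d + 1) - a ^ (d + 1)) =
      om d * a ^ (d + 1) * ((1 + δ) ^ (d + 1) - 1) := by
      rw [mul_pow]; ring
    rw [this, hv, mul_assoc (om d * a ^ (d + 1))]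
    apply mul_le_mul_of_nonneg_left _ (by positivity)
    nlinarith
  have v2 : volume (shell d (a * (1 + δ)) (a * (1 + δ) * (1 + δ))) ≤
      ENNReal.ofReal (2 ^ (d + 1) * v) := by
    rw [volume_shell d (by positivity) harr]
    apply ENNReal.ofReal_le_ofReal
    have : om d * ((a * (1 + δ) * (1 + δ)) ^ (d + 1) - (a * (1 + δ)) ^ (d + 1)) =
      (1 + δ) ^ (d + 1) * (om d * a ^ (d + 1) * ((1 + δ) ^ (d + 1) - 1)) := by
      rw [mul_pow, mul_pow]; ring
    rw [this]
    apply mul_le_mul hp2 _ _ (by positivity)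
    · rw [hv, mul_assoc (om d * a ^ (d + 1))]
      apply mul_le_mul_of_nonneg_left _ (by positivity)
      nlinarith
    · apply mul_nonneg (by positivity)
      linarith
  have hball : (volume (Metric.ball (0 : E d) a)).toReal = om d * a ^ (d + 1) := by
    rw [volume_ball d ha.le, ENNReal.toReal_ofReal (by positivity)]
  have dBA : Disjoint (Metric.ball (0 : E d) a) (shell d a (a * (1 + δ))) := by
    unfold shell
    exact Set.disjoint_sdiff_right
  have dBC : Disjoint (Metric.ball (0 : E d) a) (shell d (a * (1 + δ)) (a * (1 + δ) * (1 + δ))) := by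
    rw [Set.disjoint_left]
    intro u hu hu'
    rw [mem_shell] at hu'
    rw [Metric.mem_ball, dist_zero_right] at hu
    linarith [hu'.1]
  have dAC : Disjoint (shell d a (a * (1 + δ))) (shell d (a * (1 + δ)) (a * (1 + δ) * (1 + δ))) := by
    rw [Set.disjoint_left]
    intro u hu hu'
    rw [mem_shell] at hu hu'
    linarith [hu'.1, hu.2]
  have b1 := hQ.void_two measurableSet_ball (measurableSet_shell d a (a * (1 + δ)))
    measure_ball_lt_top (volume_shell_lt_top _ _ _) dBA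
  have b2 := hQ.void_one_one measurableSet_ball (measurableSet_shell d a (a * (1 + δ)))
    (measurableSet_shell d (a * (1 + δ)) (a * (1 + δ) * (1 + δ)))
    measure_ball_lt_top (volume_shell_lt_top _ _ _) (volume_shell_lt_top _ _ _) dBA dBC dAC
  rw [hball] at b1 b2
  refine (measure_union_le _ _).trans ((add_le_add b1 b2).trans ?_)
  rw [mul_assoc, sq, ← mul_add]
  rw [ENNReal.ofReal_mul (Real.exp_pos _).le]
  gcongr
  calc volume (shell d a (a * (1 + δ))) * volume (shell d a (a * (1 + δ))) +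
        volume (shell d a (a * (1 + δ))) * volume (shell d (a * (1 + δ)) (a * (1 + δ) * (1 + δ)))
      ≤ ENNReal.ofReal v * ENNReal.ofReal v + ENNReal.ofReal v * ENNReal.ofReal (2 ^ (d + 1) * v) := by
        gcongr
    _ = ENNReal.ofReal ((1 + 2 ^ (d + 1)) * v ^ 2) := by
        rw [← ENNReal.ofReal_mul hv0, ← ENNReal.ofReal_mul hv0,
          ← ENNReal.ofReal_add (by positivity) (by positivity)]
        congr 1
        ring

end

lemma tsum_geom {q : ℝ} (h0 : 0 ≤ q) (h1 : q < 1) :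
    ∑' n : ℕ, ENNReal.ofReal (q ^ n) = ENNReal.ofReal (1 - q)⁻¹ := by
  rw [← tsum_geometric_of_lt_one h0 h1, ENNReal.ofReal_tsum_of_nonneg (fun n => by positivity)
    (summable_geometric_of_lt_one h0 h1)]

end Tie

open Tie in
theorem tie_bound {d : ℕ} {Ω : Type*} [MeasurableSpace Ω] (P : Measure Ω)
    [IsProbabilityMeasure P] (s : ℝ) (hs : 0 ≤ s) :
    ∃ K : ℝ, 0 ≤ K ∧ ∀ Q : Ω → Set (E d), IsPoisson P Q → ∀ δ : ℝ, 0 < δ → δ ≤ 1 →
      ∃ g : Ω → ℝ≥0∞, Measurable g ∧ ∫⁻ ω, g ω ∂P ≤ ENNReal.ofReal (K * δ) ∧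
        ∀ ω, ∀ p ∈ near (Q ω) 0, ∀ q ∈ Q ω, q ≠ p → ‖q‖ ≤ (1 + δ) * ‖p‖ →
          ENNReal.ofReal (‖p‖ ^ s) ≤ g ω := by
  obtain ⟨C, hC0, hC⟩ := decay d s hs
  have hw := om_pos d
  set C1 : ℝ := 2 ^ s * ((1 + 2 ^ (d + 1)) * (om d * 2 ^ (d + 1)) ^ 2) * C with hC1
  have hC10 : 0 ≤ C1 := by positivity
  refine ⟨4 * C1, by positivity, fun Q hQ δ h0 h1 => ?_⟩
  have hr1 : (1 : ℝ) < 1 + δ := by linarith
  have hr0 : (0 : ℝ) < 1 + δ := by linarith
  have hmeas1 : ∀ j : ℤ, Measurable (fun ω : Ω =>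
      (ev Q ((1 + δ) ^ j) (1 + δ)).indicator (1 : Ω → ℝ≥0∞) ω) :=
    fun j => measurable_one.indicator (measurableSet_ev hQ _ _)
  have hmeas : ∀ j : ℤ, Measurable (fun ω : Ω => ENNReal.ofReal (((1 + δ) ^ (j + 1)) ^ s) *
      (ev Q ((1 + δ) ^ j) (1 + δ)).indicator (1 : Ω → ℝ≥0∞) ω) :=
    fun j => (hmeas1 j).const_mul _
  refine ⟨fun ω => ∑' j : ℤ, ENNReal.ofReal (((1 + δ) ^ (j + 1)) ^ s) *
    (ev Q ((1 + δ) ^ j) (1 + δ)).indicator 1 ω, Measurable.tsum hmeas, ?_, ?_⟩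
  · -- the integral
    have hterm : ∀ x : ℝ, 0 < x → ENNReal.ofReal ((x * (1 + δ)) ^ s) * P (ev Q x (1 + δ)) ≤
        ENNReal.ofReal (C1 * δ ^ 2 * x) ∧
        ENNReal.ofReal ((x * (1 + δ)) ^ s) * P (ev Q x (1 + δ)) ≤
        ENNReal.ofReal (C1 * δ ^ 2 * x⁻¹) := by
      intro x hx
      have hb := prob_ev hQ hx h0 h1
      have h2 : (x * (1 + δ)) ^ s ≤ 2 ^ s * x ^ s := by
        rw [← Real.mul_rpow (by norm_num) hx.le]
        apply Real.rpow_le_rpow (by positivity) _ hs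
        nlinarith
      have h3 : ENNReal.ofReal ((x * (1 + δ)) ^ s) * P (ev Q x (1 + δ)) ≤
          ENNReal.ofReal (2 ^ s * ((1 + 2 ^ (d + 1)) * (om d * 2 ^ (d + 1)) ^ 2) * δ ^ 2 *
            (x ^ s * (x ^ (d + 1)) ^ 2 * Real.exp (-(om d * x ^ (d + 1))))) := by
        calc ENNReal.ofReal ((x * (1 + δ)) ^ s) * P (ev Q x (1 + δ)) ≤
            ENNReal.ofReal (2 ^ s * x ^ s) * ENNReal.ofReal (Real.exp (-(om d * x ^ (d + 1))) *
            ((1 + 2 ^ (d + 1)) * (om d * x ^ (d + 1) * 2 ^ (d + 1) * δ) ^ 2)) :=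
              mul_le_mul' (ENNReal.ofReal_le_ofReal h2) hb
          _ = _ := by
            rw [← ENNReal.ofReal_mul (by positivity)]
            congr 1
            ring
      obtain ⟨c1, c2⟩ := hC x hx
      constructor
      · refine h3.trans (ENNReal.ofReal_le_ofReal ?_)
        calc _ ≤ 2 ^ s * ((1 + 2 ^ (d + 1)) * (om d * 2 ^ (d + 1)) ^ 2) * δ ^ 2 * (C * x) :=
              mul_le_mul_of_nonneg_left c1 (by positivity)
          _ = _ := by rw [hC1]; ring
      · refine h3.trans (ENNReal.ofReal_le_ofReal ?_)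
        calc _ ≤ 2 ^ s * ((1 + 2 ^ (d + 1)) * (om d * 2 ^ (d + 1)) ^ 2) * δ ^ 2 * (C * x⁻¹) :=
              mul_le_mul_of_nonneg_left c2 (by positivity)
          _ = _ := by rw [hC1]; ring
    have hint : ∫⁻ ω, ∑' j : ℤ, ENNReal.ofReal (((1 + δ) ^ (j + 1)) ^ s) *
        (ev Q ((1 + δ) ^ j) (1 + δ)).indicator 1 ω ∂P =
        ∑' j : ℤ, ENNReal.ofReal (((1 + δ) ^ j * (1 + δ)) ^ s) *
          P (ev Q ((1 + δ) ^ j) (1 + δ)) := by
      rw [lintegral_tsum (fun j => (hmeas j).aemeasurable)]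
      refine tsum_congr (fun j => ?_)
      rw [lintegral_const_mul _ (hmeas1 j),
        lintegral_indicator_one (measurableSet_ev hQ _ _), zpow_add_one₀ hr0.ne']
    rw [hint]
    set q : ℝ := (1 + δ)⁻¹ with hq
    have hq0 : 0 ≤ q := by positivity
    have hq1 : q < 1 := inv_lt_one_of_one_lt₀ hr1
    have hpos : ∀ n : ℕ, ENNReal.ofReal (((1 + δ) ^ (n : ℤ) * (1 + δ)) ^ s) *
          P (ev Q ((1 + δ) ^ (n : ℤ)) (1 + δ)) ≤
          ENNReal.ofReal (C1 * δ ^ 2) * ENNReal.ofReal (q ^ n) := by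
      intro n
      refine ((hterm _ (zpow_pos hr0 _)).2).trans (le_of_eq ?_)
      rw [← ENNReal.ofReal_mul (by positivity), hq, zpow_natCast, inv_pow]
    have hneg : ∀ n : ℕ, ENNReal.ofReal (((1 + δ) ^ (-((n : ℤ) + 1)) * (1 + δ)) ^ s) *
          P (ev Q ((1 + δ) ^ (-((n : ℤ) + 1))) (1 + δ)) ≤
          ENNReal.ofReal (C1 * δ ^ 2) * ENNReal.ofReal (q ^ n) := by
      intro n
      refine ((hterm _ (zpow_pos hr0 _)).1).trans ?_
      rw [← ENNReal.ofReal_mul (by positivity)]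
      apply ENNReal.ofReal_le_ofReal
      apply mul_le_mul_of_nonneg_left _ (by positivity)
      have : (1 + δ) ^ (-((n : ℤ) + 1)) = q ^ (n + 1) := by
        rw [zpow_neg, hq, inv_pow, ← zpow_natCast]
        push_cast
        rfl
      rw [this]
      exact pow_le_pow_of_le_one hq0 hq1.le (Nat.le_succ n)
    have hsum : HasSum (fun j : ℤ => ENNReal.ofReal (((1 + δ) ^ j * (1 + δ)) ^ s) *
          P (ev Q ((1 + δ) ^ j) (1 + δ)))
          (∑' n : ℕ, ENNReal.ofReal (((1 + δ) ^ (n : ℤ) * (1 + δ)) ^ s) *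
          P (ev Q ((1 + δ) ^ (n : ℤ)) (1 + δ)) +
          ∑' n : ℕ, ENNReal.ofReal (((1 + δ) ^ (-((n : ℤ) + 1)) * (1 + δ)) ^ s) *
          P (ev Q ((1 + δ) ^ (-((n : ℤ) + 1))) (1 + δ))) :=
      HasSum.of_nat_of_neg_add_one (ENNReal.summable.hasSum) (ENNReal.summable.hasSum)
    rw [hsum.tsum_eq]
    calc _ ≤ (∑' n : ℕ, ENNReal.ofReal (C1 * δ ^ 2) * ENNReal.ofReal (q ^ n)) +
          ∑' n : ℕ, ENNReal.ofReal (C1 * δ ^ 2) * ENNReal.ofReal (q ^ n) :=
          add_le_add (ENNReal.tsum_le_tsum hpos) (ENNReal.tsum_le_tsum hneg)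
      _ = ENNReal.ofReal (2 * (C1 * δ ^ 2) * (1 - q)⁻¹) := by
          rw [ENNReal.tsum_mul_left, tsum_geom hq0 hq1, ← ENNReal.ofReal_mul (by positivity),
            ← ENNReal.ofReal_add]
          · congr 1; ring
          · apply mul_nonneg (by positivity)
            rw [inv_nonneg]; linarith
          · apply mul_nonneg (by positivity)
            rw [inv_nonneg]; linarith
      _ ≤ ENNReal.ofReal (4 * C1 * δ) := by
          apply ENNReal.ofReal_le_ofReal
          have hq' : (1 - q)⁻¹ = (1 + δ) / δ := by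
            have h5 : 1 - q = δ / (1 + δ) := by
              rw [hq, eq_div_iff hr0.ne', sub_mul, inv_mul_cancel₀ hr0.ne']
              ring
            rw [h5, inv_div]
          rw [hq']
          have : 2 * (C1 * δ ^ 2) * ((1 + δ) / δ) = 2 * C1 * δ * (1 + δ) := by
            field_simp
          rw [this]
          have : 0 ≤ C1 * δ := by positivity
          nlinarith
  · -- the pointwise bound
    intro ω p hp q hq hqp hle
    have hp0 : 0 < ‖p‖ := by
      by_contra hcon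
      have hpz : ‖p‖ = 0 := le_antisymm (not_lt.mp hcon) (norm_nonneg _)
      rw [hpz, mul_zero] at hle
      have hqz : ‖q‖ = 0 := le_antisymm hle (norm_nonneg _)
      exact hqp ((norm_eq_zero.mp hqz).trans (norm_eq_zero.mp hpz).symm)
    obtain ⟨hpQ, hpmin⟩ := hp
    simp only [sub_zero] at hpmin
    obtain ⟨j, hj1, hj2⟩ := exists_mem_Ico_zpow hp0 hr1
    have hj3 : (1 + δ) ^ (j + 1) = (1 + δ) ^ j * (1 + δ) := zpow_add_one₀ hr0.ne' j
    have hin : ω ∈ ev Q ((1 + δ) ^ j) (1 + δ) := by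
      have hvoid : Q ω ∩ Metric.ball 0 ((1 + δ) ^ j) = ∅ := by
        rw [Set.eq_empty_iff_forall_notMem]
        rintro u ⟨hu, hu'⟩
        rw [Metric.mem_ball, dist_zero_right] at hu'
        linarith [hpmin u hu]
      have hpS : p ∈ Q ω ∩ shell d ((1 + δ) ^ j) ((1 + δ) ^ j * (1 + δ)) :=
        ⟨hpQ, mem_shell.mpr ⟨hj1, by rw [← hj3]; exact hj2⟩⟩
      by_cases hqS : ‖q‖ < (1 + δ) ^ j * (1 + δ)
      · left
        refine ⟨hvoid, ?_⟩
        have hqS' : q ∈ Q ω ∩ shell d ((1 + δ) ^ j) ((1 + δ) ^ j * (1 + δ)) :=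
          ⟨hq, mem_shell.mpr ⟨hj1.trans (hpmin q hq), hqS⟩⟩
        calc (2 : ℕ∞) = ({q, p} : Set (E d)).encard := (Set.encard_pair hqp).symm
          _ ≤ _ := Set.encard_le_encard (by
              intro u hu
              rcases hu with rfl | rfl
              · exact hqS'
              · exact hpS)
      · right
        refine ⟨hvoid, ⟨p, hpS⟩, ⟨q, hq, mem_shell.mpr ⟨not_lt.mp hqS, ?_⟩⟩⟩
        calc ‖q‖ ≤ (1 + δ) * ‖p‖ := hle
          _ < (1 + δ) * (1 + δ) ^ (j + 1) := mul_lt_mul_of_pos_left hj2 hr0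
          _ = _ := by rw [hj3]; ring
    calc ENNReal.ofReal (‖p‖ ^ s) ≤ ENNReal.ofReal (((1 + δ) ^ (j + 1)) ^ s) *
          (ev Q ((1 + δ) ^ j) (1 + δ)).indicator 1 ω := by
          rw [Set.indicator_of_mem hin, Pi.one_apply, mul_one]
          exact ENNReal.ofReal_le_ofReal (Real.rpow_le_rpow hp0.le hj2.le hs)
      _ ≤ _ := ENNReal.le_tsum j

end Pool.Agent.Work.MP_4035b7_pr
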