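import Pool.Agent.Work.MP_4035b7_pr.Geo
import Pool.Agent.Work.MP_4035b7_pr.Stretch
import Pool.Agent.Work.MP_4035b7_pr.Tie

open MeasureTheory ProbabilityTheory Filter
open scoped ENNReal NNReal Topology

namespace Pool.Agent.Work.MP_4035b7_pr

theorem endpoint_bound {d : ℕ} {Ω : Type*} [MeasurableSpace Ω] (P : Measure Ω)
    [IsProbabilityMeasure P] {α : ℝ} (hα : 0 < α) :
    ∃ K : ℝ, 0 ≤ K ∧ ∀ Q : Ω → Set (E d), IsPoisson P Q → ∀ θ : ℝ, 1 < θ → θ ≤ 2 → ∀ x : E d,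
      ∃ g : Ω → ℝ≥0∞, Measurable g ∧ ∫⁻ ω, g ω ∂P ≤ ENNReal.ofReal (K * (θ - 1)) ∧
        ∀ ω, ∀ p ∈ near (Q ω) x, ∀ p' ∈ Q ω, A α θ p' ∈ near (A α θ '' Q ω) (A α θ x) →
          ENNReal.ofReal (‖p - p'‖ ^ α) ≤ g ω := by
  obtain ⟨K, hK, h⟩ := tie_bound (d := d) P α hα.le
  refine ⟨3 ^ α * K, by positivity, ?_⟩
  intro Q hQ θ h1 h2 x
  obtain ⟨g, hg, hgi, hgb⟩ := h _ (hQ.translate (-x)) (θ - 1) (by linarith) (by linarith)
  refine ⟨fun ω => ENNReal.ofReal (3 ^ α) * g ω, hg.const_mul _, ?_, ?_⟩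
  · rw [lintegral_const_mul _ hg]
    refine (mul_le_mul_right hgi _).trans ?_
    rw [← ENNReal.ofReal_mul (by positivity)]
    exact ENNReal.ofReal_le_ofReal (le_of_eq (by ring))
  · intro ω p hp p' hp' hnear
    by_cases hpp : p' = p
    · rw [hpp, sub_self, norm_zero, Real.zero_rpow hα.ne', ENNReal.ofReal_zero]
      exact zero_le
    · have hn0 : p - x ∈ near ((fun v => v + -x) '' Q ω) 0 := by
        have := near_translate (Q ω) x (-x)
        rw [add_neg_cancel] at this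
        rw [this]
        exact ⟨p, hp, by simp [sub_eq_add_neg]⟩
      have hq0 : p' - x ∈ (fun v => v + -x) '' Q ω := ⟨p', hp', by simp [sub_eq_add_neg]⟩
      have hne : p' - x ≠ p - x := fun h => hpp (sub_left_injective h)
      have hle : ‖A α θ (p' - x)‖ ≤ ‖A α θ (p - x)‖ := by
        have := hnear.2 (A α θ p) ⟨p, hp.1, rfl⟩
        have e := fun v => (stretch_sub (fa d α θ) (fb d α θ) v x)
        have e' : ∀ v, A α θ (v - x) = A α θ v - A α θ x := e
        rw [e', e']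
        exact this
      have hle2 := norm_le_of_near_A hα h1.le hle
      have hb := hgb ω (p - x) hn0 (p' - x) hq0 hne (by rw [add_sub_cancel]; exact hle2)
      refine le_trans ?_ (mul_le_mul_right hb _)
      rw [← ENNReal.ofReal_mul (by positivity), ← Real.mul_rpow (by norm_num) (norm_nonneg _)]
      refine ENNReal.ofReal_le_ofReal (Real.rpow_le_rpow (norm_nonneg _) ?_ hα.le)
      calc ‖p - p'‖ = ‖(p - x) - (p' - x)‖ := by congr 1; abel
        _ ≤ ‖p - x‖ + ‖p' - x‖ := norm_sub_le _ _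
        _ ≤ 3 * ‖p - x‖ := by nlinarith [norm_nonneg (p - x)]

end Pool.Agent.Work.MP_4035b7_pr
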