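import Pool.Agent.Work.MP_4035b7_pr.Defs

open MeasureTheory ProbabilityTheory Filter
open scoped ENNReal NNReal Topology

namespace Pool.Agent.Work.MP_4035b7_pr

theorem fekete {f : ℝ → ℝ} (h0 : ∀ x, 0 ≤ x → 0 ≤ f x)
    (hsub : ∀ x y, 0 ≤ x → 0 ≤ y → f (x + y) ≤ f x + f y) {B : ℝ}
    (hB : ∀ x, 0 ≤ x → x ≤ 1 → f x ≤ B) :
    ∃ μ : ℝ, 0 ≤ μ ∧ Tendsto (fun x => f x / x) atTop (𝓝 μ) := by
  have hs : Subadditive (fun n : ℕ => f n) := by
    intro m n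
    push_cast
    exact hsub _ _ (Nat.cast_nonneg _) (Nat.cast_nonneg _)
  have hbdd : BddBelow (Set.range fun n : ℕ => f n / n) := by
    refine ⟨0, ?_⟩
    rintro _ ⟨n, rfl⟩
    exact div_nonneg (h0 _ (Nat.cast_nonneg _)) (Nat.cast_nonneg _)
  have hlim := hs.tendsto_lim hbdd
  set μ := hs.lim with hμ
  refine ⟨μ, ?_, ?_⟩
  · refine ge_of_tendsto' hlim (fun n => ?_)
    exact div_nonneg (h0 _ (Nat.cast_nonneg _)) (Nat.cast_nonneg _)
  · have hfl : Tendsto (fun x : ℝ => ⌊x⌋₊) atTop atTop := tendsto_nat_floor_atTop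
    have h1 : Tendsto (fun x : ℝ => f (⌊x⌋₊ : ℝ) / (⌊x⌋₊ : ℝ)) atTop (𝓝 μ) := hlim.comp hfl
    have h2 : Tendsto (fun x : ℝ => (⌊x⌋₊ : ℝ) / x) atTop (𝓝 1) := tendsto_nat_floor_div_atTop
    have hfl' : Tendsto (fun x : ℝ => ⌊x⌋₊ + 1) atTop atTop :=
      tendsto_atTop_mono (fun x => Nat.le_succ _) hfl
    have h1' : Tendsto (fun x : ℝ => f ((⌊x⌋₊ + 1 : ℕ) : ℝ) / ((⌊x⌋₊ + 1 : ℕ) : ℝ)) atTop (𝓝 μ) :=
      hlim.comp hfl'
    have hinv : Tendsto (fun x : ℝ => 1 / x) atTop (𝓝 0) := by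
      simpa using tendsto_inv_atTop_zero (𝕜 := ℝ)
    have h2' : Tendsto (fun x : ℝ => (((⌊x⌋₊ + 1 : ℕ) : ℝ)) / x) atTop (𝓝 1) := by
      have := h2.add hinv
      simp only [add_zero] at this
      refine this.congr (fun x => ?_)
      push_cast
      ring
    have hBx : Tendsto (fun x : ℝ => B * (1 / x)) atTop (𝓝 0) := by
      simpa using hinv.const_mul B
    have hup : Tendsto (fun x : ℝ => f (⌊x⌋₊ : ℝ) / (⌊x⌋₊ : ℝ) * ((⌊x⌋₊ : ℝ) / x) + B * (1 / x))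
        atTop (𝓝 μ) := by
      have := (h1.mul h2).add hBx
      simpa using this
    have hlow : Tendsto (fun x : ℝ => f ((⌊x⌋₊ + 1 : ℕ) : ℝ) / ((⌊x⌋₊ + 1 : ℕ) : ℝ) *
        (((⌊x⌋₊ + 1 : ℕ) : ℝ) / x) - B * (1 / x)) atTop (𝓝 μ) := by
      have := (h1'.mul h2').sub hBx
      simpa using this
    refine tendsto_of_tendsto_of_tendsto_of_le_of_le' hlow hup ?_ ?_
    · filter_upwards [eventually_ge_atTop (1 : ℝ)] with x hx
      have hx0 : 0 < x := by linarith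
      have hn : ((⌊x⌋₊ + 1 : ℕ) : ℝ) ≠ 0 := by positivity
      have e1 : f ((⌊x⌋₊ + 1 : ℕ) : ℝ) / ((⌊x⌋₊ + 1 : ℕ) : ℝ) * (((⌊x⌋₊ + 1 : ℕ) : ℝ) / x) =
          f ((⌊x⌋₊ + 1 : ℕ) : ℝ) / x := by
        field_simp
      rw [e1]
      have hle : f ((⌊x⌋₊ + 1 : ℕ) : ℝ) ≤ f x + B := by
        have hr0 : 0 ≤ ((⌊x⌋₊ + 1 : ℕ) : ℝ) - x := by
          have := Nat.lt_floor_add_one x
          push_cast
          linarith
        have hr1 : ((⌊x⌋₊ + 1 : ℕ) : ℝ) - x ≤ 1 := by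
          have := Nat.floor_le hx0.le
          push_cast
          linarith
        have := hsub x (((⌊x⌋₊ + 1 : ℕ) : ℝ) - x) hx0.le hr0
        rw [add_sub_cancel] at this
        linarith [hB _ hr0 hr1]
      rw [show f ((⌊x⌋₊ + 1 : ℕ) : ℝ) / x - B * (1 / x) = (f ((⌊x⌋₊ + 1 : ℕ) : ℝ) - B) / x by ring]
      exact div_le_div_of_nonneg_right (by linarith) hx0.le
    · filter_upwards [eventually_ge_atTop (1 : ℝ)] with x hx
      have hx0 : 0 < x := by linarith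
      have hfp : 0 < ⌊x⌋₊ := Nat.floor_pos.mpr hx
      have hn : ((⌊x⌋₊ : ℕ) : ℝ) ≠ 0 := by positivity
      have e1 : f (⌊x⌋₊ : ℝ) / (⌊x⌋₊ : ℝ) * ((⌊x⌋₊ : ℝ) / x) = f (⌊x⌋₊ : ℝ) / x := by
        field_simp
      rw [e1]
      have hle : f x ≤ f (⌊x⌋₊ : ℝ) + B := by
        have hr0 : 0 ≤ x - (⌊x⌋₊ : ℝ) := by linarith [Nat.floor_le hx0.le]
        have hr1 : x - (⌊x⌋₊ : ℝ) ≤ 1 := by linarith [Nat.lt_floor_add_one x]
        have := hsub (⌊x⌋₊ : ℝ) (x - (⌊x⌋₊ : ℝ)) (Nat.cast_nonneg _) hr0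
        rw [add_sub_cancel] at this
        linarith [hB _ hr0 hr1]
      rw [show f (⌊x⌋₊ : ℝ) / x + B * (1 / x) = (f (⌊x⌋₊ : ℝ) + B) / x by ring]
      exact div_le_div_of_nonneg_right (by linarith) hx0.le

/-- Nonnegative additive functions are linear. -/
theorem additive_linear {f : ℝ → ℝ} (h0 : ∀ x, 0 ≤ x → 0 ≤ f x)
    (hadd : ∀ x y, 0 ≤ x → 0 ≤ y → f (x + y) = f x + f y) (x : ℝ) (hx : 0 ≤ x) :
    f x = f 1 * x := by
  have hmono : ∀ a b, 0 ≤ a → a ≤ b → f a ≤ f b := by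
    intro a b ha hab
    have := hadd a (b - a) ha (by linarith)
    rw [add_sub_cancel] at this
    linarith [h0 (b - a) (by linarith)]
  have hf0 : f 0 = 0 := by
    have := hadd 0 0 le_rfl le_rfl
    simp at this
    exact this
  have hnat : ∀ (n : ℕ) (a : ℝ), 0 ≤ a → f (n * a) = n * f a := by
    intro n a ha
    induction n with
    | zero => simp [hf0]
    | succ k ih =>
      push_cast
      rw [add_mul, one_mul, hadd _ _ (by positivity) ha, ih]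
      ring
  have hkey : ∀ n : ℕ, |(n : ℝ) * (f x - f 1 * x)| ≤ f 1 := by
    intro n
    have hnx : (0 : ℝ) ≤ n * x := by positivity
    have h1 := hnat ⌊(n : ℝ) * x⌋₊ 1 zero_le_one
    have h2 := hnat (⌊(n : ℝ) * x⌋₊ + 1) 1 zero_le_one
    have h3 := hnat n x hx
    rw [mul_one] at h1 h2
    have hle1 : (⌊(n : ℝ) * x⌋₊ : ℝ) ≤ n * x := Nat.floor_le hnx
    have hle2 : (n : ℝ) * x ≤ ((⌊(n : ℝ) * x⌋₊ + 1 : ℕ) : ℝ) := by
      push_cast
      exact (Nat.lt_floor_add_one _).le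
    have h4 := hmono _ _ (Nat.cast_nonneg _) hle1
    have h5 := hmono _ _ hnx hle2
    rw [h1, h3] at h4
    rw [h2, h3] at h5
    push_cast at h5 hle2
    have h10 := h0 1 zero_le_one
    rw [abs_le]
    constructor
    · nlinarith
    · nlinarith
  by_contra hne
  have hpos : 0 < |f x - f 1 * x| := abs_pos.mpr (sub_ne_zero.mpr hne)
  obtain ⟨n, hn⟩ := exists_nat_gt (f 1 / |f x - f 1 * x|)
  have := hkey n
  rw [abs_mul, Nat.abs_cast] at this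
  rw [div_lt_iff₀ hpos] at hn
  linarith

end Pool.Agent.Work.MP_4035b7_pr
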