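import Pool.Agent.Work.MP_4035b7_pr.Defs

open MeasureTheory ProbabilityTheory Filter
open scoped ENNReal NNReal Topology

namespace Pool.Agent.Work.MP_4035b7_pr

theorem rpow_neg_ge {θ e : ℝ} (hθ : 1 ≤ θ) (he : 0 ≤ e) : 1 - e * (θ - 1) ≤ θ ^ (-e) := by
  have h0 : 0 < θ := by linarith
  rw [Real.rpow_def_of_pos h0]
  have h1 := Real.add_one_le_exp (Real.log θ * -e)
  have h2 := Real.log_le_sub_one_of_pos h0
  nlinarith

theorem rpow_sub_one_ge {θ a : ℝ} (hθ : 1 < θ) (ha : 0 < a) :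
    a / θ * (θ - 1) ≤ θ ^ a - 1 := by
  have h0 : 0 < θ := by linarith
  rw [Real.rpow_def_of_pos h0]
  have h1 := Real.add_one_le_exp (Real.log θ * a)
  have h2 := Real.one_sub_inv_le_log_of_pos h0
  have h3 : a / θ * (θ - 1) = (1 - θ⁻¹) * a := by
    field_simp
  rw [h3]
  nlinarith

theorem eventually_increasing {f : ℝ → ℝ} {μ κ e C n1 : ℝ} (hκ : 0 < κ) (hκ1 : κ ≤ 1)
    (he : 0 ≤ e) (hμ : 0 < μ) (hlim : Tendsto (fun x => f x / x) atTop (𝓝 μ))
    (key : ∀ n θ' θ : ℝ, n1 ≤ n → 1 < θ' → θ' < θ → θ ≤ 2 →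
      (1 - (θ' - 1) / (θ - 1)) * f n + (θ' - 1) / (θ - 1) * (θ ^ e * f (n * θ ^ κ)) ≤
        θ' ^ e * f (n * θ' ^ κ) + C * (θ' - 1)) :
    ∃ c n0 : ℝ, 0 < c ∧ ∀ n m : ℝ, n0 ≤ n → n < m → c * (m - n) ≤ f m - f n := by
  -- choice of θ
  obtain ⟨θ, hθ1, hθ2, hθ3⟩ : ∃ θ : ℝ, 1 < θ ∧ θ ≤ 2 ∧
      (e + 3 / 4 * κ) * (θ - 1) ≤ θ ^ (e + κ) - 1 := by
    refine ⟨min 2 ((e + κ) / (e + 3 / 4 * κ)), ?_, min_le_left _ _, ?_⟩
    · refine lt_min one_lt_two ?_
      rw [lt_div_iff₀ (by positivity)]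
      linarith
    · set θ := min 2 ((e + κ) / (e + 3 / 4 * κ)) with hθ
      have h1 : 1 < θ := by
        refine lt_min one_lt_two ?_
        rw [lt_div_iff₀ (by positivity)]
        linarith
      have h2 : θ ≤ (e + κ) / (e + 3 / 4 * κ) := min_le_right _ _
      have h3 := rpow_sub_one_ge (a := e + κ) h1 (by positivity)
      refine le_trans ?_ h3
      refine mul_le_mul_of_nonneg_right ?_ (by linarith)
      rw [le_div_iff₀ (by linarith)]
      rw [le_div_iff₀ (by positivity)] at h2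
      linarith
  have hθ0 : 0 < θ := by linarith
  have hθκ : 1 < θ ^ κ := Real.one_lt_rpow hθ1 hκ
  -- limits
  have hl1 : Tendsto (fun n : ℝ => (θ ^ e * f (n * θ ^ κ) - f n) / n - C * (θ - 1) / n) atTop
      (𝓝 (θ ^ (e + κ) * μ - μ - 0)) := by
    have ha : Tendsto (fun n : ℝ => n * θ ^ κ) atTop atTop :=
      tendsto_id.atTop_mul_const (by linarith)
    have hb : Tendsto (fun n : ℝ => f (n * θ ^ κ) / (n * θ ^ κ)) atTop (𝓝 μ) := hlim.comp ha
    have hc := (hb.const_mul (θ ^ (e + κ))).sub hlim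
    have hd : Tendsto (fun n : ℝ => C * (θ - 1) / n) atTop (𝓝 0) :=
      tendsto_const_nhds.div_atTop tendsto_id
    refine (hc.congr' ?_).sub hd
    filter_upwards [eventually_gt_atTop (0 : ℝ)] with n hn
    have : θ ^ (e + κ) = θ ^ e * θ ^ κ := Real.rpow_add hθ0 _ _
    rw [this]
    have h' : θ ^ κ ≠ 0 := by positivity
    field_simp
  have hgt : μ * (θ - 1) * (e + 5 / 8 * κ) < θ ^ (e + κ) * μ - μ - 0 := by
    have : μ * ((e + 3 / 4 * κ) * (θ - 1)) ≤ μ * (θ ^ (e + κ) - 1) :=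
      mul_le_mul_of_nonneg_left hθ3 hμ.le
    have h2 : 0 < μ * (θ - 1) * κ := by
      have : 0 < θ - 1 := by linarith
      positivity
    nlinarith
  have hev1 := hl1.eventually_const_lt hgt
  have hlt2 : μ < μ + μ * κ / (16 * (e + 1)) := by
    have : 0 < μ * κ / (16 * (e + 1)) := by positivity
    linarith
  have hev2 := hlim.eventually_lt_const hlt2
  have hev3 := hlim.eventually_const_lt hμ
  obtain ⟨N, hN⟩ := ((hev1.and (hev2.and hev3)).and
    ((eventually_ge_atTop n1).and (eventually_gt_atTop (0 : ℝ)))).exists_forall_of_atTop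
  -- choice of θ1
  obtain ⟨θ1, h11, h12, h13⟩ : ∃ θ1 : ℝ, 1 < θ1 ∧ θ1 < θ ∧
      e * (θ1 - 1) * (e + 5 / 8 * κ) ≤ κ / 16 := by
    refine ⟨1 + min ((θ - 1) / 2) (κ / (16 * (e + 1) ^ 2)), ?_, ?_, ?_⟩
    · have : 0 < min ((θ - 1) / 2) (κ / (16 * (e + 1) ^ 2)) :=
        lt_min (by linarith) (by positivity)
      linarith
    · have := min_le_left ((θ - 1) / 2) (κ / (16 * (e + 1) ^ 2))
      linarith
    · have h1 := min_le_right ((θ - 1) / 2) (κ / (16 * (e + 1) ^ 2))
      rw [add_sub_cancel_left]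
      calc e * min ((θ - 1) / 2) (κ / (16 * (e + 1) ^ 2)) * (e + 5 / 8 * κ)
          ≤ e * (κ / (16 * (e + 1) ^ 2)) * (e + 5 / 8 * κ) := by
            gcongr
        _ = κ / 16 * (e * (e + 5 / 8 * κ) / (e + 1) ^ 2) := by
            field_simp
        _ ≤ κ / 16 * 1 := by
            gcongr
            rw [div_le_one (by positivity)]
            nlinarith
        _ = κ / 16 := mul_one _
  -- step 1
  have step1 : ∀ n θ' : ℝ, N ≤ n → 1 < θ' → θ' ≤ θ1 →
      (θ' - 1) * n * (μ * κ / 2) ≤ f (n * θ' ^ κ) - f n := by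
    intro n θ' hn h1 h2
    obtain ⟨⟨ha, hb, hc⟩, hd, hn0⟩ := hN n hn
    have hk := key n θ' θ hd h1 (by linarith) hθ2
    have hθ10 : 0 < θ - 1 := by linarith
    have h1' : 0 < θ' - 1 := by linarith
    have hfn : 0 < f n := by
      rw [lt_div_iff₀ hn0] at hc
      linarith
    set D := (θ ^ e * f (n * θ ^ κ) - f n) / (θ - 1) - C with hD
    have hk2 : f n + (θ' - 1) * D ≤ θ' ^ e * f (n * θ' ^ κ) := by
      have : (1 - (θ' - 1) / (θ - 1)) * f n + (θ' - 1) / (θ - 1) * (θ ^ e * f (n * θ ^ κ)) =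
          f n + (θ' - 1) * D + C * (θ' - 1) := by
        rw [hD]
        field_simp
        ring
      linarith
    have hDn : μ * (e + 5 / 8 * κ) * n ≤ D := by
      have : μ * (θ - 1) * (e + 5 / 8 * κ) * n < (θ ^ e * f (n * θ ^ κ) - f n) - C * (θ - 1) := by
        have h3 : (θ ^ e * f (n * θ ^ κ) - f n) / n - C * (θ - 1) / n =
          ((θ ^ e * f (n * θ ^ κ) - f n) - C * (θ - 1)) / n := by ring
        rw [h3, lt_div_iff₀ hn0] at ha
        exact ha
      rw [hD, le_sub_iff_add_le, le_div_iff₀ hθ10]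
      nlinarith
    have hfn2 : e * f n ≤ n * μ * e + n * μ * κ / 16 := by
      rw [div_lt_iff₀ hn0] at hb
      have h4 : e * f n ≤ e * ((μ + μ * κ / (16 * (e + 1))) * n) :=
        mul_le_mul_of_nonneg_left hb.le he
      have h5 : e * (μ * κ / (16 * (e + 1))) ≤ μ * κ / 16 := by
        rw [show e * (μ * κ / (16 * (e + 1))) = (μ * κ / 16) * (e / (e + 1)) by field_simp]
        have : e / (e + 1) ≤ 1 := by
          rw [div_le_one (by positivity)]
          linarith
        have h6 : 0 ≤ μ * κ / 16 := by positivity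
        nlinarith
      nlinarith
    have hbern := rpow_neg_ge h1.le he
    have hbern2 : 1 - e * (θ1 - 1) ≤ θ' ^ (-e) := by nlinarith
    have hθ'0 : 0 < θ' := by linarith
    have hfe : θ' ^ (-e) * (f n + (θ' - 1) * D) ≤ f (n * θ' ^ κ) := by
      have h7 : 0 < θ' ^ (-e) := by positivity
      calc θ' ^ (-e) * (f n + (θ' - 1) * D) ≤ θ' ^ (-e) * (θ' ^ e * f (n * θ' ^ κ)) :=
            mul_le_mul_of_nonneg_left hk2 h7.le
        _ = f (n * θ' ^ κ) := by
            rw [← mul_assoc, ← Real.rpow_add hθ'0]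
            simp
    have hDpos : 0 ≤ D := le_trans (by positivity) hDn
    -- lower bound for θ'^{-e} D
    have h8 : μ * n * (e + 9 / 16 * κ) ≤ θ' ^ (-e) * D := by
      calc μ * n * (e + 9 / 16 * κ) ≤ (1 - e * (θ1 - 1)) * (μ * (e + 5 / 8 * κ) * n) := by
            have : 0 < μ * n := by positivity
            nlinarith
        _ ≤ θ' ^ (-e) * (μ * (e + 5 / 8 * κ) * n) :=
            mul_le_mul_of_nonneg_right hbern2 (by positivity)
        _ ≤ θ' ^ (-e) * D := mul_le_mul_of_nonneg_left hDn (by positivity)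
    have h9 : f n - e * (θ' - 1) * f n ≤ θ' ^ (-e) * f n := by
      have := mul_le_mul_of_nonneg_right hbern hfn.le
      linarith
    calc (θ' - 1) * n * (μ * κ / 2) = (θ' - 1) * (μ * n * (e + 9 / 16 * κ) -
          (n * μ * e + n * μ * κ / 16)) := by ring
      _ ≤ (θ' - 1) * (θ' ^ (-e) * D - e * f n) := by
          apply mul_le_mul_of_nonneg_left _ h1'.le
          linarith
      _ ≤ f (n * θ' ^ κ) - f n := by
          nlinarith
  have hrr : 1 < θ1 ^ κ := Real.one_lt_rpow h11 hκ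
  -- step 2
  have step2 : ∀ n m : ℝ, N ≤ n → n < m → m ≤ n * θ1 ^ κ → μ / 2 * (m - n) ≤ f m - f n := by
    intro n m hn hnm hm
    have hn0 : 0 < n := (hN n hn).2.2
    have hm0 : 0 < m := by linarith
    set θ' := (m / n) ^ (1 / κ) with hθ'
    have hmn : 1 < m / n := by rwa [one_lt_div hn0]
    have h1 : 1 < θ' := Real.one_lt_rpow hmn (by positivity)
    have hpow : θ' ^ κ = m / n := by
      rw [hθ', ← Real.rpow_mul (by positivity)]
      rw [one_div_mul_cancel hκ.ne', Real.rpow_one]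
    have h2 : θ' ≤ θ1 := by
      have : θ' ^ κ ≤ θ1 ^ κ := by
        rw [hpow, div_le_iff₀ hn0]
        linarith
      exact (Real.rpow_le_rpow_iff (by linarith) (by linarith) hκ).mp this
    have h3 := step1 n θ' hn h1 h2
    have h4 : n * θ' ^ κ = m := by
      rw [hpow]
      field_simp
    rw [h4] at h3
    have h5 : θ' ^ κ ≤ 1 + κ * (θ' - 1) := by
      have := rpow_one_add_le_one_add_mul_self (s := θ' - 1) (by linarith) hκ.le hκ1
      rwa [add_sub_cancel] at this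
    have h6 : m - n ≤ n * (κ * (θ' - 1)) := by
      rw [← h4]
      nlinarith
    calc μ / 2 * (m - n) ≤ μ / 2 * (n * (κ * (θ' - 1))) :=
          mul_le_mul_of_nonneg_left h6 (by positivity)
      _ = (θ' - 1) * n * (μ * κ / 2) := by ring
      _ ≤ f m - f n := h3
  -- step 3
  have step3 : ∀ k : ℕ, ∀ n m : ℝ, N ≤ n → n < m → m ≤ n * (θ1 ^ κ) ^ k →
      μ / 2 * (m - n) ≤ f m - f n := by
    intro k
    induction k with
    | zero =>
      intro n m hn hnm hm
      simp at hm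
      linarith
    | succ k ih =>
      intro n m hn hnm hm
      have hn0 : 0 < n := (hN n hn).2.2
      by_cases hc : m ≤ n * θ1 ^ κ
      · exact step2 n m hn hnm hc
      · push Not at hc
        have hnn : n < n * θ1 ^ κ := by nlinarith
        have h1 := step2 n (n * θ1 ^ κ) hn hnn le_rfl
        have h2 := ih (n * θ1 ^ κ) m (by linarith) hc (by rw [mul_assoc, ← pow_succ']; exact hm)
        linarith
  refine ⟨μ / 2, N, by positivity, ?_⟩
  intro n m hn hnm
  have hn0 : 0 < n := (hN n hn).2.2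
  obtain ⟨k, hk⟩ := pow_unbounded_of_one_lt (m / n) hrr
  refine step3 k n m hn hnm ?_
  rw [div_lt_iff₀ hn0] at hk
  linarith

end Pool.Agent.Work.MP_4035b7_pr
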