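import Pool.Agent.Work.MP_4035b7_pr.Geo
import Pool.Agent.Work.MP_4035b7_pr.Stretch
import Pool.Agent.Work.MP_4035b7_pr.Conc

open MeasureTheory ProbabilityTheory Filter
open scoped ENNReal NNReal Topology

namespace Pool.Agent.Work.MP_4035b7_pr

theorem fb_rpow_pos (d : ℕ) (α : ℝ) {θ : ℝ} (hθ : 0 < θ) : 0 < (fb d α θ) ^ (-α) :=
  Real.rpow_pos_of_pos (Real.rpow_pos_of_pos hθ _) _

theorem A_sub {d : ℕ} (α θ : ℝ) (u v : E d) : A α θ (u - v) = A α θ u - A α θ v :=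
  stretch_sub _ _ _ _

theorem cost_conc {d : ℕ} {α : ℝ} (hα : 0 < α) {θ' θ : ℝ} (h1 : 1 < θ') (h2 : θ' < θ)
    (v : E d) :
    (1 - (θ' - 1) / (θ - 1)) * ‖v‖ ^ α +
      (θ' - 1) / (θ - 1) * ((fb d α θ) ^ (-α) * ‖A α θ v‖ ^ α) ≤
      (fb d α θ') ^ (-α) * ‖A α θ' v‖ ^ α := by
  have hθ1 : (0 : ℝ) < θ - 1 := by linarith
  have ht0 : 0 ≤ (θ' - 1) / (θ - 1) := div_nonneg (by linarith) hθ1.le
  have ht1 : (θ' - 1) / (θ - 1) ≤ 1 := by rw [div_le_one hθ1]; linarith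
  set t := (θ' - 1) / (θ - 1) with ht
  have hY : 0 ≤ ‖v‖ ^ 2 - (v 0) ^ 2 := sub_nonneg.2 (sq_le_norm_sq v)
  have hc := (concaveOn_cost hα (sq_nonneg (v 0)) hY).2 (show (1 : ℝ) ∈ Set.Ioi (0 : ℝ) by
    simp) (show θ ∈ Set.Ioi (0 : ℝ) by simp only [Set.mem_Ioi]; linarith)
    (sub_nonneg.2 ht1) ht0 (by ring)
  have hθ' : (1 - t) • (1 : ℝ) + t • θ = θ' := by
    simp only [smul_eq_mul, mul_one]
    have : t * (θ - 1) = θ' - 1 := by rw [ht]; field_simp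
    linarith
  rw [hθ'] at hc
  rw [cost_A hα (by linarith) v, cost_A hα (by linarith) v]
  have h1' : ((1 : ℝ) ^ (rho α) * (v 0) ^ 2 + (‖v‖ ^ 2 - (v 0) ^ 2)) ^ (α / 2) = ‖v‖ ^ α := by
    rw [Real.one_rpow, one_mul, add_sub_cancel, ← Real.rpow_natCast, ← Real.rpow_mul (norm_nonneg _)]
    congr 1
    push_cast
    ring
  simp only [smul_eq_mul] at hc
  rw [h1'] at hc
  exact hc

theorem key_ineq {d : ℕ} {α : ℝ} (hα : 0 < α) {Q : Set (E d)} {x y : E d} {θ' θ : ℝ}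
    (h1 : 1 < θ') (h2 : θ' < θ) (h3 : θ ≤ 2)
    (gx : Good Q x) (gy : Good Q y)
    (gx' : Good (A α θ' '' Q) (A α θ' x)) (gy' : Good (A α θ' '' Q) (A α θ' y))
    (gx'' : Good (A α θ '' Q) (A α θ x)) (gy'' : Good (A α θ '' Q) (A α θ y))
    {ex' ey' ex ey : ℝ}
    (hex' : ∀ p ∈ near Q x, ∀ p' ∈ Q, A α θ' p' ∈ near (A α θ' '' Q) (A α θ' x) →
      ‖p - p'‖ ^ α ≤ ex')
    (hey' : ∀ p ∈ near Q y, ∀ p' ∈ Q, A α θ' p' ∈ near (A α θ' '' Q) (A α θ' y) →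
      ‖p - p'‖ ^ α ≤ ey')
    (hex : ∀ p ∈ near Q x, ∀ p' ∈ Q, A α θ p' ∈ near (A α θ '' Q) (A α θ x) →
      ‖p - p'‖ ^ α ≤ ex)
    (hey : ∀ p ∈ near Q y, ∀ p' ∈ Q, A α θ p' ∈ near (A α θ '' Q) (A α θ y) →
      ‖p - p'‖ ^ α ≤ ey) :
    (1 - (θ' - 1) / (θ - 1)) * T α Q x y +
      (θ' - 1) / (θ - 1) *
        ((fb d α θ) ^ (-α) * T α (A α θ '' Q) (A α θ x) (A α θ y)) ≤
    (fb d α θ') ^ (-α) * T α (A α θ' '' Q) (A α θ' x) (A α θ' y) + 2 * (ex' + ey') +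
      (θ' - 1) / (θ - 1) * (2 * (ex + ey)) := by
  have hθ1 : (0 : ℝ) < θ - 1 := by linarith
  have ht0 : 0 ≤ (θ' - 1) / (θ - 1) := div_nonneg (by linarith) hθ1.le
  have ht1 : (θ' - 1) / (θ - 1) ≤ 1 := by rw [div_le_one hθ1]; linarith
  have hconc := fun v => cost_conc (d := d) hα h1 h2 v
  set t := (θ' - 1) / (θ - 1) with ht
  have hb' : 0 < (fb d α θ') ^ (-α) := fb_rpow_pos d α (by linarith)
  have hb : 0 < (fb d α θ) ^ (-α) := fb_rpow_pos d α (by linarith)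
  set b' := (fb d α θ') ^ (-α) with hb'def
  set b := (fb d α θ) ^ (-α) with hbdef
  -- the points
  have npx := near_nr gx
  have npy := near_nr gy
  set px := nr Q x with hpx
  set py := nr Q y with hpy
  have nx' := near_nr gx'
  have ny' := near_nr gy'
  have nx'' := near_nr gx''
  have ny'' := near_nr gy''
  obtain ⟨qx, hqxQ, hqx⟩ := nx''.1
  obtain ⟨qy, hqyQ, hqy⟩ := ny''.1
  -- reduce to chains
  have main : ((1 - t) * T α Q x y + t * (b * T α (A α θ '' Q) (A α θ x) (A α θ y)) -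
      2 * (ex' + ey') - t * (2 * (ex + ey))) / b' ≤ T α (A α θ' '' Q) (A α θ' x) (A α θ' y) := by
    refine le_PT nx'.1 ny'.1 ?_
    intro k w hk hw0 hwk hwQ
    have hch : ∀ i : ℕ, ∃ v : E d, i ≤ k → (v ∈ Q ∧ A α θ' v = w i) := by
      intro i
      by_cases hi : i ≤ k
      · obtain ⟨v, hv, hv'⟩ := hwQ i hi
        exact ⟨v, fun _ => ⟨hv, hv'⟩⟩
      · exact ⟨0, fun h => absurd h hi⟩
    choose u hu using hch
    have hu0 := hu 0 (by omega)
    have huk := hu k le_rfl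
    have e1 : ‖px - u 0‖ ^ α ≤ ex' := hex' px npx (u 0) hu0.1 (by rw [hu0.2, hw0]; exact nx')
    have e2 : ‖py - u k‖ ^ α ≤ ey' := hey' py npy (u k) huk.1 (by rw [huk.2, hwk]; exact ny')
    have e3 : ‖px - qx‖ ^ α ≤ ex := hex px npx qx hqxQ (by rw [hqx]; exact nx'')
    have e4 : ‖py - qy‖ ^ α ≤ ey := hey py npy qy hqyQ (by rw [hqy]; exact ny'')
    -- unstretched bound
    have f1 : T α Q x y ≤ ‖px - u 0‖ ^ α +
        (∑ i ∈ Finset.range k, ‖u i - u (i + 1)‖ ^ α) + ‖u k - py‖ ^ α := by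
      have a1 := PT_triangle (α := α) npx.1 hu0.1 npy.1
      have a2 := PT_triangle (α := α) hu0.1 huk.1 npy.1
      have a3 := PT_le_rpow (α := α) npx.1 hu0.1
      have a4 := PT_le_rpow (α := α) huk.1 npy.1
      have a5 := PT_le_sum (α := α) hk u (fun i hi => (hu i hi).1)
      have a6 : T α Q x y = PT α Q px py := rfl
      rw [a6]; linarith
    -- stretched bound
    have mem : ∀ v ∈ Q, A α θ v ∈ A α θ '' Q := fun v hv => ⟨v, hv, rfl⟩
    have f2 : T α (A α θ '' Q) (A α θ x) (A α θ y) ≤ ‖A α θ (qx - px)‖ ^ α +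
        ‖A α θ (px - u 0)‖ ^ α +
        (∑ i ∈ Finset.range k, ‖A α θ (u i - u (i + 1))‖ ^ α) + ‖A α θ (u k - py)‖ ^ α +
        ‖A α θ (py - qy)‖ ^ α := by
      have mqx := mem _ hqxQ
      have mqy := mem _ hqyQ
      have mpx := mem _ npx.1
      have mpy := mem _ npy.1
      have mu0 := mem _ hu0.1
      have muk := mem _ huk.1
      have a1 := PT_triangle (α := α) mqx mpx mqy
      have a2 := PT_triangle (α := α) mpx mu0 mqy
      have a3 := PT_triangle (α := α) mu0 muk mqy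
      have a4 := PT_triangle (α := α) muk mpy mqy
      have a5 := PT_le_rpow (α := α) mqx mpx
      have a6 := PT_le_rpow (α := α) mpx mu0
      have a7 := PT_le_rpow (α := α) muk mpy
      have a8 := PT_le_rpow (α := α) mpy mqy
      have a9 := PT_le_sum (α := α) hk (fun i => A α θ (u i)) (fun i hi => mem _ (hu i hi).1)
      have a10 : T α (A α θ '' Q) (A α θ x) (A α θ y) =
        PT α (A α θ '' Q) (A α θ qx) (A α θ qy) := by rw [hqx, hqy]; rfl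
      simp only [A_sub]
      rw [a10]
      linarith
    have hrev : ‖A α θ (qx - px)‖ = ‖A α θ (px - qx)‖ := by
      rw [A_sub, A_sub, norm_sub_rev]
    have hrev2 : ‖A α θ' (u k - py)‖ = ‖A α θ' (py - u k)‖ := by
      rw [A_sub, A_sub, norm_sub_rev]
    have g1 : b * ‖A α θ (px - qx)‖ ^ α ≤ 2 * ‖px - qx‖ ^ α :=
      cost_A_le hα (by linarith) h3 _
    have g2 : b * ‖A α θ (py - qy)‖ ^ α ≤ 2 * ‖py - qy‖ ^ α :=
      cost_A_le hα (by linarith) h3 _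
    have g3 : b' * ‖A α θ' (px - u 0)‖ ^ α ≤ 2 * ‖px - u 0‖ ^ α :=
      cost_A_le hα (by linarith) (by linarith) _
    have g4 : b' * ‖A α θ' (py - u k)‖ ^ α ≤ 2 * ‖py - u k‖ ^ α :=
      cost_A_le hα (by linarith) (by linarith) _
    have c1 := hconc (px - u 0)
    have c2 := hconc (u k - py)
    have c3 : (1 - t) * (∑ i ∈ Finset.range k, ‖u i - u (i + 1)‖ ^ α) +
        t * (b * ∑ i ∈ Finset.range k, ‖A α θ (u i - u (i + 1))‖ ^ α) ≤
        b' * ∑ i ∈ Finset.range k, ‖A α θ' (u i - u (i + 1))‖ ^ α := by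
      simp only [Finset.mul_sum]
      rw [← Finset.sum_add_distrib]
      exact Finset.sum_le_sum fun i _ => hconc (u i - u (i + 1))
    have c4 : ∑ i ∈ Finset.range k, ‖A α θ' (u i - u (i + 1))‖ ^ α =
        ∑ i ∈ Finset.range k, ‖w i - w (i + 1)‖ ^ α := by
      refine Finset.sum_congr rfl fun i hi => ?_
      rw [Finset.mem_range] at hi
      rw [A_sub, (hu i (by omega)).2, (hu (i + 1) (by omega)).2]
    rw [c4] at c3
    rw [div_le_iff₀ hb']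
    have k1 := mul_le_mul_of_nonneg_left f1 (sub_nonneg.2 ht1)
    have k2 := mul_le_mul_of_nonneg_left (mul_le_mul_of_nonneg_left f2 hb.le) ht0
    have k3 : t * (b * ‖A α θ (qx - px)‖ ^ α) ≤ t * (2 * ex) := by
      rw [hrev]
      exact mul_le_mul_of_nonneg_left (g1.trans (by linarith)) ht0
    have k4 : t * (b * ‖A α θ (py - qy)‖ ^ α) ≤ t * (2 * ey) :=
      mul_le_mul_of_nonneg_left (g2.trans (by linarith)) ht0
    rw [hrev2] at c2
    have k5 : b' * ∑ i ∈ Finset.range k, ‖w i - w (i + 1)‖ ^ α =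
      (∑ i ∈ Finset.range k, ‖w i - w (i + 1)‖ ^ α) * b' := mul_comm _ _
    nlinarith [k1, k2, k3, k4, c1, c2, c3, g3, g4, e1, e2, k5]
  rw [div_le_iff₀ hb'] at main
  linarith [mul_comm b' (T α (A α θ' '' Q) (A α θ' x) (A α θ' y))]

end Pool.Agent.Work.MP_4035b7_pr
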