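import Pool.Agent.Work.MP_4035b7_pr.Mean

open MeasureTheory ProbabilityTheory Filter
open scoped ENNReal NNReal Topology

namespace Pool.Agent.Work.MP_4035b7_pr

section Main
variable {d : ℕ} {Ω : Type*} [MeasurableSpace Ω] {P : Measure Ω} [IsProbabilityMeasure P]
  {Q : Ω → Set (E d)} {α : ℝ}

theorem stretch_zero (a b : ℝ) : stretch a b (0 : E d) = 0 := by
  have := stretch_sub a b (0 : E d) 0
  simpa using this

/-- The mean passage time in the stretched process. -/
theorem mean_stretch (hQ : IsPoisson P Q) (hα : 0 < α) {θ : ℝ} (hθ : 0 < θ) (n : ℝ) :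
    ∫ ω, T α (A α θ '' Q ω) (A α θ 0) (A α θ (n • e1 d)) ∂P = mean P Q α (fa d α θ * n) := by
  unfold A
  rw [stretch_zero, stretch_e1]
  exact mean_eq (hQ.stretchA α hθ) hQ hα _ _

theorem integral_toReal_le {g : Ω → ℝ≥0∞} (hg : Measurable g) {c : ℝ} (hc : 0 ≤ c)
    (h : ∫⁻ ω, g ω ∂P ≤ ENNReal.ofReal c) :
    Integrable (fun ω => (g ω).toReal) P ∧ ∫ ω, (g ω).toReal ∂P ≤ c ∧ ∀ᵐ ω ∂P, g ω < ∞ := by
  have hfin : ∫⁻ ω, g ω ∂P ≠ ∞ := (h.trans_lt ENNReal.ofReal_lt_top).ne
  have hae := ae_lt_top hg hfin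
  refine ⟨integrable_toReal_of_lintegral_ne_top hg.aemeasurable hfin, ?_, hae⟩
  rw [integral_toReal hg.aemeasurable hae]
  exact ENNReal.toReal_le_of_le_ofReal hc h

theorem le_toReal_of {a : ℝ} {b : ℝ≥0∞} (hb : b < ∞) (h : ENNReal.ofReal a ≤ b) : a ≤ b.toReal := by
  rcases le_or_gt a 0 with h0 | h0
  · exact h0.trans ENNReal.toReal_nonneg
  · have := ENNReal.toReal_mono hb.ne h
    rwa [ENNReal.toReal_ofReal h0.le] at this

theorem mean_key (hQ : IsPoisson P Q) (hα : 0 < α) : ∃ C : ℝ, ∀ n θ' θ : ℝ,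
    1 < θ' → θ' < θ → θ ≤ 2 →
      (1 - (θ' - 1) / (θ - 1)) * mean P Q α n +
        (θ' - 1) / (θ - 1) * ((fb d α θ) ^ (-α) * mean P Q α (fa d α θ * n)) ≤
        (fb d α θ') ^ (-α) * mean P Q α (fa d α θ' * n) + C * (θ' - 1) := by
  obtain ⟨K, hK, hend⟩ := endpoint_bound (d := d) P hα
  refine ⟨8 * K, fun n θ' θ h1 h2 h3 => ?_⟩
  have hθ'0 : 0 < θ' := by linarith
  have hθ0 : 0 < θ := by linarith
  have hθ1 : (0 : ℝ) < θ - 1 := by linarith
  have ht0 : 0 ≤ (θ' - 1) / (θ - 1) := div_nonneg (by linarith) hθ1.le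
  obtain ⟨gx', mx', ix', bx'⟩ := hend Q hQ θ' h1 (by linarith) 0
  obtain ⟨gy', my', iy', by'⟩ := hend Q hQ θ' h1 (by linarith) (n • e1 d)
  obtain ⟨gx, mx, ix, bx⟩ := hend Q hQ θ (by linarith) h3 0
  obtain ⟨gy, my, iy, by''⟩ := hend Q hQ θ (by linarith) h3 (n • e1 d)
  obtain ⟨jx', kx', fx'⟩ := integral_toReal_le mx' (by positivity) ix'
  obtain ⟨jy', ky', fy'⟩ := integral_toReal_le my' (by positivity) iy'
  obtain ⟨jx, kx, fx⟩ := integral_toReal_le mx (by positivity) ix
  obtain ⟨jy, ky, fy⟩ := integral_toReal_le my (by positivity) iy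
  have hA' := hQ.stretchA α hθ'0
  have hA := hQ.stretchA α hθ0
  set t := (θ' - 1) / (θ - 1) with ht
  set b' := (fb d α θ') ^ (-α) with hb'
  set b := (fb d α θ) ^ (-α) with hb
  have I0 := integrable_T hQ hα 0 (n • e1 d)
  have I' := integrable_T hA' hα (A α θ' 0) (A α θ' (n • e1 d))
  have I := integrable_T hA hα (A α θ 0) (A α θ (n • e1 d))
  have hle : ∫ ω, ((1 - t) * T α (Q ω) 0 (n • e1 d) +
      t * (b * T α (A α θ '' Q ω) (A α θ 0) (A α θ (n • e1 d)))) ∂P ≤
      ∫ ω, (b' * T α (A α θ' '' Q ω) (A α θ' 0) (A α θ' (n • e1 d)) +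
        2 * ((gx' ω).toReal + (gy' ω).toReal) +
        t * (2 * ((gx ω).toReal + (gy ω).toReal))) ∂P := by
    refine integral_mono_ae ((I0.const_mul _).add ((I.const_mul _).const_mul _))
      (((I'.const_mul _).add ((jx'.add jy').const_mul _)).add
        (((jx.add jy).const_mul _).const_mul _)) ?_
    filter_upwards [ae_good hQ 0, ae_good hQ (n • e1 d), ae_good hA' (A α θ' 0),
      ae_good hA' (A α θ' (n • e1 d)), ae_good hA (A α θ 0), ae_good hA (A α θ (n • e1 d)),
      fx', fy', fx, fy] with ω g1 g2 g3 g4 g5 g6 l1 l2 l3 l4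
    exact key_ineq hα h1 h2 h3 g1 g2 g3 g4 g5 g6
      (fun p hp p' hp' hn => le_toReal_of l1 (bx' ω p hp p' hp' hn))
      (fun p hp p' hp' hn => le_toReal_of l2 (by' ω p hp p' hp' hn))
      (fun p hp p' hp' hn => le_toReal_of l3 (bx ω p hp p' hp' hn))
      (fun p hp p' hp' hn => le_toReal_of l4 (by'' ω p hp p' hp' hn))
  have R1 : ∫ ω, (b' * T α (A α θ' '' Q ω) (A α θ' 0) (A α θ' (n • e1 d)) +
        2 * ((gx' ω).toReal + (gy' ω).toReal) +
        t * (2 * ((gx ω).toReal + (gy ω).toReal))) ∂P =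
      b' * mean P Q α (fa d α θ' * n) +
        2 * (∫ ω, (gx' ω).toReal ∂P + ∫ ω, (gy' ω).toReal ∂P) +
        t * (2 * (∫ ω, (gx ω).toReal ∂P + ∫ ω, (gy ω).toReal ∂P)) := by
    have J1 : Integrable (fun ω => 2 * ((gx' ω).toReal + (gy' ω).toReal)) P :=
      (jx'.add jy').const_mul _
    have J2 : Integrable (fun ω => t * (2 * ((gx ω).toReal + (gy ω).toReal))) P :=
      ((jx.add jy).const_mul _).const_mul _
    have J3 : Integrable (fun ω => b' * T α (A α θ' '' Q ω) (A α θ' 0) (A α θ' (n • e1 d))) P :=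
      I'.const_mul _
    have J4 : Integrable (fun ω => b' * T α (A α θ' '' Q ω) (A α θ' 0) (A α θ' (n • e1 d)) +
        2 * ((gx' ω).toReal + (gy' ω).toReal)) P := J3.add J1
    rw [integral_add J4 J2, integral_add J3 J1, integral_const_mul, integral_const_mul,
      integral_const_mul, integral_const_mul, integral_add jx' jy', integral_add jx jy,
      mean_stretch hQ hα hθ'0]
  have R2 : ∫ ω, ((1 - t) * T α (Q ω) 0 (n • e1 d) +
      t * (b * T α (A α θ '' Q ω) (A α θ 0) (A α θ (n • e1 d)))) ∂P =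
      (1 - t) * mean P Q α n + t * (b * mean P Q α (fa d α θ * n)) := by
    have J1 : Integrable (fun ω => (1 - t) * T α (Q ω) 0 (n • e1 d)) P := I0.const_mul _
    have J2 : Integrable (fun ω => t * (b * T α (A α θ '' Q ω) (A α θ 0)
      (A α θ (n • e1 d)))) P := (I.const_mul _).const_mul _
    rw [integral_add J1 J2, integral_const_mul, integral_const_mul, integral_const_mul,
      mean_stretch hQ hα hθ0]
    rfl
  rw [R1, R2] at hle
  have hfin : t * (2 * (K * (θ - 1) + K * (θ - 1))) = 4 * K * (θ' - 1) := by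
    rw [ht]; field_simp; ring
  have hmono : t * (2 * (∫ ω, (gx ω).toReal ∂P + ∫ ω, (gy ω).toReal ∂P)) ≤
      t * (2 * (K * (θ - 1) + K * (θ - 1))) :=
    mul_le_mul_of_nonneg_left (by linarith) ht0
  nlinarith [hle, hfin, hmono, kx', ky']

/-- Dimension at least two. -/
theorem main_two (hd : 1 ≤ d) (hQ : IsPoisson P Q) (hα : 1 < α) :
    ∃ c n0 : ℝ, 0 < c ∧ ∀ n m : ℝ, n0 ≤ n → n < m →
      c * (m - n) ≤ mean P Q α m - mean P Q α n := by
  have hα0 : 0 < α := by linarith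
  obtain ⟨B, hB⟩ := mean_bdd hQ hα0
  obtain ⟨μ, hμ0, hlim⟩ := fekete (f := mean P Q α) (fun x _ => mean_nonneg x)
    (fun x y _ _ => mean_subadd hQ hα0 x y) hB
  obtain ⟨c, n1, hc, hlow⟩ := mean_lower hQ hα.le
  have hμ : 0 < μ := by
    refine lt_of_lt_of_le hc (ge_of_tendsto hlim ?_)
    filter_upwards [eventually_ge_atTop n1, eventually_gt_atTop 0] with n hn hn0
    rw [le_div_iff₀ hn0]
    exact hlow n hn
  obtain ⟨C, hkey⟩ := mean_key hQ hα0
  have hρ : 0 < rho α := lt_min one_pos (by positivity)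
  have hρ1 : rho α ≤ 1 := min_le_left _ _
  have hdpos : (0 : ℝ) < d := by exact_mod_cast hd
  refine eventually_increasing (f := mean P Q α) (μ := μ)
    (κ := rho α * d / (2 * (d + 1))) (e := α * (rho α / (2 * (d + 1)))) (C := C) (n1 := 0)
    (by positivity) ?_ (by positivity) hμ hlim ?_
  · rw [div_le_one (by positivity)]
    nlinarith
  · intro n θ' θ _ h1 h2 h3
    have hk := hkey n θ' θ h1 h2 h3
    have hfb : ∀ s : ℝ, 0 < s → (fb d α s) ^ (-α) = s ^ (α * (rho α / (2 * (d + 1)))) := by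
      intro s hs
      unfold fb
      rw [← Real.rpow_mul hs.le]
      congr 1
      ring
    rw [hfb θ (by linarith), hfb θ' (by linarith)] at hk
    unfold fa at hk
    rw [mul_comm n, mul_comm n]
    exact hk

/-- Dimension one. -/
theorem main_one {Q : Ω → Set (E 0)} (hQ : IsPoisson P Q) (hα : 1 < α) :
    ∃ c n0 : ℝ, 0 < c ∧ ∀ n m : ℝ, n0 ≤ n → n < m →
      c * (m - n) ≤ mean P Q α m - mean P Q α n := by
  have hα0 : 0 < α := by linarith
  have hadd : ∀ x y : ℝ, 0 ≤ x → 0 ≤ y →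
      mean P Q α (x + y) = mean P Q α x + mean P Q α y := by
    intro x y hx hy
    refine le_antisymm (mean_subadd hQ hα0 x y) ?_
    rw [← mean_shift hQ hα0 x y]
    unfold mean
    rw [← integral_add (integrable_T hQ hα0 _ _) (integrable_T hQ hα0 _ _)]
    refine integral_mono_ae ((integrable_T hQ hα0 _ _).add (integrable_T hQ hα0 _ _))
      (integrable_T hQ hα0 _ _) ?_
    filter_upwards [ae_good hQ ((0 : ℝ) • e1 0), ae_good hQ (x • e1 0),
      ae_good hQ ((x + y) • e1 0)] with ω h1 h2 h3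
    have := dim1_superadd hα.le hx (show x ≤ x + y by linarith) h1 h2 h3
    rw [zero_smul] at this
    exact this
  have hlin := additive_linear (f := mean P Q α) (fun x _ => mean_nonneg x) hadd
  obtain ⟨c, n1, hc, hlow⟩ := mean_lower hQ hα.le
  have h1 : 0 < mean P Q α 1 := by
    have h2 := hlow (max n1 1) (le_max_left _ _)
    rw [hlin _ (by positivity)] at h2
    have h3 : (0 : ℝ) < max n1 1 := lt_max_of_lt_right one_pos
    have h4 : 0 < c * max n1 1 := mul_pos hc h3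
    exact pos_of_mul_pos_left (h4.trans_le h2) h3.le
  refine ⟨mean P Q α 1, 0, h1, fun n m hn hnm => ?_⟩
  rw [hlin n hn, hlin m (by linarith)]
  exact le_of_eq (by ring)

/-- Every difference quotient of the mean passage time is eventually bounded below by a positive
constant. -/
theorem main_all (hQ : IsPoisson P Q) (hα : 1 < α) :
    ∃ c n0 : ℝ, 0 < c ∧ ∀ n m : ℝ, n0 ≤ n → n < m →
      c * (m - n) ≤ mean P Q α m - mean P Q α n := by
  rcases Nat.eq_zero_or_pos d with hd | hd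
  · subst hd
    exact main_one hQ hα
  · exact main_two hd hQ hα

end Main

end Pool.Agent.Work.MP_4035b7_pr
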