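import Pool.Agent.Work.MP_4035b7_pr.Pois

/-!
Union bound over injective sequences of occupied lattice cells.
-/

set_option autoImplicit false

open MeasureTheory ProbabilityTheory Filter
open scoped ENNReal NNReal Topology

namespace Pool.Agent.Work.MP_4035b7_pr

theorem measurable_cell {d : ℕ} (ε : ℝ) : Measurable (cell (d := d) ε) := by
  apply measurable_pi_lambda
  intro i
  have h : Measurable (fun u : E d => u i) := by fun_prop
  exact Int.measurable_floor.comp (h.div_const ε)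

theorem measurableSet_cube {d : ℕ} (ε : ℝ) (z : Z d) : MeasurableSet (cube ε z) :=
  measurable_cell ε (measurableSet_singleton z)

theorem volume_cube {d : ℕ} {ε : ℝ} (hε : 0 < ε) (z : Z d) :
    volume (cube ε z) = ENNReal.ofReal (ε ^ (d + 1)) := by
  have h1 : cube ε z = (WithLp.ofLp : E d → (Fin (d + 1) → ℝ)) ⁻¹'
      (Set.univ.pi fun i => Set.Ico (ε * z i) (ε * z i + ε)) := by
    ext u
    simp only [cube, Set.mem_ofPred_eq, Set.mem_preimage, Set.mem_pi, Set.mem_univ,
      forall_true_left, Set.mem_Ico]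
    rw [funext_iff]
    apply forall_congr'
    intro i
    change ⌊u i / ε⌋ = z i ↔ _
    rw [Int.floor_eq_iff, le_div_iff₀ hε, div_lt_iff₀ hε]
    constructor
    · rintro ⟨h2, h3⟩
      constructor
      · linarith
      · linarith
    · rintro ⟨h2, h3⟩
      constructor
      · linarith
      · linarith
  rw [h1, (PiLp.volume_preserving_ofLp (Fin (d + 1))).measure_preimage
    (MeasurableSet.univ_pi fun i => measurableSet_Ico).nullMeasurableSet, Real.volume_pi_Ico]
  have h2 : ∀ i : Fin (d + 1), ENNReal.ofReal (ε * z i + ε - ε * z i) = ENNReal.ofReal ε := by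
    intro i
    congr 1
    ring
  rw [Finset.prod_congr rfl (fun i _ => h2 i), Finset.prod_const, Finset.card_univ,
    Fintype.card_fin, ENNReal.ofReal_pow hε.le]

/-- the weight of a displacement -/
noncomputable def wt {d : ℕ} (w : Z d) : ℝ≥0∞ :=
  ENNReal.ofReal (Real.exp (‖w‖ - 2 * max (‖w‖ - 1) 0))

theorem tsum_prod_eq_pow (g : ℤ → ℝ≥0∞) (n : ℕ) :
    ∑' w : Fin n → ℤ, ∏ i, g (w i) = (∑' a, g a) ^ n := by
  induction n with
  | zero =>
    rw [tsum_eq_single default]
    · simp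
    · intro b hb
      exact absurd (Subsingleton.elim b default) hb
  | succ n ih =>
    rw [← (Fin.consEquiv (fun _ : Fin (n + 1) => ℤ)).tsum_eq, ENNReal.tsum_prod', pow_succ',
      ← ENNReal.tsum_mul_right]
    apply tsum_congr
    intro a
    rw [← ih, ← ENNReal.tsum_mul_left]
    apply tsum_congr
    intro w
    rw [Fin.prod_univ_succ]
    simp [Fin.consEquiv]

theorem tsum_wt_lt_top (d : ℕ) : ∑' w : Z d, wt w < ∞ := by
  set c : ℝ := ((d : ℝ) + 1)⁻¹ with hc
  have hc0 : 0 < c := by positivity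
  set g : ℤ → ℝ≥0∞ := fun n => ENNReal.ofReal (Real.exp (-(c * |(n : ℝ)|))) with hg
  have hsum : Summable (fun n : ℤ => Real.exp (-(c * |(n : ℝ)|))) := by
    have hr : Summable (fun n : ℕ => Real.exp (-c) ^ n) :=
      summable_geometric_of_lt_one (Real.exp_pos _).le (by
        rw [← Real.exp_zero]
        exact Real.exp_lt_exp.2 (by linarith))
    have h1 : ∀ n : ℕ, Real.exp (-c) ^ n = Real.exp (-(c * n)) := by
      intro n
      rw [← Real.exp_nat_mul]
      congr 1
      ring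
    apply Summable.of_nat_of_neg
    · refine hr.congr (fun n => ?_)
      rw [h1]
      simp
    · refine hr.congr (fun n => ?_)
      rw [h1]
      simp
  have hgfin : ∑' n, g n ≠ ∞ := by
    rw [← ENNReal.ofReal_tsum_of_nonneg (fun n => (Real.exp_pos _).le) hsum]
    exact ENNReal.ofReal_ne_top
  have hle : ∀ w : Z d, wt w ≤ ENNReal.ofReal (Real.exp 2) * ∏ i, g (w i) := by
    intro w
    rw [wt, hg]
    simp only
    rw [← ENNReal.ofReal_prod_of_nonneg (fun i _ => (Real.exp_pos _).le),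
      ← ENNReal.ofReal_mul (Real.exp_pos _).le, ← Real.exp_sum, ← Real.exp_add]
    apply ENNReal.ofReal_le_ofReal
    apply Real.exp_le_exp.2
    have h1 : ∑ i, |((w i : ℤ) : ℝ)| ≤ (d + 1) * ‖w‖ := by
      have h2 : ∀ i ∈ (Finset.univ : Finset (Fin (d + 1))), |((w i : ℤ) : ℝ)| ≤ ‖w‖ := by
        intro i _
        have := norm_le_pi_norm w i
        rw [Int.norm_eq_abs] at this
        exact_mod_cast this
      calc ∑ i, |((w i : ℤ) : ℝ)| ≤ ∑ _i : Fin (d + 1), ‖w‖ := Finset.sum_le_sum h2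
        _ = (d + 1) * ‖w‖ := by
          rw [Finset.sum_const, Finset.card_univ, Fintype.card_fin, nsmul_eq_mul]
          push_cast
          ring
    have h3 : ∑ i, -(c * |((w i : ℤ) : ℝ)|) = -(c * ∑ i, |((w i : ℤ) : ℝ)|) := by
      rw [Finset.sum_neg_distrib, Finset.mul_sum]
    rw [h3]
    have h4 : c * ∑ i, |((w i : ℤ) : ℝ)| ≤ ‖w‖ := by
      calc c * ∑ i, |((w i : ℤ) : ℝ)| ≤ c * ((d + 1) * ‖w‖) :=
            mul_le_mul_of_nonneg_left h1 hc0.le
        _ = ‖w‖ := by
          rw [hc, ← mul_assoc, inv_mul_cancel₀ (by positivity), one_mul]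
    have h5 : ‖w‖ - 1 ≤ max (‖w‖ - 1) 0 := le_max_left _ _
    linarith
  calc ∑' w : Z d, wt w ≤ ∑' w : Z d, ENNReal.ofReal (Real.exp 2) * ∏ i, g (w i) :=
        ENNReal.tsum_le_tsum hle
    _ = ENNReal.ofReal (Real.exp 2) * (∑' a, g a) ^ (d + 1) := by
        rw [ENNReal.tsum_mul_left, tsum_prod_eq_pow]
    _ < ∞ := ENNReal.mul_lt_top ENNReal.ofReal_lt_top (ENNReal.pow_lt_top hgfin.lt_top)

open Classical in
theorem tsum_paths {d : ℕ} (S : Finset (Z d)) (m : ℕ) :
    ∑' z : Fin (m + 1) → Z d, (if z 0 ∈ S then (1 : ℝ≥0∞) else 0) *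
      ∏ i : Fin m, wt (z i.succ - z i.castSucc) = S.card * (∑' w : Z d, wt w) ^ m := by
  induction m with
  | zero =>
    have e : ∀ z : Fin (0 + 1) → Z d, (if z 0 ∈ S then (1 : ℝ≥0∞) else 0) *
        ∏ i : Fin 0, wt (z i.succ - z i.castSucc) =
        (fun a : Z d => if a ∈ S then (1 : ℝ≥0∞) else 0) ((Equiv.funUnique (Fin 1) (Z d)) z) := by
      intro z
      simp [Equiv.funUnique]
    rw [tsum_congr e, (Equiv.funUnique (Fin 1) (Z d)).tsum_eq
      (fun a : Z d => if a ∈ S then (1 : ℝ≥0∞) else 0), pow_zero, mul_one,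
      tsum_eq_sum (s := S) (fun a ha => if_neg ha), Finset.sum_congr rfl
      (fun a ha => if_pos ha), Finset.sum_const, nsmul_eq_mul, mul_one]
  | succ m ih =>
    rw [← (Fin.snocEquiv (fun _ : Fin (m + 1 + 1) => Z d)).tsum_eq, ENNReal.tsum_prod',
      ENNReal.tsum_comm]
    rw [pow_succ, ← mul_assoc, ← ih, ← ENNReal.tsum_mul_right]
    apply tsum_congr
    intro z
    have e : ∀ w : Z d, (if (Fin.snocEquiv (fun _ : Fin (m + 1 + 1) => Z d)) (w, z) 0 ∈ S then
        (1 : ℝ≥0∞) else 0) * ∏ i : Fin (m + 1),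
          wt ((Fin.snocEquiv (fun _ : Fin (m + 1 + 1) => Z d)) (w, z) i.succ -
            (Fin.snocEquiv (fun _ : Fin (m + 1 + 1) => Z d)) (w, z) i.castSucc) =
        ((if z 0 ∈ S then (1 : ℝ≥0∞) else 0) *
          ∏ i : Fin m, wt (z i.succ - z i.castSucc)) * wt (w - z (Fin.last m)) := by
      intro w
      have h0 : ∀ i : Fin (m + 1),
          (Fin.snocEquiv (fun _ : Fin (m + 1 + 1) => Z d)) (w, z) i.castSucc = z i := by
        intro i
        simp [Fin.snocEquiv]
      have h1 : (Fin.snocEquiv (fun _ : Fin (m + 1 + 1) => Z d)) (w, z) (Fin.last (m + 1)) =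
          w := by
        simp [Fin.snocEquiv]
      have h2 : (Fin.snocEquiv (fun _ : Fin (m + 1 + 1) => Z d)) (w, z) 0 = z 0 := h0 0
      rw [h2, Fin.prod_univ_castSucc]
      have h3 : ∀ i : Fin m, (Fin.snocEquiv (fun _ : Fin (m + 1 + 1) => Z d)) (w, z)
          i.castSucc.succ = z i.succ := fun i => h0 i.succ
      have h4 : (Fin.snocEquiv (fun _ : Fin (m + 1 + 1) => Z d)) (w, z) (Fin.last m).succ = w :=
        h1
      rw [h4, h0 (Fin.last m)]
      rw [Finset.prod_congr rfl (fun (i : Fin m) _ => by rw [h3 i, h0 i.castSucc])]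
      rw [mul_assoc]
    rw [tsum_congr e, ENNReal.tsum_mul_left]
    congr 1
    exact (Equiv.subRight (z (Fin.last m))).tsum_eq (fun w => wt w)

theorem cell_union_bound (d : ℕ) {Ω : Type*} [MeasurableSpace Ω] (P : Measure Ω)
    [IsProbabilityMeasure P] : ∃ ε K : ℝ, 0 < ε ∧ 0 ≤ K ∧
    ∀ Q : Ω → Set (E d), IsPoisson P Q → ∀ (S : Finset (Z d)) (H : ℝ),
      P {ω | ∃ (m : ℕ) (z : Fin (m + 1) → Z d), Function.Injective z ∧ z 0 ∈ S ∧
        (∀ i, (Q ω ∩ cube ε (z i)).Nonempty) ∧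
        H ≤ ∑ i : Fin m, (‖z i.succ - z i.castSucc‖ -
          2 * max (‖z i.succ - z i.castSucc‖ - 1) 0)} ≤
      ENNReal.ofReal (K * S.card * Real.exp (-H)) := by
  classical
  set K0 : ℝ≥0∞ := ∑' w : Z d, wt w with hK0
  have hK0top : K0 ≠ ∞ := (tsum_wt_lt_top d).ne
  set k0 : ℝ := K0.toReal with hk0
  have hk0nn : 0 ≤ k0 := ENNReal.toReal_nonneg
  set ε : ℝ := (2 * (k0 + 1))⁻¹ with hε
  have hε0 : 0 < ε := by positivity
  have hε1 : ε ≤ 1 := by
    rw [hε]
    apply inv_le_one_of_one_le₀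
    linarith
  set v : ℝ≥0∞ := ENNReal.ofReal (ε ^ (d + 1)) with hv
  have hεd : ε ^ (d + 1) ≤ ε := by
    calc ε ^ (d + 1) ≤ ε ^ 1 := pow_le_pow_of_le_one hε0.le hε1 (by omega)
      _ = ε := pow_one ε
  have hv1 : v ≤ 1 := by
    rw [hv, ← ENNReal.ofReal_one]
    exact ENNReal.ofReal_le_ofReal (hεd.trans hε1)
  have hvK : v * K0 ≤ 2⁻¹ := by
    have h1 : K0 = ENNReal.ofReal k0 := (ENNReal.ofReal_toReal hK0top).symm
    rw [h1, hv, ← ENNReal.ofReal_mul (by positivity)]
    have h2 : (2 : ℝ≥0∞)⁻¹ = ENNReal.ofReal (2⁻¹ : ℝ) := by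
      rw [ENNReal.ofReal_inv_of_pos two_pos]
      simp
    rw [h2]
    apply ENNReal.ofReal_le_ofReal
    calc ε ^ (d + 1) * k0 ≤ ε * k0 := mul_le_mul_of_nonneg_right hεd hk0nn
      _ = k0 / (k0 + 1) * 2⁻¹ := by
        rw [hε]
        field_simp
      _ ≤ 1 * 2⁻¹ := by
        apply mul_le_mul_of_nonneg_right _ (by norm_num)
        rw [div_le_one (by linarith)]
        linarith
      _ = 2⁻¹ := one_mul _
  have hgeo : ∑' m : ℕ, (v * K0) ^ m ≤ 2 := by
    rw [ENNReal.tsum_geometric]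
    have h1 : (2 : ℝ≥0∞)⁻¹ ≤ 1 - v * K0 := by
      calc (2 : ℝ≥0∞)⁻¹ = 1 - 2⁻¹ := by
            rw [ENNReal.one_sub_inv_two]
        _ ≤ 1 - v * K0 := tsub_le_tsub_left hvK 1
    have h2 := ENNReal.inv_le_inv.2 h1
    rwa [inv_inv] at h2
  refine ⟨ε, 2, hε0, by norm_num, ?_⟩
  intro Q hQ S H
  -- the events for a fixed sequence
  have hE : ∀ (m : ℕ) (z : Fin (m + 1) → Z d), P {ω | Function.Injective z ∧ z 0 ∈ S ∧
        (∀ i, (Q ω ∩ cube ε (z i)).Nonempty) ∧
        H ≤ ∑ i : Fin m, (‖z i.succ - z i.castSucc‖ -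
          2 * max (‖z i.succ - z i.castSucc‖ - 1) 0)} ≤
      v ^ (m + 1) * ENNReal.ofReal (Real.exp (-H)) * ((if z 0 ∈ S then (1 : ℝ≥0∞) else 0) *
        ∏ i : Fin m, wt (z i.succ - z i.castSucc)) := by
    intro m z
    by_cases hcond : Function.Injective z ∧ z 0 ∈ S ∧ H ≤ ∑ i : Fin m,
        (‖z i.succ - z i.castSucc‖ - 2 * max (‖z i.succ - z i.castSucc‖ - 1) 0)
    · obtain ⟨h1, h2, h3⟩ := hcond
      have h4 : P {ω | Function.Injective z ∧ z 0 ∈ S ∧
          (∀ i, (Q ω ∩ cube ε (z i)).Nonempty) ∧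
          H ≤ ∑ i : Fin m, (‖z i.succ - z i.castSucc‖ -
            2 * max (‖z i.succ - z i.castSucc‖ - 1) 0)} ≤ v ^ (m + 1) := by
        calc _ ≤ P {ω | ∀ i, (Q ω ∩ cube ε (z i)).Nonempty} := by
              apply measure_mono
              intro ω hω
              exact hω.2.2.1
          _ ≤ ∏ i, volume (cube ε (z i)) := by
              apply hQ.all_nonempty
              · intro i
                exact measurableSet_cube ε (z i)
              · intro i
                rw [volume_cube hε0]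
                exact ENNReal.ofReal_lt_top
              · intro i j hij
                rw [Set.disjoint_left]
                intro u hu1 hu2
                apply hij
                apply h1
                exact hu1.symm.trans hu2
          _ = v ^ (m + 1) := by
              rw [Finset.prod_congr rfl (fun i _ => volume_cube hε0 (z i)), Finset.prod_const,
                Finset.card_univ, Fintype.card_fin]
      refine h4.trans ?_
      rw [if_pos h2, one_mul, mul_assoc]
      have h5 : 1 ≤ ENNReal.ofReal (Real.exp (-H)) *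
          ∏ i : Fin m, wt (z i.succ - z i.castSucc) := by
        have h6 : ∏ i : Fin m, wt (z i.succ - z i.castSucc) =
            ENNReal.ofReal (∏ i : Fin m, Real.exp (‖z i.succ - z i.castSucc‖ -
              2 * max (‖z i.succ - z i.castSucc‖ - 1) 0)) := by
          rw [ENNReal.ofReal_prod_of_nonneg (fun i _ => (Real.exp_pos _).le)]
          rfl
        rw [h6, ← ENNReal.ofReal_mul (Real.exp_pos _).le, ← Real.exp_sum, ← Real.exp_add,
          ← ENNReal.ofReal_one]
        apply ENNReal.ofReal_le_ofReal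
        apply Real.one_le_exp
        linarith
      calc v ^ (m + 1) = v ^ (m + 1) * 1 := (mul_one _).symm
        _ ≤ _ := mul_le_mul_right h5 _
    · have h4 : {ω | Function.Injective z ∧ z 0 ∈ S ∧
          (∀ i, (Q ω ∩ cube ε (z i)).Nonempty) ∧
          H ≤ ∑ i : Fin m, (‖z i.succ - z i.castSucc‖ -
            2 * max (‖z i.succ - z i.castSucc‖ - 1) 0)} = ∅ := by
        rw [Set.eq_empty_iff_forall_notMem]
        intro ω hω
        exact hcond ⟨hω.1, hω.2.1, hω.2.2.2⟩
      rw [h4, measure_empty]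
      exact bot_le
  calc P {ω | ∃ (m : ℕ) (z : Fin (m + 1) → Z d), Function.Injective z ∧ z 0 ∈ S ∧
        (∀ i, (Q ω ∩ cube ε (z i)).Nonempty) ∧
        H ≤ ∑ i : Fin m, (‖z i.succ - z i.castSucc‖ -
          2 * max (‖z i.succ - z i.castSucc‖ - 1) 0)}
      ≤ P (⋃ m : ℕ, ⋃ z : Fin (m + 1) → Z d, {ω | Function.Injective z ∧ z 0 ∈ S ∧
        (∀ i, (Q ω ∩ cube ε (z i)).Nonempty) ∧
        H ≤ ∑ i : Fin m, (‖z i.succ - z i.castSucc‖ -
          2 * max (‖z i.succ - z i.castSucc‖ - 1) 0)}) := by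
        apply measure_mono
        rintro ω ⟨m, z, h⟩
        exact Set.mem_iUnion.2 ⟨m, Set.mem_iUnion.2 ⟨z, h⟩⟩
    _ ≤ ∑' m : ℕ, ∑' z : Fin (m + 1) → Z d, P {ω | Function.Injective z ∧ z 0 ∈ S ∧
        (∀ i, (Q ω ∩ cube ε (z i)).Nonempty) ∧
        H ≤ ∑ i : Fin m, (‖z i.succ - z i.castSucc‖ -
          2 * max (‖z i.succ - z i.castSucc‖ - 1) 0)} :=
        (measure_iUnion_le _).trans (ENNReal.tsum_le_tsum fun m => measure_iUnion_le _)
    _ ≤ ∑' m : ℕ, ∑' z : Fin (m + 1) → Z d,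
        v ^ (m + 1) * ENNReal.ofReal (Real.exp (-H)) * ((if z 0 ∈ S then (1 : ℝ≥0∞) else 0) *
          ∏ i : Fin m, wt (z i.succ - z i.castSucc)) :=
        ENNReal.tsum_le_tsum fun m => ENNReal.tsum_le_tsum fun z => hE m z
    _ = ∑' m : ℕ, v * (ENNReal.ofReal (Real.exp (-H)) * S.card) * (v * K0) ^ m := by
        apply tsum_congr
        intro m
        rw [ENNReal.tsum_mul_left, tsum_paths, ← hK0, mul_pow, pow_succ]
        ring
    _ = v * (ENNReal.ofReal (Real.exp (-H)) * S.card) * ∑' m : ℕ, (v * K0) ^ m :=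
        ENNReal.tsum_mul_left
    _ ≤ 1 * (ENNReal.ofReal (Real.exp (-H)) * S.card) * 2 := by
        apply mul_le_mul' (mul_le_mul' hv1 le_rfl) hgeo
    _ = ENNReal.ofReal (2 * S.card * Real.exp (-H)) := by
        rw [ENNReal.ofReal_mul (by positivity), ENNReal.ofReal_mul (by norm_num),
          ENNReal.ofReal_natCast]
        simp only [ENNReal.ofReal_ofNat]
        ring

end Pool.Agent.Work.MP_4035b7_pr
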