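import Pool.Agent.Work.MP_4035b7_pr.Void
import Pool.Agent.Work.MP_4035b7_pr.Chain
import Pool.Agent.Work.MP_4035b7_pr.Union

/-!
# Positivity of the time constant: linear growth in probability
-/

open MeasureTheory ProbabilityTheory Filter
open scoped ENNReal NNReal Topology

namespace Pool.Agent.Work.MP_4035b7_pr

namespace PosAux

lemma telescope {d : ℕ} : ∀ (m : ℕ) (z : Fin (m + 1) → Z d),
    ‖z (Fin.last m) - z 0‖ ≤ ∑ i : Fin m, ‖z i.succ - z i.castSucc‖
  | 0, z => by simp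
  | m + 1, z => by
    rw [Fin.sum_univ_castSucc]
    have ih := telescope m (fun i => z i.castSucc)
    have h1 : z (Fin.last (m + 1)) - z 0 =
        (z (Fin.last m).castSucc - z 0) + (z (Fin.last m).succ - z (Fin.last m).castSucc) := by
      rw [Fin.succ_last]
      abel
    rw [h1]
    refine (norm_add_le _ _).trans (add_le_add ?_ le_rfl)
    exact ih

lemma markov {Ω : Type*} [MeasurableSpace Ω] {P : Measure Ω} {g : Ω → ℝ≥0∞}
    (hg : Measurable g) {K : ℝ} (hK : 0 ≤ K) (hi : ∫⁻ ω, g ω ∂P ≤ ENNReal.ofReal K) :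
    P {ω | ENNReal.ofReal (8 * (K + 1)) ≤ g ω} ≤ 1 / 8 := by
  have h0 : ENNReal.ofReal (8 * (K + 1)) ≠ 0 := by
    rw [Ne, ENNReal.ofReal_eq_zero, not_le]
    positivity
  refine (meas_ge_le_lintegral_div hg.aemeasurable h0 ENNReal.ofReal_ne_top).trans ?_
  calc (∫⁻ ω, g ω ∂P) / ENNReal.ofReal (8 * (K + 1))
      ≤ ENNReal.ofReal K / ENNReal.ofReal (8 * (K + 1)) := ENNReal.div_le_div_right hi _
    _ = ENNReal.ofReal (K / (8 * (K + 1))) := (ENNReal.ofReal_div_of_pos (by positivity)).symm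
    _ ≤ ENNReal.ofReal (1 / 8) := by
        apply ENNReal.ofReal_le_ofReal
        rw [div_le_div_iff₀ (by positivity) (by norm_num)]
        linarith
    _ = 1 / 8 := by
        rw [ENNReal.ofReal_div_of_pos (by norm_num)]
        norm_num

/-- The cells which meet the closed ball of radius `r` around zero are among these. -/
noncomputable def cells (d : ℕ) (ε r : ℝ) : Finset (Z d) :=
  Fintype.piFinset (fun _ => Finset.Icc ⌊-r / ε⌋ ⌊r / ε⌋)

lemma coord_le {d : ℕ} (u : E d) (i : Fin (d + 1)) : |u i| ≤ ‖u‖ := by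
  have := EuclideanSpace.norm_sq_eq u
  have h1 : ‖u i‖ ^ 2 ≤ ∑ j, ‖u j‖ ^ 2 :=
    Finset.single_le_sum (f := fun j => ‖u j‖ ^ 2) (fun j _ => by positivity) (Finset.mem_univ i)
  rw [← this] at h1
  have := abs_le_of_sq_le_sq h1 (norm_nonneg _)
  rwa [Real.norm_eq_abs, abs_abs] at this

lemma cell_mem_cells {d : ℕ} {ε r : ℝ} (hε : 0 < ε) {u : E d} (hu : ‖u‖ ≤ r) :
    cell ε u ∈ cells d ε r := by
  rw [cells, Fintype.mem_piFinset]
  intro i
  rw [Finset.mem_Icc]
  have h := abs_le.mp ((coord_le u i).trans hu)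
  constructor
  · exact Int.floor_le_floor (by gcongr; exact h.1)
  · exact Int.floor_le_floor (by gcongr; exact h.2)

lemma near_far {d : ℕ} {Ω : Type*} [MeasurableSpace Ω] {P : Measure Ω}
    [IsProbabilityMeasure P] :
    ∃ r : ℝ, 0 ≤ r ∧ ∀ Q : Ω → Set (E d), IsPoisson P Q → ∀ x : E d,
      P {ω | ∃ p ∈ near (Q ω) x, r < ‖p - x‖} ≤ 1 / 8 := by
  obtain ⟨K, hK, h⟩ := void_bound (d := d) P 1 zero_le_one
  refine ⟨8 * (K + 1), by positivity, fun Q hQ x => ?_⟩
  obtain ⟨g, hg, hgi, hgp⟩ := h _ (hQ.translate (-x))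
  refine le_trans (measure_mono ?_) (markov hg hK hgi)
  rintro ω ⟨p, hp, hlt⟩
  have h4 := near_translate (Q ω) x (-x)
  rw [add_neg_cancel] at h4
  have h5 : p + -x ∈ near ((fun v => v + -x) '' Q ω) 0 := by
    rw [h4]
    exact Set.mem_image_of_mem _ hp
  have h6 := hgp ω _ h5
  rw [Real.rpow_one, ← sub_eq_add_neg] at h6
  exact (ENNReal.ofReal_le_ofReal hlt.le).trans h6

end PosAux

open PosAux in
theorem pos_prob {d : ℕ} {Ω : Type*} [MeasurableSpace Ω] {P : Measure Ω}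
    [IsProbabilityMeasure P] {Q : Ω → Set (E d)} (hQ : IsPoisson P Q) {α : ℝ} (hα : 1 ≤ α) :
    ∃ c n1 : ℝ, 0 < c ∧ ∀ n : ℝ, n1 ≤ n →
      P {ω | Good (Q ω) 0 ∧ Good (Q ω) (n • e1 d) ∧ T α (Q ω) 0 (n • e1 d) < c * n} ≤ 1 / 2 := by
  obtain ⟨r, hr, hfar⟩ := near_far (d := d) (P := P)
  obtain ⟨ε, K, hε, hK, hU⟩ := cell_union_bound d P
  set M : ℝ := K * (cells d ε r).card * Real.exp (2 * r / ε + 1) with hM
  have hM0 : 0 ≤ M := by positivity
  refine ⟨ε ^ (α - 1) / 4, 8 * ε * M + 1, by positivity, fun n hn => ?_⟩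
  have hn0 : 0 < n := lt_of_lt_of_le (by positivity) hn
  set c : ℝ := ε ^ (α - 1) / 4 with hc
  set H : ℝ := n / (2 * ε) - (2 * r / ε + 1) with hH
  have hsub : {ω | Good (Q ω) 0 ∧ Good (Q ω) (n • e1 d) ∧ T α (Q ω) 0 (n • e1 d) < c * n} ⊆
      ({ω | ∃ p ∈ near (Q ω) 0, r < ‖p - 0‖} ∪
        {ω | ∃ p ∈ near (Q ω) (n • e1 d), r < ‖p - n • e1 d‖}) ∪
      {ω | ∃ (m : ℕ) (z : Fin (m + 1) → Z d), Function.Injective z ∧ z 0 ∈ cells d ε r ∧
        (∀ i, (Q ω ∩ cube ε (z i)).Nonempty) ∧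
        H ≤ ∑ i : Fin m, (‖z i.succ - z i.castSucc‖ -
          2 * max (‖z i.succ - z i.castSucc‖ - 1) 0)} := by
    rintro ω ⟨g0, gn, hT⟩
    by_cases h0 : r < ‖nr (Q ω) 0 - 0‖
    · exact Or.inl (Or.inl ⟨_, near_nr g0, h0⟩)
    by_cases h1 : r < ‖nr (Q ω) (n • e1 d) - n • e1 d‖
    · exact Or.inl (Or.inr ⟨_, near_nr gn, h1⟩)
    right
    rw [sub_zero, not_lt] at h0
    rw [not_lt] at h1
    have hp := near_nr g0
    have hq := near_nr gn
    obtain ⟨k, u, -, hu0, huk, hu, hlt⟩ : ∃ (k : ℕ) (u : ℕ → E d), 1 ≤ k ∧ u 0 = nr (Q ω) 0 ∧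
        u k = nr (Q ω) (n • e1 d) ∧ (∀ i ≤ k, u i ∈ Q ω) ∧
        ∑ i ∈ Finset.range k, ‖u i - u (i + 1)‖ ^ α < c * n := by
      by_contra hcon
      push Not at hcon
      have := le_PT (α := α) hp.1 hq.1 (c := c * n)
        (fun k u h1 h2 h3 h4 => hcon k u h1 h2 h3 h4)
      exact absurd hT (not_lt.mpr this)
    obtain ⟨m, z, hz, hz0, hzm, hocc, hcost⟩ := cell_chain hα hε (Q ω) k u hu
    refine ⟨m, z, hz, ?_, hocc, ?_⟩
    · rw [hz0, hu0]
      exact cell_mem_cells hε h0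
    · -- the lower bound
      have hεα : 0 < ε ^ α := Real.rpow_pos_of_pos hε _
      have hs1 : ∑ i : Fin m, max (‖z i.succ - z i.castSucc‖ - 1) 0 ≤ n / (4 * ε) := by
        have h3 : ε ^ α * ∑ i : Fin m, max (‖z i.succ - z i.castSucc‖ - 1) 0 ≤ c * n :=
          hcost.trans hlt.le
        have h4 : c * n = ε ^ α * (n / (4 * ε)) := by
          rw [hc, Real.rpow_sub hε, Real.rpow_one]
          field_simp
        rw [h4] at h3
        exact le_of_mul_le_mul_left h3 hεα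
      have hs2 : (n - 2 * r) / ε - 1 ≤ ‖z (Fin.last m) - z 0‖ := by
        have h5 : |((z (Fin.last m) - z 0) 0 : ℝ)| ≤ ‖z (Fin.last m) - z 0‖ := by
          have := norm_le_pi_norm (z (Fin.last m) - z 0) 0
          rwa [Int.norm_eq_abs] at this
        refine le_trans ?_ ((le_abs_self _).trans h5)
        rw [Pi.sub_apply, hz0, hzm, hu0, huk]
        simp only [cell]
        push_cast
        have h6 := Int.lt_floor_add_one (nr (Q ω) (n • e1 d) 0 / ε)
        have h7 := Int.floor_le (nr (Q ω) (0 : E d) 0 / ε)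
        have h8 : n - r ≤ nr (Q ω) (n • e1 d) 0 := by
          have h12 := (abs_le.mp ((coord_le (nr (Q ω) (n • e1 d) - n • e1 d) 0).trans h1)).1
          have h13 : (nr (Q ω) (n • e1 d) - n • e1 d) 0 = nr (Q ω) (n • e1 d) 0 - n := by
            rw [PiLp.sub_apply, PiLp.smul_apply]
            simp [e1]
          rw [h13] at h12
          linarith
        have h9 : nr (Q ω) (0 : E d) 0 ≤ r :=
          (abs_le.mp ((coord_le (nr (Q ω) (0 : E d)) 0).trans h0)).2
        have h10 : (n - 2 * r) / ε ≤ nr (Q ω) (n • e1 d) 0 / ε - nr (Q ω) (0 : E d) 0 / ε := by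
          rw [← sub_div]
          exact div_le_div_of_nonneg_right (by linarith) hε.le
        linarith
      have hs3 := telescope m z
      rw [Finset.sum_sub_distrib, ← Finset.mul_sum]
      have h11 : H = (n - 2 * r) / ε - 1 - 2 * (n / (4 * ε)) := by
        rw [hH]
        field_simp
        ring
      rw [h11]
      linarith
  have hexp : K * (cells d ε r).card * Real.exp (-H) ≤ 1 / 4 := by
    have h1 : Real.exp (-H) = Real.exp (2 * r / ε + 1) * Real.exp (-(n / (2 * ε))) := by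
      rw [← Real.exp_add]
      congr 1
      rw [hH]; ring
    rw [h1, ← mul_assoc, ← hM, Real.exp_neg, ← div_eq_mul_inv, div_le_iff₀ (Real.exp_pos _)]
    have h2 : n / (2 * ε) ≤ Real.exp (n / (2 * ε)) := by
      linarith [Real.add_one_le_exp (n / (2 * ε))]
    have h3 : 4 * M ≤ n / (2 * ε) := by
      rw [le_div_iff₀ (by positivity)]
      linarith
    linarith
  calc P {ω | Good (Q ω) 0 ∧ Good (Q ω) (n • e1 d) ∧ T α (Q ω) 0 (n • e1 d) < c * n}
      ≤ (1 / 8 + 1 / 8) + ENNReal.ofReal (1 / 4) := by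
        refine (measure_mono hsub).trans ((measure_union_le _ _).trans (add_le_add
          ((measure_union_le _ _).trans (add_le_add (hfar Q hQ 0) (hfar Q hQ _))) ?_))
        exact (hU Q hQ _ _).trans (ENNReal.ofReal_le_ofReal hexp)
    _ = 1 / 2 := by
        have e8 : (1 / 8 : ℝ≥0∞) = ENNReal.ofReal (1 / 8) := by
          rw [ENNReal.ofReal_div_of_pos (by norm_num)]; norm_num
        have e2 : (1 / 2 : ℝ≥0∞) = ENNReal.ofReal (1 / 2) := by
          rw [ENNReal.ofReal_div_of_pos (by norm_num)]; norm_num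
        rw [e8, e2, ← ENNReal.ofReal_add (by norm_num) (by norm_num),
          ← ENNReal.ofReal_add (by norm_num) (by norm_num)]
        norm_num

end Pool.Agent.Work.MP_4035b7_pr
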