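import Pool.Agent.Work.MP_4035b7_pr.Pois

/-!
# The law of countably many counts (module Uniq)
-/

open MeasureTheory ProbabilityTheory Filter
open scoped ENNReal NNReal Topology

namespace Pool.Agent.Work.MP_4035b7_pr

section Uniq
variable {d : ℕ} {Ω Ω' : Type*} [MeasurableSpace Ω] [MeasurableSpace Ω'] {P : Measure Ω}
  {P' : Measure Ω'} [IsProbabilityMeasure P] [IsProbabilityMeasure P']
  {Q : Ω → Set (E d)} {Q' : Ω' → Set (E d)}

/-- The atom of the finite family `C i`, `i ∈ I`, with index `S`. -/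
def atomC (C : ℕ → Set (E d)) (I : Finset ℕ) (S : Finset I) : Set (E d) :=
  {x | ∀ i : I, x ∈ C i ↔ i ∈ S}

theorem measurableSet_atomC (C : ℕ → Set (E d)) (hC : ∀ i, MeasurableSet (C i)) (I : Finset ℕ)
    (S : Finset I) : MeasurableSet (atomC C I S) := by
  have : atomC C I S = ⋂ i : I, {x | x ∈ C i ↔ i ∈ S} := by
    ext x
    simp [atomC]
  rw [this]
  refine MeasurableSet.iInter fun i => ?_
  by_cases hi : i ∈ S
  · have : {x | x ∈ C i ↔ i ∈ S} = C i := by
      ext x
      simp [hi]
    rw [this]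
    exact hC i
  · have : {x | x ∈ C i ↔ i ∈ S} = (C i)ᶜ := by
      ext x
      simp [hi]
    rw [this]
    exact (hC i).compl

theorem volume_atomC (C : ℕ → Set (E d)) (hv : ∀ i, volume (C i) < ∞) (I : Finset ℕ)
    (S : Finset I) (hS : S.Nonempty) : volume (atomC C I S) < ∞ := by
  obtain ⟨i, hi⟩ := hS
  refine lt_of_le_of_lt (measure_mono ?_) (hv i)
  intro x hx
  exact (hx i).2 hi

theorem disjoint_atomC (C : ℕ → Set (E d)) (I : Finset ℕ) {S T : Finset I} (h : S ≠ T) :
    Disjoint (atomC C I S) (atomC C I T) := by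
  rw [Set.disjoint_left]
  intro x hx hx'
  apply h
  ext i
  rw [← hx i, ← hx' i]

open Classical in
/-- Sum of the counts of the atoms. -/
noncomputable def sumG (I : Finset ℕ) (n : {S : Finset I // S.Nonempty} → ℕ) (i : I) : ℕ :=
  ∑ S : {S : Finset I // S.Nonempty}, if i ∈ S.1 then n S else 0

open Classical in
theorem ncard_eq_sumG (C : ℕ → Set (E d)) (I : Finset ℕ) (R : Set (E d))
    (hfin : ∀ S : {S : Finset I // S.Nonempty}, (R ∩ atomC C I S.1).Finite) (i : I) :
    (R ∩ C i).ncard = sumG I (fun S => (R ∩ atomC C I S.1).ncard) i := by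
  have h1 : R ∩ C i = ⋃ S ∈ (({S : {S : Finset I // S.Nonempty} | i ∈ S.1}) : Set _),
      R ∩ atomC C I S.1 := by
    ext x
    simp only [Set.mem_inter_iff, Set.mem_iUnion, Set.mem_ofPred_eq, exists_prop]
    constructor
    · rintro ⟨hx, hxi⟩
      refine ⟨⟨Finset.univ.filter fun j : I => x ∈ C j, ⟨i, by simpa using hxi⟩⟩, ?_, hx, ?_⟩
      · simpa using hxi
      · intro j
        simp
    · rintro ⟨S, hS, hx, hxS⟩
      exact ⟨hx, (hxS i).2 hS⟩
  rw [h1, Set.Finite.ncard_biUnion (Set.toFinite _) (fun S _ => hfin S)]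
  · rw [sumG, finsum_mem_eq_finite_toFinset_sum _ (Set.toFinite _), ← Finset.sum_filter]
    congr 1
    ext S
    simp
  · intro S _ T _ hST
    refine (disjoint_atomC C I (fun h => hST (Subtype.ext h))).mono ?_ ?_
    · exact Set.inter_subset_right
    · exact Set.inter_subset_right

open Classical in
theorem map_counts_finite (hQ : IsPoisson P Q) (C : ℕ → Set (E d))
    (hC : ∀ i, MeasurableSet (C i)) (hv : ∀ i, volume (C i) < ∞) (I : Finset ℕ) :
    P.map (fun ω (i : I) => (Q ω ∩ C i).ncard) =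
      (Measure.pi (fun S : {S : Finset I // S.Nonempty} =>
        poissonMeasure (volume (atomC C I S.1)).toNNReal)).map (sumG I) := by
  rw [← hQ.map_ncard (fun S : {S : Finset I // S.Nonempty} => atomC C I S.1)
    (fun S => measurableSet_atomC C hC I S.1) (fun S => volume_atomC C hv I S.1 S.2)
    (fun S T hST => disjoint_atomC C I (fun h => hST (Subtype.ext h)))]
  have hg : Measurable (fun ω (S : {S : Finset I // S.Nonempty}) =>
      (Q ω ∩ atomC C I S.1).ncard) :=
    measurable_pi_lambda _ fun S => hQ.measurable_ncard (measurableSet_atomC C hC I S.1)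
  rw [Measure.map_map (Measurable.of_discrete) hg]
  apply Measure.map_congr
  have hfin : ∀ᵐ ω ∂P, ∀ S : {S : Finset I // S.Nonempty}, (Q ω ∩ atomC C I S.1).Finite := by
    rw [ae_all_iff]
    exact fun S => hQ.ae_finite (measurableSet_atomC C hC I S.1) (volume_atomC C hv I S.1 S.2)
  filter_upwards [hfin] with ω hω
  funext i
  exact ncard_eq_sumG C I (Q ω) hω i

theorem map_counts_eq (hQ : IsPoisson P Q) (hQ' : IsPoisson P' Q') (C : ℕ → Set (E d))
    (hC : ∀ i, MeasurableSet (C i)) (hv : ∀ i, volume (C i) < ∞) :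
    P.map (fun ω i => (Q ω ∩ C i).ncard) = P'.map (fun ω i => (Q' ω ∩ C i).ncard) := by
  have hm : Measurable (fun ω i => (Q ω ∩ C i).ncard) :=
    measurable_pi_lambda _ fun i => hQ.measurable_ncard (hC i)
  have hm' : Measurable (fun ω i => (Q' ω ∩ C i).ncard) :=
    measurable_pi_lambda _ fun i => hQ'.measurable_ncard (hC i)
  have : IsProbabilityMeasure (P'.map (fun ω i => (Q' ω ∩ C i).ncard)) :=
    Measure.isProbabilityMeasure_map hm'.aemeasurable
  have h1 : IsProjectiveLimit (P'.map (fun ω i => (Q' ω ∩ C i).ncard))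
      (fun I : Finset ℕ => (P'.map (fun ω i => (Q' ω ∩ C i).ncard)).map I.restrict) :=
    fun I => rfl
  have h2 : IsProjectiveLimit (P.map (fun ω i => (Q ω ∩ C i).ncard))
      (fun I : Finset ℕ => (P'.map (fun ω i => (Q' ω ∩ C i).ncard)).map I.restrict) := by
    intro I
    change Measure.map I.restrict (Measure.map (fun ω i => (Q ω ∩ C i).ncard) P) =
      Measure.map I.restrict (Measure.map (fun ω i => (Q' ω ∩ C i).ncard) P')
    rw [Measure.map_map (by fun_prop) hm, Measure.map_map (by fun_prop) hm']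
    exact (map_counts_finite hQ C hC hv I).trans (map_counts_finite hQ' C hC hv I).symm
  have : ∀ I : Finset ℕ, IsFiniteMeasure
      ((P'.map (fun ω i => (Q' ω ∩ C i).ncard)).map I.restrict) := fun I => inferInstance
  exact h2.unique h1

end Uniq

end Pool.Agent.Work.MP_4035b7_pr
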