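import Pool.Agent.Work.MP_4035b7_pr.Tie
import Pool.Agent.Work.MP_4035b7_pr.Geo

/-!
# Void probabilities; almost every configuration is good
-/

open MeasureTheory ProbabilityTheory Filter
open scoped ENNReal NNReal Topology

namespace Pool.Agent.Work.MP_4035b7_pr

namespace VoidAux

lemma summable_decay (d : ℕ) (s : ℝ) :
    Summable (fun j : ℕ => ((j : ℝ) + 1) ^ s * Real.exp (-(Tie.om d * (j : ℝ) ^ (d + 1)))) := by
  have hw := Tie.om_pos d
  have h1 : Summable (fun n : ℕ => ((n : ℝ)) ^ ⌈s⌉₊ * Real.exp (-(Tie.om d) * n)) :=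
    Real.summable_pow_mul_exp_neg_nat_mul ⌈s⌉₊ hw
  have h2 := ((summable_nat_add_iff 1).mpr h1).mul_left (Real.exp (Tie.om d))
  refine Summable.of_nonneg_of_le (fun j => by positivity) (fun j => ?_) h2
  push_cast
  have k1 : ((j : ℝ) + 1) ^ s ≤ ((j : ℝ) + 1) ^ ⌈s⌉₊ := by
    rw [← Real.rpow_natCast]
    exact Real.rpow_le_rpow_of_exponent_le (by linarith [(Nat.cast_nonneg j : (0 : ℝ) ≤ j)])
      (Nat.le_ceil s)
  have k2 : (j : ℝ) ≤ (j : ℝ) ^ (d + 1) := by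
    rcases Nat.eq_zero_or_pos j with rfl | hj
    · simp
    · have : (1 : ℝ) ≤ j := by exact_mod_cast hj
      exact le_self_pow₀ this (by omega)
  have k3 : Real.exp (-(Tie.om d * (j : ℝ) ^ (d + 1))) ≤
      Real.exp (Tie.om d) * Real.exp (-(Tie.om d) * ((j : ℝ) + 1)) := by
    rw [← Real.exp_add]
    apply Real.exp_le_exp.mpr
    have := mul_le_mul_of_nonneg_left k2 hw.le
    nlinarith
  calc ((j : ℝ) + 1) ^ s * Real.exp (-(Tie.om d * (j : ℝ) ^ (d + 1)))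
      ≤ ((j : ℝ) + 1) ^ ⌈s⌉₊ * (Real.exp (Tie.om d) * Real.exp (-(Tie.om d) * ((j : ℝ) + 1))) :=
        mul_le_mul k1 k3 (Real.exp_pos _).le (by positivity)
    _ = _ := by ring

section
variable {d : ℕ} {Ω : Type*} [MeasurableSpace Ω] {P : Measure Ω} [IsProbabilityMeasure P]
  {Q : Ω → Set (E d)}

lemma prob_void_ball (hQ : IsPoisson P Q) {a : ℝ} (ha : 0 ≤ a) :
    P {ω | Q ω ∩ Metric.ball 0 a = ∅} =
      ENNReal.ofReal (Real.exp (-(Tie.om d * a ^ (d + 1)))) := by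
  rw [hQ.prob_void measurableSet_ball measure_ball_lt_top, Tie.volume_ball d ha,
    ENNReal.toReal_ofReal (mul_nonneg (Tie.om_pos d).le (by positivity))]

end

end VoidAux

open VoidAux in
theorem void_bound {d : ℕ} {Ω : Type*} [MeasurableSpace Ω] (P : Measure Ω)
    [IsProbabilityMeasure P] (s : ℝ) (hs : 0 ≤ s) :
    ∃ K : ℝ, 0 ≤ K ∧ ∀ Q : Ω → Set (E d), IsPoisson P Q →
      ∃ g : Ω → ℝ≥0∞, Measurable g ∧ ∫⁻ ω, g ω ∂P ≤ ENNReal.ofReal K ∧
        ∀ ω, ∀ p ∈ near (Q ω) 0, ENNReal.ofReal (‖p‖ ^ s) ≤ g ω := by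
  have hsum := summable_decay d s
  refine ⟨∑' j : ℕ, ((j : ℝ) + 1) ^ s * Real.exp (-(Tie.om d * (j : ℝ) ^ (d + 1))),
    tsum_nonneg (fun j => by positivity), fun Q hQ => ?_⟩
  have hmeas1 : ∀ j : ℕ, Measurable (fun ω : Ω =>
      ({ω | Q ω ∩ Metric.ball 0 (j : ℝ) = ∅} : Set Ω).indicator (1 : Ω → ℝ≥0∞) ω) :=
    fun j => measurable_one.indicator (hQ.measurableSet_void measurableSet_ball)
  have hmeas : ∀ j : ℕ, Measurable (fun ω : Ω => ENNReal.ofReal (((j : ℝ) + 1) ^ s) *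
      ({ω | Q ω ∩ Metric.ball 0 (j : ℝ) = ∅} : Set Ω).indicator (1 : Ω → ℝ≥0∞) ω) :=
    fun j => (hmeas1 j).const_mul _
  refine ⟨fun ω => ∑' j : ℕ, ENNReal.ofReal (((j : ℝ) + 1) ^ s) *
      ({ω | Q ω ∩ Metric.ball 0 (j : ℝ) = ∅} : Set Ω).indicator (1 : Ω → ℝ≥0∞) ω,
    Measurable.tsum hmeas, ?_, ?_⟩
  · rw [lintegral_tsum (fun j => (hmeas j).aemeasurable),
      ENNReal.ofReal_tsum_of_nonneg (fun j => by positivity) hsum]
    refine ENNReal.tsum_le_tsum (fun j => ?_)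
    rw [lintegral_const_mul _ (hmeas1 j),
      lintegral_indicator_one (hQ.measurableSet_void measurableSet_ball),
      prob_void_ball hQ (Nat.cast_nonneg j), ENNReal.ofReal_mul (by positivity)]
  · rintro ω p ⟨-, hpmin⟩
    simp only [sub_zero] at hpmin
    have hin : ω ∈ ({ω | Q ω ∩ Metric.ball 0 ((⌊‖p‖⌋₊ : ℕ) : ℝ) = ∅} : Set Ω) := by
      simp only [Set.mem_ofPred_eq]
      rw [Set.eq_empty_iff_forall_notMem]
      rintro u ⟨hu, hu'⟩
      rw [Metric.mem_ball, dist_zero_right] at hu'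
      linarith [hpmin u hu, Nat.floor_le (norm_nonneg p)]
    calc ENNReal.ofReal (‖p‖ ^ s) ≤ ENNReal.ofReal (((⌊‖p‖⌋₊ : ℝ) + 1) ^ s) *
          ({ω | Q ω ∩ Metric.ball 0 ((⌊‖p‖⌋₊ : ℕ) : ℝ) = ∅} : Set Ω).indicator
            (1 : Ω → ℝ≥0∞) ω := by
          rw [Set.indicator_of_mem hin, Pi.one_apply, mul_one]
          exact ENNReal.ofReal_le_ofReal (Real.rpow_le_rpow (norm_nonneg _)
            (Nat.lt_floor_add_one _).le hs)
      _ ≤ _ := ENNReal.le_tsum ⌊‖p‖⌋₊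

namespace VoidAux

section
variable {d : ℕ} {Ω : Type*} [MeasurableSpace Ω] {P : Measure Ω} [IsProbabilityMeasure P]
  {Q : Ω → Set (E d)}

lemma ae_locFin (hQ : IsPoisson P Q) :
    ∀ᵐ ω ∂P, ∀ R : ℝ, (Q ω ∩ Metric.closedBall 0 R).Finite := by
  have h : ∀ᵐ ω ∂P, ∀ n : ℕ, (Q ω ∩ Metric.closedBall 0 (n : ℝ)).Finite := by
    rw [ae_all_iff]
    intro n
    exact hQ.ae_finite measurableSet_closedBall measure_closedBall_lt_top
  filter_upwards [h] with ω hω R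
  obtain ⟨n, hn⟩ := exists_nat_ge R
  exact (hω n).subset (Set.inter_subset_inter_right _ (Metric.closedBall_subset_closedBall hn))

lemma ae_nonempty (hQ : IsPoisson P Q) : ∀ᵐ ω ∂P, (Q ω).Nonempty := by
  rw [ae_iff]
  have h : ∀ n : ℕ, P {ω | ¬ (Q ω).Nonempty} ≤
      ENNReal.ofReal (Real.exp (-(Tie.om d * (n : ℝ) ^ (d + 1)))) := by
    intro n
    rw [← prob_void_ball hQ (Nat.cast_nonneg n)]
    apply measure_mono
    intro ω hω
    simp only [Set.mem_ofPred_eq, Set.not_nonempty_iff_eq_empty] at hω ⊢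
    rw [hω, Set.empty_inter]
  have hlim : Tendsto (fun n : ℕ => ENNReal.ofReal (Real.exp (-(Tie.om d * (n : ℝ) ^ (d + 1)))))
      atTop (𝓝 0) := by
    rw [← ENNReal.ofReal_zero]
    apply ENNReal.tendsto_ofReal
    apply Real.tendsto_exp_neg_atTop_nhds_zero.comp
    apply Tendsto.const_mul_atTop (Tie.om_pos d)
    exact (tendsto_pow_atTop (Nat.succ_ne_zero d)).comp tendsto_natCast_atTop_atTop
  exact le_antisymm (ge_of_tendsto' hlim h) zero_le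

lemma exists_near {Q : Set (E d)} (h1 : ∀ R : ℝ, (Q ∩ Metric.closedBall 0 R).Finite)
    (h2 : Q.Nonempty) (x : E d) : (near Q x).Nonempty := by
  obtain ⟨q0, hq0⟩ := h2
  have hF := h1 (‖x‖ + ‖q0 - x‖)
  have hq0F : q0 ∈ Q ∩ Metric.closedBall 0 (‖x‖ + ‖q0 - x‖) := by
    refine ⟨hq0, ?_⟩
    rw [Metric.mem_closedBall, dist_zero_right]
    calc ‖q0‖ = ‖x + (q0 - x)‖ := by congr 1; abel
      _ ≤ _ := norm_add_le _ _
  obtain ⟨p, hp, hpm⟩ := Set.exists_min_image _ (fun q => ‖q - x‖) hF ⟨q0, hq0F⟩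
  refine ⟨p, hp.1, fun q' hq' => ?_⟩
  by_cases hle : ‖q' - x‖ ≤ ‖q0 - x‖
  · apply hpm q'
    refine ⟨hq', ?_⟩
    rw [Metric.mem_closedBall, dist_zero_right]
    calc ‖q'‖ = ‖x + (q' - x)‖ := by congr 1; abel
      _ ≤ ‖x‖ + ‖q' - x‖ := norm_add_le _ _
      _ ≤ _ := by linarith
  · exact (hpm q0 hq0F).trans (not_le.mp hle).le

lemma ae_unique (hQ : IsPoisson P Q) :
    ∀ᵐ ω ∂P, ∀ p ∈ near (Q ω) 0, ∀ q ∈ near (Q ω) 0, q = p := by
  obtain ⟨K, hK, h⟩ := tie_bound (d := d) P 0 le_rfl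
  rw [ae_iff]
  have hb : ∀ n : ℕ, P {ω | ¬ ∀ p ∈ near (Q ω) 0, ∀ q ∈ near (Q ω) 0, q = p} ≤
      ENNReal.ofReal (K * (1 / ((n : ℝ) + 1))) := by
    intro n
    obtain ⟨g, hg, hgi, hgp⟩ := h Q hQ (1 / ((n : ℝ) + 1)) (by positivity) (by
      rw [div_le_one (by positivity)]
      linarith [(Nat.cast_nonneg n : (0 : ℝ) ≤ n)])
    refine le_trans (measure_mono ?_) ((meas_ge_le_lintegral_div hg.aemeasurable one_ne_zero
      ENNReal.one_ne_top).trans (by rw [div_one]; exact hgi))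
    intro ω hω
    simp only [Set.mem_ofPred_eq, not_forall] at hω ⊢
    obtain ⟨p, hp, q, hq, hne⟩ := hω
    have h3 : ‖q‖ ≤ (1 + 1 / ((n : ℝ) + 1)) * ‖p‖ := by
      have h4 : ‖q‖ ≤ ‖p‖ := by simpa using hq.2 p hp.1
      have h5 : 0 ≤ (1 / ((n : ℝ) + 1)) * ‖p‖ := by positivity
      linarith
    have := hgp ω p hp q hq.1 hne h3
    rwa [Real.rpow_zero, ENNReal.ofReal_one] at this
  have hlim : Tendsto (fun n : ℕ => ENNReal.ofReal (K * (1 / ((n : ℝ) + 1)))) atTop (𝓝 0) := by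
    rw [← ENNReal.ofReal_zero]
    apply ENNReal.tendsto_ofReal
    have := (tendsto_one_div_add_atTop_nhds_zero_nat (𝕜 := ℝ)).const_mul K
    rwa [mul_zero] at this
  exact le_antisymm (ge_of_tendsto' hlim hb) zero_le

end

end VoidAux

open VoidAux in
theorem ae_good {d : ℕ} {Ω : Type*} [MeasurableSpace Ω] {P : Measure Ω}
    [IsProbabilityMeasure P] {Q : Ω → Set (E d)} (hQ : IsPoisson P Q) (x : E d) :
    ∀ᵐ ω ∂P, Good (Q ω) x := by
  filter_upwards [ae_locFin hQ, ae_nonempty hQ, ae_unique (hQ.translate (-x))] with ω h1 h2 h3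
  refine ⟨h1, ?_⟩
  obtain ⟨p, hp⟩ := exists_near h1 h2 x
  refine ⟨p, Set.eq_singleton_iff_unique_mem.mpr ⟨hp, fun q hq => ?_⟩⟩
  have h4 := near_translate (Q ω) x (-x)
  rw [add_neg_cancel] at h4
  rw [h4] at h3
  have h5 := h3 _ (Set.mem_image_of_mem _ hp) _ (Set.mem_image_of_mem _ hq)
  simpa using h5

end Pool.Agent.Work.MP_4035b7_pr
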