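import Pool.Agent.Work.MP_4035b7_pr.Key
import Pool.Agent.Work.MP_4035b7_pr.Endp
import Pool.Agent.Work.MP_4035b7_pr.Uniq
import Pool.Agent.Work.MP_4035b7_pr.Desc
import Pool.Agent.Work.MP_4035b7_pr.Void
import Pool.Agent.Work.MP_4035b7_pr.Pos
import Pool.Agent.Work.MP_4035b7_pr.Fekete
import Pool.Agent.Work.MP_4035b7_pr.Final
import Pool.Agent.Work.MP_4035b7_pr.Dim1

open MeasureTheory ProbabilityTheory Filter
open scoped ENNReal NNReal Topology

namespace Pool.Agent.Work.MP_4035b7_pr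

section Mean
variable {d : ℕ} {Ω Ω' : Type*} [MeasurableSpace Ω] [MeasurableSpace Ω'] {P : Measure Ω}
  {P' : Measure Ω'} [IsProbabilityMeasure P] [IsProbabilityMeasure P']
  {Q : Ω → Set (E d)} {Q' : Ω' → Set (E d)} {α : ℝ}

theorem aemeasurable_T (hQ : IsPoisson P Q) (hα : 0 < α) (x y : E d) :
    AEMeasurable (fun ω => T α (Q ω) x y) P := by
  obtain ⟨C, F, hC, hv, hF, h⟩ := exists_description hα x y
  refine ⟨fun ω => F (fun i => (Q ω ∩ C i).ncard),
    hF.comp (measurable_pi_iff.2 fun i => hQ.measurable_ncard (hC i)), ?_⟩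
  filter_upwards [ae_good hQ x, ae_good hQ y] with ω hx hy
  exact h _ hx hy

/-- The mean passage time does not depend on the Poisson process. -/
theorem mean_eq (hQ : IsPoisson P Q) (hQ' : IsPoisson P' Q') (hα : 0 < α) (x y : E d) :
    ∫ ω, T α (Q ω) x y ∂P = ∫ ω, T α (Q' ω) x y ∂P' := by
  obtain ⟨C, F, hC, hv, hF, h⟩ := exists_description hα x y
  have h1 : ∫ ω, T α (Q ω) x y ∂P = ∫ ω, F (fun i => (Q ω ∩ C i).ncard) ∂P := by
    refine integral_congr_ae ?_
    filter_upwards [ae_good hQ x, ae_good hQ y] with ω hx hy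
    exact h _ hx hy
  have h2 : ∫ ω, T α (Q' ω) x y ∂P' = ∫ ω, F (fun i => (Q' ω ∩ C i).ncard) ∂P' := by
    refine integral_congr_ae ?_
    filter_upwards [ae_good hQ' x, ae_good hQ' y] with ω hx hy
    exact h _ hx hy
  have m1 : Measurable (fun ω i => (Q ω ∩ C i).ncard) :=
    measurable_pi_iff.2 fun i => hQ.measurable_ncard (hC i)
  have m2 : Measurable (fun ω i => (Q' ω ∩ C i).ncard) :=
    measurable_pi_iff.2 fun i => hQ'.measurable_ncard (hC i)
  rw [h1, h2]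
  have e1 := integral_map m1.aemeasurable (f := F) hF.aestronglyMeasurable (μ := P)
  have e2 := integral_map m2.aemeasurable (f := F) hF.aestronglyMeasurable (μ := P')
  rw [← e1, ← e2, map_counts_eq hQ hQ' C hC hv]

theorem near_sub {S : Set (E d)} {x p : E d} (hp : p ∈ near S x) :
    p - x ∈ near ((fun v => v + -x) '' S) 0 := by
  have := near_translate S x (-x)
  rw [add_neg_cancel] at this
  rw [this]
  exact ⟨p, hp, by simp [sub_eq_add_neg]⟩

theorem void_at (P : Measure Ω) [IsProbabilityMeasure P] (s : ℝ) (hs : 0 ≤ s) :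
    ∃ K : ℝ, 0 ≤ K ∧ ∀ Q : Ω → Set (E d), IsPoisson P Q → ∀ x : E d,
      ∃ g : Ω → ℝ≥0∞, Measurable g ∧ ∫⁻ ω, g ω ∂P ≤ ENNReal.ofReal K ∧
        ∀ ω, ∀ p ∈ near (Q ω) x, ENNReal.ofReal (‖p - x‖ ^ s) ≤ g ω := by
  obtain ⟨K, hK, h⟩ := void_bound (d := d) P s hs
  refine ⟨K, hK, fun Q hQ x => ?_⟩
  obtain ⟨g, hg, hgi, hgb⟩ := h _ (hQ.translate (-x))
  exact ⟨g, hg, hgi, fun ω p hp => hgb ω _ (near_sub hp)⟩

theorem rpow_add3_le {a b c : ℝ} (ha : 0 ≤ a) (hb : 0 ≤ b) (hc : 0 ≤ c) (hα : 0 < α) :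
    (a + b + c) ^ α ≤ 3 ^ α * (a ^ α + b ^ α + c ^ α) := by
  have hm : a + b + c ≤ 3 * max (max a b) c := by
    have h1 : a ≤ max (max a b) c := le_max_of_le_left (le_max_left _ _)
    have h2 : b ≤ max (max a b) c := le_max_of_le_left (le_max_right _ _)
    have h3 : c ≤ max (max a b) c := le_max_right _ _
    linarith
  have hm0 : 0 ≤ max (max a b) c := le_max_of_le_right hc
  calc (a + b + c) ^ α ≤ (3 * max (max a b) c) ^ α :=
        Real.rpow_le_rpow (by positivity) hm hα.le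
    _ = 3 ^ α * (max (max a b) c) ^ α := Real.mul_rpow (by norm_num) hm0
    _ ≤ 3 ^ α * (a ^ α + b ^ α + c ^ α) := by
        refine mul_le_mul_of_nonneg_left ?_ (by positivity)
        have ha' := Real.rpow_nonneg ha α
        have hb' := Real.rpow_nonneg hb α
        have hc' := Real.rpow_nonneg hc α
        rcases max_cases (max a b) c with ⟨h, -⟩ | ⟨h, -⟩
        · rw [h]
          rcases max_cases a b with ⟨h, -⟩ | ⟨h, -⟩
          · rw [h]; linarith
          · rw [h]; linarith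
        · rw [h]; linarith

theorem lintegral_T_le (P : Measure Ω) [IsProbabilityMeasure P] (hα : 0 < α) :
    ∃ K : ℝ, 0 ≤ K ∧ ∀ Q : Ω → Set (E d), IsPoisson P Q → ∀ x y : E d,
      ∫⁻ ω, ENNReal.ofReal (T α (Q ω) x y) ∂P ≤ ENNReal.ofReal (K + 3 ^ α * ‖x - y‖ ^ α) := by
  obtain ⟨K, hK, h⟩ := void_at (d := d) P α hα.le
  refine ⟨3 ^ α * (2 * K), by positivity, fun Q hQ x y => ?_⟩
  obtain ⟨g1, hg1, hgi1, hgb1⟩ := h Q hQ x
  obtain ⟨g2, hg2, hgi2, hgb2⟩ := h Q hQ y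
  calc ∫⁻ ω, ENNReal.ofReal (T α (Q ω) x y) ∂P
      ≤ ∫⁻ ω, ENNReal.ofReal (3 ^ α) * (g1 ω + (ENNReal.ofReal (‖x - y‖ ^ α) + g2 ω)) ∂P := by
        refine lintegral_mono_ae ?_
        filter_upwards [ae_good hQ x, ae_good hQ y] with ω hx hy
        have nx := near_nr hx
        have ny := near_nr hy
        have h1 : T α (Q ω) x y ≤ ‖nr (Q ω) x - nr (Q ω) y‖ ^ α := PT_le_rpow nx.1 ny.1
        have h2 : ‖nr (Q ω) x - nr (Q ω) y‖ ≤ ‖nr (Q ω) x - x‖ + ‖x - y‖ + ‖nr (Q ω) y - y‖ := by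
          have e : nr (Q ω) x - nr (Q ω) y = (nr (Q ω) x - x) + (x - y) - (nr (Q ω) y - y) := by abel
          rw [e]
          exact (norm_sub_le _ _).trans (by gcongr; exact norm_add_le _ _)
        have h3 : T α (Q ω) x y ≤ 3 ^ α * (‖nr (Q ω) x - x‖ ^ α + ‖x - y‖ ^ α +
            ‖nr (Q ω) y - y‖ ^ α) :=
          h1.trans ((Real.rpow_le_rpow (norm_nonneg _) h2 hα.le).trans
            (rpow_add3_le (norm_nonneg _) (norm_nonneg _) (norm_nonneg _) hα))
        refine (ENNReal.ofReal_le_ofReal h3).trans ?_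
        rw [ENNReal.ofReal_mul (by positivity), ENNReal.ofReal_add (by positivity) (by positivity),
          ENNReal.ofReal_add (by positivity) (by positivity), add_assoc]
        gcongr
        · exact hgb1 ω _ nx
        · exact hgb2 ω _ ny
    _ = ENNReal.ofReal (3 ^ α) * ((∫⁻ ω, g1 ω ∂P) + (ENNReal.ofReal (‖x - y‖ ^ α) +
          ∫⁻ ω, g2 ω ∂P)) := by
        rw [lintegral_const_mul _ (by fun_prop), lintegral_add_left hg1,
          lintegral_add_left measurable_const, lintegral_const, measure_univ, mul_one]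
    _ ≤ ENNReal.ofReal (3 ^ α) * (ENNReal.ofReal K + (ENNReal.ofReal (‖x - y‖ ^ α) +
          ENNReal.ofReal K)) := by gcongr
    _ = ENNReal.ofReal (3 ^ α * (2 * K) + 3 ^ α * ‖x - y‖ ^ α) := by
        rw [← ENNReal.ofReal_add (by positivity) hK, ← ENNReal.ofReal_add hK (by positivity),
          ← ENNReal.ofReal_mul (by positivity)]
        congr 1
        ring

theorem integrable_T (hQ : IsPoisson P Q) (hα : 0 < α) (x y : E d) :
    Integrable (fun ω => T α (Q ω) x y) P := by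
  refine ⟨(aemeasurable_T hQ hα x y).aestronglyMeasurable, ?_⟩
  rw [hasFiniteIntegral_iff_ofReal (Eventually.of_forall fun ω => T_nonneg _ _)]
  obtain ⟨K, -, h⟩ := lintegral_T_le (d := d) P hα
  exact (h Q hQ x y).trans_lt ENNReal.ofReal_lt_top

theorem integral_T_le (P : Measure Ω) [IsProbabilityMeasure P] (hα : 0 < α) :
    ∃ K : ℝ, 0 ≤ K ∧ ∀ Q : Ω → Set (E d), IsPoisson P Q → ∀ x y : E d,
      ∫ ω, T α (Q ω) x y ∂P ≤ K + 3 ^ α * ‖x - y‖ ^ α := by
  obtain ⟨K, hK, h⟩ := lintegral_T_le (d := d) P hα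
  refine ⟨K, hK, fun Q hQ x y => ?_⟩
  rw [integral_eq_lintegral_of_nonneg_ae (Eventually.of_forall fun ω => T_nonneg _ _)
    (aemeasurable_T hQ hα x y).aestronglyMeasurable]
  exact ENNReal.toReal_le_of_le_ofReal (by positivity) (h Q hQ x y)

/-- Translation invariance of the mean. -/
theorem mean_translate (hQ : IsPoisson P Q) (hα : 0 < α) (a v : E d) :
    ∫ ω, T α (Q ω) a (a + v) ∂P = ∫ ω, T α (Q ω) 0 v ∂P := by
  have h1 : ∫ ω, T α (Q ω) a (a + v) ∂P =
      ∫ ω, T α ((fun u => u + -a) '' Q ω) 0 v ∂P := by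
    refine integral_congr_ae ?_
    filter_upwards [ae_good hQ a, ae_good hQ (a + v)] with ω hx hy
    have := T_translate (α := α) hx hy (-a)
    rw [add_neg_cancel, show a + v + -a = v by abel] at this
    exact this.symm
  rw [h1]
  exact mean_eq (hQ.translate (-a)) hQ hα 0 v

/-- The mean passage time `E T_n`. -/
noncomputable def mean (P : Measure Ω) (Q : Ω → Set (E d)) (α n : ℝ) : ℝ :=
  ∫ ω, T α (Q ω) 0 (n • e1 d) ∂P

theorem mean_nonneg (n : ℝ) : 0 ≤ mean P Q α n := integral_nonneg fun _ => T_nonneg _ _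

theorem mean_shift (hQ : IsPoisson P Q) (hα : 0 < α) (m n : ℝ) :
    ∫ ω, T α (Q ω) (m • e1 d) ((m + n) • e1 d) ∂P = mean P Q α n := by
  rw [add_smul]
  exact mean_translate hQ hα _ _

theorem mean_subadd (hQ : IsPoisson P Q) (hα : 0 < α) (m n : ℝ) :
    mean P Q α (m + n) ≤ mean P Q α m + mean P Q α n := by
  rw [← mean_shift hQ hα m n]
  unfold mean
  rw [← integral_add (integrable_T hQ hα _ _) (integrable_T hQ hα _ _)]
  refine integral_mono_ae (integrable_T hQ hα _ _)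
    ((integrable_T hQ hα _ _).add (integrable_T hQ hα _ _)) ?_
  filter_upwards [ae_good hQ 0, ae_good hQ (m • e1 d), ae_good hQ ((m + n) • e1 d)]
    with ω h1 h2 h3
  exact PT_triangle (near_nr h1).1 (near_nr h2).1 (near_nr h3).1

theorem norm_e1 : ‖e1 d‖ = 1 := by
  unfold e1
  simp

theorem mean_bdd (hQ : IsPoisson P Q) (hα : 0 < α) :
    ∃ B : ℝ, ∀ x : ℝ, 0 ≤ x → x ≤ 1 → mean P Q α x ≤ B := by
  obtain ⟨K, hK, h⟩ := integral_T_le (d := d) P hα
  refine ⟨K + 3 ^ α, fun x h0 h1 => (h Q hQ 0 (x • e1 d)).trans ?_⟩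
  rw [zero_sub, norm_neg, norm_smul, norm_e1, mul_one, Real.norm_of_nonneg h0]
  have : x ^ α ≤ 1 := Real.rpow_le_one h0 h1 hα.le
  nlinarith [Real.rpow_nonneg (show (0 : ℝ) ≤ 3 by norm_num) α]

theorem mean_lower (hQ : IsPoisson P Q) (hα : 1 ≤ α) :
    ∃ c n1 : ℝ, 0 < c ∧ ∀ n, n1 ≤ n → c * n ≤ mean P Q α n := by
  obtain ⟨c, n1, hc, h⟩ := pos_prob hQ hα
  have hα0 : 0 < α := by linarith
  refine ⟨c / 2, max n1 0, by positivity, fun n hn => ?_⟩
  have hn1 : n1 ≤ n := (le_max_left _ _).trans hn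
  have hn0 : 0 ≤ n := (le_max_right _ _).trans hn
  have hp := h n hn1
  have h2 := mul_meas_ge_le_integral_of_nonneg (μ := P)
    (f := fun ω => T α (Q ω) 0 (n • e1 d)) (Eventually.of_forall fun ω => T_nonneg _ _)
    (integrable_T hQ hα0 _ _) (c * n)
  have h3 : (1 : ℝ) / 2 ≤ P.real {ω | c * n ≤ T α (Q ω) 0 (n • e1 d)} := by
    have h4 : (1 : ℝ≥0∞) ≤ 1 / 2 + P {ω | c * n ≤ T α (Q ω) 0 (n • e1 d)} := by
      calc (1 : ℝ≥0∞) = P Set.univ := measure_univ.symm
        _ ≤ P ({ω | Good (Q ω) 0 ∧ Good (Q ω) (n • e1 d) ∧ T α (Q ω) 0 (n • e1 d) < c * n} ∪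
              {ω | c * n ≤ T α (Q ω) 0 (n • e1 d)}) := by
            refine measure_mono_ae ?_
            filter_upwards [ae_good hQ 0, ae_good hQ (n • e1 d)] with ω h1 h2 _
            rcases lt_or_ge (T α (Q ω) 0 (n • e1 d)) (c * n) with h | h
            · exact Or.inl ⟨h1, h2, h⟩
            · exact Or.inr h
        _ ≤ _ := (measure_union_le _ _).trans (by gcongr)
    have h5 : P {ω | c * n ≤ T α (Q ω) 0 (n • e1 d)} ≠ ∞ := measure_ne_top _ _
    have h6 : (1 : ℝ) ≤ 1 / 2 + P.real {ω | c * n ≤ T α (Q ω) 0 (n • e1 d)} := by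
      have := ENNReal.toReal_mono (by simp [h5]) h4
      rw [ENNReal.toReal_add (by simp) h5] at this
      simpa [Measure.real] using this
    linarith
  unfold mean
  nlinarith [mul_nonneg hc.le hn0]

end Mean

end Pool.Agent.Work.MP_4035b7_pr
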