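import Pool.Agent.Work.MP_4035b7_pr.Defs

/-!
# Basic properties of the Poisson process (module Pois)
-/

open MeasureTheory ProbabilityTheory Filter
open scoped ENNReal NNReal Topology

namespace Pool.Agent.Work.MP_4035b7_pr

section Pois
variable {d : ℕ} {Ω : Type*} [MeasurableSpace Ω] {P : Measure Ω} [IsProbabilityMeasure P]
  {Q : Ω → Set (E d)}

omit [IsProbabilityMeasure P] in
theorem IsPoisson.measurable_ncard (hQ : IsPoisson P Q) {B : Set (E d)} (hB : MeasurableSet B) :
    Measurable (fun ω => (Q ω ∩ B).ncard) := by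
  have hk : ∀ k : ℕ, k ≠ 0 → MeasurableSet {ω | (Q ω ∩ B).ncard = k} := by
    intro k hk
    have : {ω | (Q ω ∩ B).ncard = k} = {ω | (Q ω ∩ B).encard = (k : ℕ∞)} := by
      ext ω
      simp only [Set.mem_ofPred_eq, Set.ncard_def]
      exact ENat.toNat_eq_iff hk
    rw [this]
    exact hQ.meas B hB k
  refine measurable_to_countable' fun k => ?_
  by_cases h0 : k = 0
  · subst h0
    have : (fun ω => (Q ω ∩ B).ncard) ⁻¹' {0} =
        (⋃ k : ℕ, {ω | (Q ω ∩ B).ncard = k + 1})ᶜ := by
      ext ω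
      simp only [Set.mem_preimage, Set.mem_singleton_iff, Set.mem_compl_iff, Set.mem_iUnion,
        Set.mem_ofPred_eq, not_exists]
      constructor
      · intro h k hk'
        omega
      · intro h
        by_contra h1
        exact h ((Q ω ∩ B).ncard - 1) (by omega)
    rw [this]
    exact (MeasurableSet.iUnion fun k => hk (k + 1) (by omega)).compl
  · exact hk k h0

omit [IsProbabilityMeasure P] in
theorem IsPoisson.measurableSet_void (hQ : IsPoisson P Q) {B : Set (E d)} (hB : MeasurableSet B) :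
    MeasurableSet {ω | Q ω ∩ B = ∅} := by
  have : {ω | Q ω ∩ B = ∅} = {ω | (Q ω ∩ B).encard = ((0 : ℕ) : ℕ∞)} := by
    ext ω
    simp [Set.encard_eq_zero]
  rw [this]
  exact hQ.meas B hB 0

omit [IsProbabilityMeasure P] in
theorem IsPoisson.measurableSet_nonempty (hQ : IsPoisson P Q) {B : Set (E d)}
    (hB : MeasurableSet B) : MeasurableSet {ω | (Q ω ∩ B).Nonempty} := by
  have : {ω | (Q ω ∩ B).Nonempty} = {ω | Q ω ∩ B = ∅}ᶜ := by
    ext ω
    simp [Set.nonempty_iff_ne_empty]
  rw [this]
  exact (hQ.measurableSet_void hB).compl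

omit [IsProbabilityMeasure P] in
theorem IsPoisson.measurableSet_two (hQ : IsPoisson P Q) {B : Set (E d)} (hB : MeasurableSet B) :
    MeasurableSet {ω | 2 ≤ (Q ω ∩ B).encard} := by
  have : {ω | 2 ≤ (Q ω ∩ B).encard} =
      ({ω | (Q ω ∩ B).encard = ((0 : ℕ) : ℕ∞)} ∪ {ω | (Q ω ∩ B).encard = ((1 : ℕ) : ℕ∞)})ᶜ := by
    ext ω
    simp only [Set.mem_ofPred_eq, Set.mem_compl_iff, Set.mem_union, not_or]
    generalize (Q ω ∩ B).encard = t
    induction t using ENat.recTopCoe with
    | top => simp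
    | coe a =>
      have h2 : (2 : ℕ∞) = ((2 : ℕ) : ℕ∞) := rfl
      rw [h2]
      simp only [Nat.cast_inj, Nat.cast_le]
      omega
  rw [this]
  exact ((hQ.meas B hB 0).union (hQ.meas B hB 1)).compl

theorem IsPoisson.ae_finite (hQ : IsPoisson P Q) {B : Set (E d)} (hB : MeasurableSet B)
    (hv : volume B < ∞) : ∀ᵐ ω ∂P, (Q ω ∩ B).Finite := by
  have hmeas : MeasurableSet (⋃ k : ℕ, {ω | (Q ω ∩ B).encard = (k : ℕ∞)}) :=
    MeasurableSet.iUnion fun k => hQ.meas B hB k
  have h1 : P (⋃ k : ℕ, {ω | (Q ω ∩ B).encard = (k : ℕ∞)}) = 1 := by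
    rw [measure_iUnion]
    · have hk : ∀ k : ℕ, P {ω | (Q ω ∩ B).encard = (k : ℕ∞)} =
          ENNReal.ofReal (Real.exp (-((volume B).toNNReal : ℝ)) *
            ((volume B).toNNReal : ℝ) ^ k / k.factorial) := by
        intro k
        have := hQ.law 1 (fun _ => B) (fun _ => k) (fun _ => hB) (fun _ => hv)
          (fun i j hij => absurd (Subsingleton.elim i j) hij)
        simp only [Finset.univ_unique, Finset.prod_singleton, forall_const] at this
        simpa only [ENNReal.coe_toNNReal_eq_toReal] using this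
      simp_rw [hk]
      have hs := hasSum_one_poissonMeasure (volume B).toNNReal
      rw [← ENNReal.ofReal_tsum_of_nonneg (fun k => by positivity) hs.summable, hs.tsum_eq]
      simp
    · intro i j hij
      rw [Function.onFun, Set.disjoint_left]
      intro ω h1 h2
      simp only [Set.mem_ofPred_eq] at h1 h2
      rw [h1] at h2
      exact hij (by exact_mod_cast h2)
    · exact fun k => hQ.meas B hB k
  have h2 : ∀ᵐ ω ∂P, ω ∈ (⋃ k : ℕ, {ω | (Q ω ∩ B).encard = (k : ℕ∞)}) := by
    rw [← mem_ae_iff_prob_eq_one hmeas] at h1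
    exact h1
  filter_upwards [h2] with ω hω
  simp only [Set.mem_iUnion, Set.mem_ofPred_eq] at hω
  obtain ⟨k, hk⟩ := hω
  exact Set.finite_of_encard_eq_coe hk

theorem IsPoisson.map_ncard (hQ : IsPoisson P Q) {ι : Type} [Fintype ι] (B : ι → Set (E d))
    (hB : ∀ i, MeasurableSet (B i)) (hv : ∀ i, volume (B i) < ∞)
    (hdisj : Pairwise (fun i j => Disjoint (B i) (B j))) :
    P.map (fun ω i => (Q ω ∩ B i).ncard) =
      Measure.pi (fun i => poissonMeasure (volume (B i)).toNNReal) := by
  have hmeas : Measurable (fun ω i => (Q ω ∩ B i).ncard) :=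
    measurable_pi_lambda _ fun i => hQ.measurable_ncard (hB i)
  refine Measure.ext_of_singleton fun k => ?_
  rw [Measure.map_apply hmeas (measurableSet_singleton k), Measure.pi_singleton]
  simp_rw [poissonMeasure_singleton]
  let e : Fin (Fintype.card ι) ≃ ι := (Fintype.equivFin ι).symm
  have hl := hQ.law (Fintype.card ι) (fun j => B (e j)) (fun j => k (e j)) (fun j => hB _)
    (fun j => hv _) (fun i j hij => hdisj (e.injective.ne hij))
  have h1 : P ((fun ω i => (Q ω ∩ B i).ncard) ⁻¹' {k}) =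
      P {ω | ∀ j, (Q ω ∩ B (e j)).encard = (k (e j) : ℕ∞)} := by
    apply measure_congr
    have hfin : ∀ᵐ ω ∂P, ∀ i, (Q ω ∩ B i).Finite := by
      rw [ae_all_iff]
      exact fun i => hQ.ae_finite (hB i) (hv i)
    filter_upwards [hfin] with ω hω
    apply propext
    change (fun i => (Q ω ∩ B i).ncard) = k ↔ ∀ j, (Q ω ∩ B (e j)).encard = (k (e j) : ℕ∞)
    constructor
    · intro h j
      rw [← congrFun h (e j)]
      exact ((hω (e j)).cast_ncard_eq).symm
    · intro h
      funext i
      have := h (e.symm i)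
      rw [e.apply_symm_apply] at this
      rw [Set.ncard_def, this]
      simp
  rw [h1, hl]
  exact Fintype.prod_equiv e _ _ (fun j => rfl)

/-- Joint law of the counts, in terms of sets of values. -/
theorem IsPoisson.prob_counts (hQ : IsPoisson P Q) {ι : Type} [Fintype ι] (B : ι → Set (E d))
    (S : ι → Set ℕ)
    (hB : ∀ i, MeasurableSet (B i)) (hv : ∀ i, volume (B i) < ∞)
    (hdisj : Pairwise (fun i j => Disjoint (B i) (B j))) :
    P {ω | ∀ i, (Q ω ∩ B i).ncard ∈ S i} =
      ∏ i, poissonMeasure (volume (B i)).toNNReal (S i) := by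
  have hmeas : Measurable (fun ω i => (Q ω ∩ B i).ncard) :=
    measurable_pi_lambda _ fun i => hQ.measurable_ncard (hB i)
  have h1 : {ω | ∀ i, (Q ω ∩ B i).ncard ∈ S i} =
      (fun ω i => (Q ω ∩ B i).ncard) ⁻¹' (Set.univ.pi S) := by
    ext ω
    simp
  rw [h1, ← Measure.map_apply hmeas
    (MeasurableSet.univ_pi fun i => (Set.to_countable (S i)).measurableSet),
    hQ.map_ncard B hB hv hdisj, Measure.pi_pi]

theorem poisson_zero (v : ℝ≥0) : poissonMeasure v {0} = ENNReal.ofReal (Real.exp (-v)) := by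
  rw [poissonMeasure_singleton]
  simp

theorem poisson_ici_one (v : ℝ≥0) : poissonMeasure v (Set.Ici 1) ≤ v := by
  have h1 : (Set.Ici 1 : Set ℕ) = {0}ᶜ := by
    ext n
    simp only [Set.mem_Ici, Set.mem_compl_iff, Set.mem_singleton_iff]
    omega
  rw [h1, prob_compl_eq_one_sub (measurableSet_singleton 0), poisson_zero, ← ENNReal.ofReal_one,
    ← ENNReal.ofReal_sub _ (Real.exp_pos _).le, ← ENNReal.ofReal_coe_nnreal]
  apply ENNReal.ofReal_le_ofReal
  have := Real.add_one_le_exp (-(v : ℝ))
  linarith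

theorem poisson_ici_two (v : ℝ≥0) : poissonMeasure v (Set.Ici 2) ≤ (v : ℝ≥0∞) ^ 2 := by
  have h1 : (Set.Ici 2 : Set ℕ) = ({0} ∪ {1})ᶜ := by
    ext n
    simp only [Set.mem_Ici, Set.mem_compl_iff, Set.mem_union, Set.mem_singleton_iff]
    omega
  rw [h1, prob_compl_eq_one_sub ((measurableSet_singleton 0).union (measurableSet_singleton 1)),
    measure_union (by simp) (measurableSet_singleton 1), poisson_zero, poissonMeasure_singleton,
    ← ENNReal.ofReal_add (Real.exp_pos _).le (by positivity), ← ENNReal.ofReal_one,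
    ← ENNReal.ofReal_sub _ (by positivity), ← ENNReal.ofReal_coe_nnreal,
    ← ENNReal.ofReal_pow v.coe_nonneg]
  apply ENNReal.ofReal_le_ofReal
  have h2 := Real.add_one_le_exp (-(v : ℝ))
  have hv : (0 : ℝ) ≤ v := v.coe_nonneg
  simp only [pow_one, Nat.factorial_one, Nat.cast_one, div_one]
  nlinarith [Real.exp_pos (-(v : ℝ)), mul_le_mul_of_nonneg_left h2 (by linarith : (0:ℝ) ≤ 1 + v)]

omit [IsProbabilityMeasure P] in
theorem IsPoisson.prob_void (hQ : IsPoisson P Q) {B : Set (E d)} (hB : MeasurableSet B)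
    (hv : volume B < ∞) :
    P {ω | Q ω ∩ B = ∅} = ENNReal.ofReal (Real.exp (-(volume B).toReal)) := by
  have := hQ.law 1 (fun _ => B) (fun _ => 0) (fun _ => hB) (fun _ => hv)
    (fun i j hij => absurd (Subsingleton.elim i j) hij)
  simpa [Set.encard_eq_zero] using this

theorem IsPoisson.void_two (hQ : IsPoisson P Q) {A B : Set (E d)} (hA : MeasurableSet A)
    (hB : MeasurableSet B) (hvA : volume A < ∞) (hvB : volume B < ∞) (hAB : Disjoint A B) :
    P {ω | Q ω ∩ A = ∅ ∧ 2 ≤ (Q ω ∩ B).encard} ≤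
      ENNReal.ofReal (Real.exp (-(volume A).toReal)) * volume B ^ 2 := by
  have hC := hQ.prob_counts ![A, B] ![{0}, Set.Ici 2]
    (by intro i; fin_cases i <;> assumption) (by intro i; fin_cases i <;> assumption)
    (by
      intro i j hij
      fin_cases i <;> fin_cases j
      · exact absurd rfl hij
      · exact hAB
      · exact hAB.symm
      · exact absurd rfl hij)
  rw [Fin.prod_univ_two] at hC
  simp only [Matrix.cons_val_zero, Matrix.cons_val_one] at hC
  rw [poisson_zero] at hC
  calc P {ω | Q ω ∩ A = ∅ ∧ 2 ≤ (Q ω ∩ B).encard}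
      ≤ P {ω | ∀ i : Fin 2, (Q ω ∩ (![A, B] : Fin 2 → Set (E d)) i).ncard ∈
          (![{0}, Set.Ici 2] : Fin 2 → Set ℕ) i} := by
        apply measure_mono_ae
        filter_upwards [hQ.ae_finite hB hvB] with ω hω
        rintro ⟨h1, h2⟩
        intro i
        fin_cases i
        · change (Q ω ∩ A).ncard = 0
          rw [h1]
          simp
        · change 2 ≤ (Q ω ∩ B).ncard
          rw [← hω.cast_ncard_eq] at h2
          exact_mod_cast h2
    _ = _ := hC
    _ ≤ _ := by
        rw [ENNReal.coe_toNNReal_eq_toReal]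
        gcongr
        refine (poisson_ici_two _).trans (le_of_eq ?_)
        rw [ENNReal.coe_toNNReal hvB.ne]

theorem IsPoisson.void_one_one (hQ : IsPoisson P Q) {A B C : Set (E d)} (hA : MeasurableSet A)
    (hB : MeasurableSet B) (hC : MeasurableSet C) (hvA : volume A < ∞) (hvB : volume B < ∞)
    (hvC : volume C < ∞) (hAB : Disjoint A B) (hAC : Disjoint A C) (hBC : Disjoint B C) :
    P {ω | Q ω ∩ A = ∅ ∧ (Q ω ∩ B).Nonempty ∧ (Q ω ∩ C).Nonempty} ≤
      ENNReal.ofReal (Real.exp (-(volume A).toReal)) * volume B * volume C := by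
  have hC := hQ.prob_counts ![A, B, C] ![{0}, Set.Ici 1, Set.Ici 1]
    (by intro i; fin_cases i <;> assumption) (by intro i; fin_cases i <;> assumption)
    (by
      intro i j hij
      fin_cases i <;> fin_cases j
      · exact absurd rfl hij
      · exact hAB
      · exact hAC
      · exact hAB.symm
      · exact absurd rfl hij
      · exact hBC
      · exact hAC.symm
      · exact hBC.symm
      · exact absurd rfl hij)
  rw [Fin.prod_univ_three] at hC
  simp only [Matrix.cons_val_zero, Matrix.cons_val_one, Matrix.cons_val] at hC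
  rw [poisson_zero] at hC
  calc P {ω | Q ω ∩ A = ∅ ∧ (Q ω ∩ B).Nonempty ∧ (Q ω ∩ C).Nonempty}
      ≤ P {ω | ∀ i : Fin 3, (Q ω ∩ (![A, B, C] : Fin 3 → Set (E d)) i).ncard ∈
          (![{0}, Set.Ici 1, Set.Ici 1] : Fin 3 → Set ℕ) i} := by
        apply measure_mono_ae
        filter_upwards [hQ.ae_finite hB hvB, hQ.ae_finite ‹MeasurableSet C› hvC] with ω hω hω'
        rintro ⟨h1, h2, h3⟩
        intro i
        fin_cases i
        · change (Q ω ∩ A).ncard = 0
          rw [h1]
          simp
        · change 1 ≤ (Q ω ∩ B).ncard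
          exact (Set.ncard_pos hω).2 h2
        · change 1 ≤ (Q ω ∩ C).ncard
          exact (Set.ncard_pos hω').2 h3
    _ = _ := hC
    _ ≤ _ := by
        rw [ENNReal.coe_toNNReal_eq_toReal]
        gcongr
        · refine (poisson_ici_one _).trans (le_of_eq ?_)
          rw [ENNReal.coe_toNNReal hvB.ne]
        · refine (poisson_ici_one _).trans (le_of_eq ?_)
          rw [ENNReal.coe_toNNReal hvC.ne]

theorem IsPoisson.all_nonempty (hQ : IsPoisson P Q) {m : ℕ} (B : Fin m → Set (E d))
    (hB : ∀ i, MeasurableSet (B i)) (hv : ∀ i, volume (B i) < ∞)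
    (hdisj : Pairwise (fun i j => Disjoint (B i) (B j))) :
    P {ω | ∀ i, (Q ω ∩ B i).Nonempty} ≤ ∏ i, volume (B i) := by
  calc P {ω | ∀ i, (Q ω ∩ B i).Nonempty}
      ≤ P {ω | ∀ i, (Q ω ∩ B i).ncard ∈ Set.Ici 1} := by
        apply measure_mono_ae
        have hfin : ∀ᵐ ω ∂P, ∀ i, (Q ω ∩ B i).Finite := by
          rw [ae_all_iff]
          exact fun i => hQ.ae_finite (hB i) (hv i)
        filter_upwards [hfin] with ω hω
        intro h i
        exact (Set.ncard_pos (hω i)).2 (h i)
    _ = ∏ i, poissonMeasure (volume (B i)).toNNReal (Set.Ici 1) :=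
        hQ.prob_counts B (fun _ => Set.Ici 1) hB hv hdisj
    _ ≤ ∏ i, volume (B i) := by
        refine Finset.prod_le_prod' fun i _ => ?_
        refine (poisson_ici_one _).trans (le_of_eq ?_)
        rw [ENNReal.coe_toNNReal (hv i).ne]

omit [IsProbabilityMeasure P] in
theorem IsPoisson.image (hQ : IsPoisson P Q) (φ : E d ≃ᵐ E d)
    (hφ : MeasurePreserving φ volume volume) : IsPoisson P (fun ω => φ '' Q ω) := by
  have he : ∀ (ω : Ω) (B : Set (E d)), (φ '' Q ω ∩ B).encard = (Q ω ∩ φ ⁻¹' B).encard := by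
    intro ω B
    rw [← Set.image_inter_preimage, φ.injective.encard_image]
  have hvol : ∀ B : Set (E d), MeasurableSet B → volume (φ ⁻¹' B) = volume B := fun B hB =>
    hφ.measure_preimage hB.nullMeasurableSet
  constructor
  · intro B hB k
    simp_rw [he]
    exact hQ.meas _ (φ.measurable hB) k
  · intro m B k hB hv hdisj
    simp_rw [he]
    rw [hQ.law m (fun i => φ ⁻¹' (B i)) k (fun i => φ.measurable (hB i))
      (fun i => by rw [hvol _ (hB i)]; exact hv i)
      (fun i j hij => (hdisj hij).preimage _)]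
    refine Finset.prod_congr rfl fun i _ => ?_
    rw [hvol _ (hB i)]

omit [IsProbabilityMeasure P] in
theorem IsPoisson.translate (hQ : IsPoisson P Q) (a : E d) :
    IsPoisson P (fun ω => (fun v => v + a) '' Q ω) := by
  exact hQ.image (MeasurableEquiv.addRight a) (measurePreserving_add_right volume a)

end Pois

end Pool.Agent.Work.MP_4035b7_pr
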